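import Mathlib

/-!
# Simple Anosov representations of closed hyperbolic surface groups: definitions
-/

set_option autoImplicit false

open scoped MatrixGroups UpperHalfPlane Matrix
open UpperHalfPlane

namespace Pool.Agent.Y473.SA

/-- `Γ` acts freely, properly discontinuously and cocompactly on the hyperbolic plane `ℍ`: the
quotient `S = ℍ / Γ` is a closed connected oriented hyperbolic surface and `Γ = π₁(S)`. -/
structure IsClosedSurface (Γ : Subgroup SL(2, ℝ)) : Prop where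
  free : ∀ g : Γ, ∀ z : ℍ, g • z = z → g = 1
  proper : ∀ K : Set ℍ, IsCompact K → {g : Γ | ∃ z ∈ K, g • z ∈ K}.Finite
  cocompact : ∃ K : Set ℍ, IsCompact K ∧ ∀ z : ℍ, ∃ g : Γ, g • z ∈ K

/-- The unit tangent bundle of `ℍ`: a unit tangent vector is the same as a unit speed geodesic
line `c`, that is, an isometric map `ℝ → ℍ` (the vector is `c'(0)`). The topology is that of
pointwise convergence. -/
abbrev UT : Type := {c : ℝ → ℍ // Isometry c}

/-- The geodesic flow on the unit tangent bundle. -/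
def flow (t : ℝ) (c : UT) : UT :=
  ⟨fun s => c.1 (s + t), c.2.comp (IsometryEquiv.addRight t).isometry⟩

variable {Γ : Subgroup SL(2, ℝ)}

/-- The action of the surface group on the unit tangent bundle of `ℍ`. -/
noncomputable def act (g : Γ) (c : UT) : UT :=
  ⟨fun s => g • c.1 s, (isometry_smul ℍ (g : SL(2, ℝ))).comp c.2⟩

/-- The geodesic line `c` projects to a simple closed geodesic of length `l` of `ℍ / Γ`: it is
invariant under a translation of length `l`, and two points of it are identified in `ℍ / Γ` only if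
their parameters differ by an integer multiple of `l`. -/
def IsSimpleClosed (Γ : Subgroup SL(2, ℝ)) (c : UT) (l : ℝ) : Prop :=
  0 < l ∧ (∃ g : Γ, act g c = flow l c) ∧
    ∀ (g : Γ) (s t : ℝ), g • c.1 s = c.1 t → ∃ n : ℤ, t = s + n * l

/-- The preimage in the unit tangent bundle of `ℍ` of the Birman-Series set: the closure of the
union of all simple closed geodesics. -/
def birmanSeries (Γ : Subgroup SL(2, ℝ)) : Set UT := closure {c | ∃ l, IsSimpleClosed Γ c l}

/-- `Hom(Γ, SL(d, ℂ))`, with the topology of pointwise convergence. -/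
abbrev Rep (Γ : Subgroup SL(2, ℝ)) (d : ℕ) : Type :=
  {ρ : Γ → SL(d, ℂ) // ∀ x y, ρ (x * y) = ρ x * ρ y}

/-- `ρ` is simple `k`-Anosov. The flat bundle is `(T¹ℍ × ℂᵈ) / Γ`, the lifted flow moves only the
first component. The splitting `E^u ⊕ E^s` over the Birman-Series set is given by the
projections `P c` with image `E^u` (of rank `k`) and kernel `E^s`, and `N c` is the norm on the
fibre over `c`. -/
def IsSimpleAnosov {d : ℕ} (k : ℕ) (ρ : Rep Γ d) : Prop :=
  ∃ (P : UT → Matrix (Fin d) (Fin d) ℂ) (N : UT → Seminorm ℂ (Fin d → ℂ)) (C a : ℝ),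
    0 < C ∧ 0 < a ∧
    -- `P` is a continuous family of projections of rank `k`, equivariant and flow invariant
    ContinuousOn P (birmanSeries Γ) ∧
    (∀ c ∈ birmanSeries Γ, P c * P c = P c ∧ (P c).rank = k) ∧
    (∀ c ∈ birmanSeries Γ, ∀ g : Γ, P (act g c) * (ρ.1 g).1 = (ρ.1 g).1 * P c) ∧
    (∀ c ∈ birmanSeries Γ, ∀ t, P (flow t c) = P c) ∧
    -- `N` is a continuous equivariant family of norms
    ContinuousOn (fun p : UT × (Fin d → ℂ) => N p.1 p.2) (birmanSeries Γ ×ˢ Set.univ) ∧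
    (∀ c ∈ birmanSeries Γ, ∀ v, N c v = 0 → v = 0) ∧
    (∀ c ∈ birmanSeries Γ, ∀ (g : Γ) v, N (act g c) ((ρ.1 g).1 *ᵥ v) = N c v) ∧
    -- the domination
    ∀ c ∈ birmanSeries Γ, ∀ v w, P c *ᵥ v = v → P c *ᵥ w = 0 → ∀ t, 0 ≤ t →
      N (flow t c) w * N c v ≤ C * Real.exp (-a * t) * (N (flow t c) v * N c w)

/-- `ρ` is completely reducible. -/
def IsCompletelyReducible {d : ℕ} (ρ : Rep Γ d) : Prop :=
  ∀ W : Submodule ℂ (Fin d → ℂ), (∀ g, ∀ w ∈ W, (ρ.1 g).1 *ᵥ w ∈ W) →
    ∃ W' : Submodule ℂ (Fin d → ℂ), (∀ g, ∀ w ∈ W', (ρ.1 g).1 *ᵥ w ∈ W') ∧ IsCompl W W'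

/-- Completely reducible representations. -/
abbrev CRep (Γ : Subgroup SL(2, ℝ)) (d : ℕ) : Type := {ρ : Rep Γ d // IsCompletelyReducible ρ}

/-- Conjugacy of representations. -/
def conjSetoid (Γ : Subgroup SL(2, ℝ)) (d : ℕ) : Setoid (CRep Γ d) where
  r ρ ρ' := ∃ h : SL(d, ℂ), ∀ g, ρ'.1.1 g = h * ρ.1.1 g * h⁻¹
  iseqv :=
    { refl := fun ρ => ⟨1, fun g => by simp⟩
      symm := fun {ρ ρ'} ⟨h, hh⟩ => ⟨h⁻¹, fun g => by rw [hh g]; group⟩
      trans := fun {ρ ρ' ρ''} ⟨h, hh⟩ ⟨k, hk⟩ => ⟨k * h, fun g => by rw [hk g, hh g]; group⟩ }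

/-- The character variety `χ(Γ, SL(d, ℂ))`: its points are the conjugacy classes of completely
reducible representations, its topology is the quotient topology. -/
abbrev CharVar (Γ : Subgroup SL(2, ℝ)) (d : ℕ) : Type := Quotient (conjSetoid Γ d)

/-- The representation `ρ ∘ φ⁻¹`. -/
def twistRep {d : ℕ} (φ : MulAut Γ) (ρ : Rep Γ d) : Rep Γ d :=
  ⟨fun g => ρ.1 (φ⁻¹ g), fun x y => by simp only [map_mul, ρ.2]⟩

theorem twistRep_completelyReducible {d : ℕ} (φ : MulAut Γ) {ρ : Rep Γ d}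
    (h : IsCompletelyReducible ρ) : IsCompletelyReducible (twistRep φ ρ) := by
  intro W hW
  obtain ⟨W', h1, h2⟩ := h W fun g w hw => by
    have := hW (φ g) w hw
    simpa [twistRep] using this
  exact ⟨W', fun g w hw => h1 (φ⁻¹ g) w hw, h2⟩

/-- The action of the automorphism `φ` of `Γ` on the character variety, `[ρ] ↦ [ρ ∘ φ⁻¹]`. -/
def twist {d : ℕ} (φ : MulAut Γ) : CharVar Γ d → CharVar Γ d :=
  Quotient.map (fun ρ => ⟨twistRep φ ρ.1, twistRep_completelyReducible φ ρ.2⟩)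
    fun _ _ ⟨h, hh⟩ => ⟨h, fun g => hh (φ⁻¹ g)⟩

/-- The group `Out(Γ)` of outer automorphisms, `Mod(S)`. -/
abbrev Out (Γ : Subgroup SL(2, ℝ)) : Type := MulAut Γ ⧸ (MulAut.conj : Γ →* MulAut Γ).range

/-- `U` is a domain of discontinuity for the action of `Out(Γ)` on the character variety: it is
open and invariant, and for every compact subset `K` of `U` there are only finitely many elements
of `Out(Γ)` that map a point of `K` to a point of `K`. -/
def IsDomainOfDiscontinuity {d : ℕ} (U : Set (CharVar Γ d)) : Prop :=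
  IsOpen U ∧ (∀ (φ : MulAut Γ), ∀ x ∈ U, twist φ x ∈ U) ∧
    ∀ K ⊆ U, IsCompact K →
      {q : Out Γ | ∃ φ : MulAut Γ, (φ : Out Γ) = q ∧ ∃ x ∈ K, twist φ x ∈ K}.Finite

/-- The simple `k`-Anosov domain: the classes of the simple `k`-Anosov representations. -/
def simpleAnosovDomain (Γ : Subgroup SL(2, ℝ)) (d k : ℕ) : Set (CharVar Γ d) :=
  {x | ∃ ρ : CRep Γ d, IsSimpleAnosov k ρ.1 ∧ Quotient.mk _ ρ = x}

end Pool.Agent.Y473.SA
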