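import Pool.Agent.Y473.SA.Cross2

/-!
# Sets of automorphisms with bounded traces
-/

set_option autoImplicit false

open scoped MatrixGroups UpperHalfPlane Matrix
open UpperHalfPlane

namespace Pool.Agent.Y473.SA

variable {Γ : Subgroup SL(2, ℝ)}

/-- The trace of an element of `SL(2, ℝ)`. -/
noncomputable def tr (g : SL(2, ℝ)) : ℝ := (g : Matrix (Fin 2) (Fin 2) ℝ).trace

theorem tr_eq (g : SL(2, ℝ)) : tr g = g 0 0 + g 1 1 := Matrix.trace_fin_two _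

theorem tr_conj (h g : SL(2, ℝ)) : tr (h⁻¹ * g * h) = tr g := by
  unfold tr
  rw [Matrix.SpecialLinearGroup.coe_mul, Matrix.SpecialLinearGroup.coe_mul, Matrix.trace_mul_cycle,
    ← Matrix.SpecialLinearGroup.coe_mul, mul_inv_cancel, Matrix.SpecialLinearGroup.coe_one, one_mul]

theorem sl_det (g : SL(2, ℝ)) : g 0 0 * g 1 1 - g 0 1 * g 1 0 = 1 := by
  have := g.det_coe
  rwa [Matrix.det_fin_two] at this

theorem sl_mul_apply (g h : SL(2, ℝ)) (i j : Fin 2) : (g * h) i j = g i 0 * h 0 j + g i 1 * h 1 j := by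
  rw [Matrix.SpecialLinearGroup.coe_mul, Matrix.mul_apply, Fin.sum_univ_two]

theorem sl_inv_apply (g : SL(2, ℝ)) : g⁻¹ 0 0 = g 1 1 ∧ g⁻¹ 0 1 = -g 0 1 ∧ g⁻¹ 1 0 = -g 1 0 ∧
    g⁻¹ 1 1 = g 0 0 := by
  rw [Matrix.SpecialLinearGroup.SL2_inv_expl]
  simp

/-- The frame relation `tr(bd) + tr(b d⁻¹) = tr b tr d`. -/
theorem tr_identity (b d : SL(2, ℝ)) : tr (b * d) = tr b * tr d - tr (b * d⁻¹) := by
  obtain ⟨h1, h2, h3, h4⟩ := sl_inv_apply d
  rw [tr_eq, tr_eq, tr_eq, tr_eq, sl_mul_apply, sl_mul_apply, sl_mul_apply, sl_mul_apply, h1, h2, h3, h4]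
  ring

/-- An element translating the vertical line is diagonal. -/
theorem diag_of_vp {A : SL(2, ℝ)} {l : ℝ} (h : ∀ t, A • vp t = vp (t + l)) :
    ∃ lam : ℝ, lam ^ 2 = Real.exp l ∧ A 0 0 = lam ∧ A 1 1 = lam⁻¹ ∧ A 0 1 = 0 ∧ A 1 0 = 0 := by
  have hdet := sl_det A
  have him : ∀ t, (A 1 1) ^ 2 + (A 1 0 * Real.exp t) ^ 2 = Real.exp (-l) := by
    intro t
    have h1 := congrArg UpperHalfPlane.im (h t)
    rw [smul_im, vp_im, vp_re, vp_im, mul_zero, zero_add] at h1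
    have h3 : (A 1 1) ^ 2 + (A 1 0 * Real.exp t) ^ 2 ≠ 0 := by
      intro h0
      rw [h0, div_zero] at h1
      exact (Real.exp_pos _).ne h1
    rw [div_eq_iff h3, Real.exp_add] at h1
    have h4 := Real.exp_pos t
    have h5 : Real.exp l * ((A 1 1) ^ 2 + (A 1 0 * Real.exp t) ^ 2) = 1 := by
      have : Real.exp t * (Real.exp l * ((A 1 1) ^ 2 + (A 1 0 * Real.exp t) ^ 2)) = Real.exp t * 1 := by
        linarith
      exact mul_left_cancel₀ h4.ne' this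
    rw [Real.exp_neg]
    exact eq_inv_of_mul_eq_one_right h5
  have hc : A 1 0 = 0 := by
    have h0 := him 0
    have h1 := him 1
    rw [Real.exp_zero, mul_one] at h0
    have h2 : (A 1 0) ^ 2 * (Real.exp 1 ^ 2 - 1) = 0 := by
      rw [mul_pow] at h1
      linarith
    have h3 : Real.exp 1 ^ 2 - 1 ≠ 0 := by
      have : 1 < Real.exp 1 := Real.one_lt_exp_iff.2 one_pos
      nlinarith
    exact pow_eq_zero_iff two_ne_zero |>.1 ((mul_eq_zero.1 h2).resolve_right h3)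
  have hd : (A 1 1) ^ 2 = Real.exp (-l) := by
    have := him 0
    rwa [hc, zero_mul, zero_pow two_ne_zero, add_zero] at this
  have hd0 : A 1 1 ≠ 0 := by
    intro h0
    rw [h0, zero_pow two_ne_zero] at hd
    exact (Real.exp_pos _).ne hd
  have hb : A 0 1 = 0 := by
    have h1 := congrArg UpperHalfPlane.re (h 0)
    rw [smul_re, vp_re, vp_re, vp_im, hc] at h1
    simp only [mul_zero, zero_add, zero_mul, add_zero] at h1
    rw [div_eq_zero_iff] at h1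
    rcases h1 with h1 | h1
    · exact (mul_eq_zero.1 h1).resolve_right hd0
    · exfalso
      apply hd0
      simpa using h1
  have had : A 0 0 * A 1 1 = 1 := by rw [hb, zero_mul, sub_zero] at hdet; exact hdet
  refine ⟨A 0 0, ?_, rfl, eq_inv_of_mul_eq_one_right had, hb, hc⟩
  have h5 : (A 0 0) ^ 2 * (A 1 1) ^ 2 = 1 := by rw [← mul_pow, had, one_pow]
  rw [hd, Real.exp_neg] at h5
  have := Real.exp_pos l
  field_simp at h5
  exact h5

/-- The diagonal form of a nontrivial element. -/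
theorem diag_of_axis {g : Γ} {p : SL(2, ℝ)} {l : ℝ} (h : act g (geod p) = flow l (geod p)) :
    ∃ lam : ℝ, lam ^ 2 = Real.exp l ∧ (p⁻¹ * g * p) 0 0 = lam ∧ (p⁻¹ * g * p) 1 1 = lam⁻¹ ∧
      (p⁻¹ * g * p) 0 1 = 0 ∧ (p⁻¹ * g * p) 1 0 = 0 := by
  apply diag_of_vp
  intro t
  have h1 := congrArg (fun c : UT => c.1 t) h
  simp only [act_apply, flow_apply, geod_apply] at h1
  rw [mul_smul, mul_smul]
  change p⁻¹ • g • p • vp t = _
  rw [h1, inv_smul_smul]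

/-- There is a gap in the trace spectrum. -/
theorem IsClosedSurface.trace_gap (hΓ : IsClosedSurface Γ) :
    ∃ ε : ℝ, 0 < ε ∧ (∀ g : Γ, g ≠ 1 → 2 * Real.cosh (ε / 2) ≤ |tr g|) ∧
      ∀ g : Γ, g ≠ 1 → ∃ (p : SL(2, ℝ)) (lam : ℝ), 2 * Real.sinh (ε / 2) ≤ |lam - lam⁻¹| ∧
        |lam| ≤ |tr g| ∧ |lam⁻¹| ≤ |tr g| ∧ (p⁻¹ * g * p) 0 0 = lam ∧ (p⁻¹ * g * p) 1 1 = lam⁻¹ ∧
        (p⁻¹ * g * p) 0 1 = 0 ∧ (p⁻¹ * g * p) 1 0 = 0 := by
  obtain ⟨ε, hε, hmin⟩ := hΓ.exists_eps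
  have key : ∀ g : Γ, g ≠ 1 → ∃ (p : SL(2, ℝ)) (l lam : ℝ), ε ≤ l ∧ lam ^ 2 = Real.exp l ∧
      (p⁻¹ * g * p) 0 0 = lam ∧ (p⁻¹ * g * p) 1 1 = lam⁻¹ ∧
        (p⁻¹ * g * p) 0 1 = 0 ∧ (p⁻¹ * g * p) 1 0 = 0 := by
    intro g hg
    obtain ⟨c, l, hl, hc⟩ := hΓ.exists_axis hg
    obtain ⟨p, rfl⟩ := exists_geod c
    obtain ⟨lam, h1, h2⟩ := diag_of_axis hc
    refine ⟨p, l, lam, ?_, h1, h2⟩
    have := hmin g hg ((geod p).1 0)
    rwa [dist_axis hl hc] at this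
  have hcosh : ∀ {l lam : ℝ}, ε ≤ l → lam ^ 2 = Real.exp l → lam ≠ 0 ∧
      (lam + lam⁻¹) ^ 2 = (2 * Real.cosh (l / 2)) ^ 2 ∧ (lam - lam⁻¹) ^ 2 = (2 * Real.sinh (l / 2)) ^ 2 := by
    intro l lam hl h
    have h0 : lam ≠ 0 := by
      rintro rfl
      rw [zero_pow two_ne_zero] at h
      exact (Real.exp_pos _).ne h
    have e1 : Real.exp (l / 2) * Real.exp (l / 2) = Real.exp l := by rw [← Real.exp_add, add_halves]
    have e2 : Real.exp (-(l / 2)) * Real.exp (-(l / 2)) = (Real.exp l)⁻¹ := by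
      rw [← Real.exp_add, ← Real.exp_neg]; congr 1; ring
    have e3 : Real.exp (l / 2) * Real.exp (-(l / 2)) = 1 := by rw [← Real.exp_add]; simp
    have e4 : lam⁻¹ ^ 2 = (Real.exp l)⁻¹ := by rw [inv_pow, h]
    have e5 : lam * lam⁻¹ = 1 := mul_inv_cancel₀ h0
    refine ⟨h0, ?_, ?_⟩
    · rw [Real.cosh_eq]
      nlinarith
    · rw [Real.sinh_eq]
      nlinarith
  refine ⟨ε, hε, ?_, ?_⟩
  · intro g hg
    obtain ⟨p, l, lam, hl, h, h00, h11, -, -⟩ := key g hg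
    have htr : tr g = lam + lam⁻¹ := by rw [← tr_conj p, tr_eq, h00, h11]
    obtain ⟨-, h1, -⟩ := hcosh hl h
    have h2 : |tr g| = 2 * Real.cosh (l / 2) := by
      have h3 := (sq_eq_sq_iff_abs_eq_abs _ _).1 h1
      rw [htr, h3, abs_of_pos]
      have := Real.cosh_pos (l / 2)
      linarith
    rw [h2]
    have : Real.cosh (ε / 2) ≤ Real.cosh (l / 2) := by
      rw [Real.cosh_le_cosh, abs_of_pos (by linarith), abs_of_pos (by linarith)]
      linarith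
    linarith
  · intro g hg
    obtain ⟨p, l, lam, hl, h, h00, h11, h01, h10⟩ := key g hg
    have htr : tr g = lam + lam⁻¹ := by rw [← tr_conj p, tr_eq, h00, h11]
    obtain ⟨h0, -, h1⟩ := hcosh hl h
    have habs : |tr g| = |lam| + |lam⁻¹| := by
      rw [htr]
      rcases lt_or_gt_of_ne h0 with h5 | h5
      · have : lam⁻¹ < 0 := inv_lt_zero.2 h5
        rw [abs_of_neg h5, abs_of_neg this, abs_of_neg (by linarith)]
        ring
      · have : 0 < lam⁻¹ := inv_pos.2 h5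
        rw [abs_of_pos h5, abs_of_pos this, abs_of_pos (by linarith)]
    refine ⟨p, lam, ?_, ?_, ?_, h00, h11, h01, h10⟩
    · have h3 := (sq_eq_sq_iff_abs_eq_abs _ _).1 h1
      rw [h3]
      have h4 : Real.sinh (ε / 2) ≤ Real.sinh (l / 2) := Real.sinh_le_sinh.2 (by linarith)
      exact le_trans (by linarith) (le_abs_self _)
    · rw [habs]; linarith [abs_nonneg lam⁻¹]
    · rw [habs]; linarith [abs_nonneg lam]

end Pool.Agent.Y473.SA
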