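import Pool.Agent.Y473.SA.Growth

/-!
# Block matrices: several copies of a matrix of size two and a scalar block
-/

set_option autoImplicit false

open scoped MatrixGroups UpperHalfPlane Matrix
open UpperHalfPlane

namespace Pool.Agent.Y473.SA

variable {d j m : ℕ}

/-- The block matrix with `j` blocks `A` and a scalar block `δ` of size `m`. -/
def blk (e : (Fin 2 × Fin j) ⊕ Fin m ≃ Fin d) (A : Matrix (Fin 2) (Fin 2) ℂ) (δ : ℂ) :
    Matrix (Fin d) (Fin d) ℂ :=
  Matrix.reindex e e (Matrix.fromBlocks (Matrix.blockDiagonal fun _ : Fin j => A) 0 0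
    (Matrix.diagonal fun _ => δ))

variable (e : (Fin 2 × Fin j) ⊕ Fin m ≃ Fin d)

theorem blk_mul (A A' : Matrix (Fin 2) (Fin 2) ℂ) (δ δ' : ℂ) :
    blk e A δ * blk e A' δ' = blk e (A * A') (δ * δ') := by
  unfold blk
  rw [Matrix.reindex_apply, Matrix.reindex_apply, Matrix.reindex_apply, Matrix.submatrix_mul_equiv,
    Matrix.fromBlocks_multiply, ← Matrix.blockDiagonal_mul, Matrix.diagonal_mul_diagonal]
  simp

theorem blk_one : blk e 1 1 = 1 := by
  unfold blk
  have h1 : (Matrix.blockDiagonal fun _ : Fin j => (1 : Matrix (Fin 2) (Fin 2) ℂ)) = 1 :=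
    Matrix.blockDiagonal_one
  rw [h1, Matrix.reindex_apply, Matrix.diagonal_one, Matrix.fromBlocks_one,
    Matrix.submatrix_one_equiv]

theorem blk_add (A A' : Matrix (Fin 2) (Fin 2) ℂ) (δ δ' : ℂ) :
    blk e (A + A') (δ + δ') = blk e A δ + blk e A' δ' := by
  unfold blk
  have h1 : (Matrix.blockDiagonal fun _ : Fin j => A + A') =
      Matrix.blockDiagonal (fun _ : Fin j => A) + Matrix.blockDiagonal fun _ : Fin j => A' :=
    Matrix.blockDiagonal_add _ _
  have h2 : (Matrix.diagonal fun _ : Fin m => δ + δ') =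
      Matrix.diagonal (fun _ : Fin m => δ) + Matrix.diagonal fun _ : Fin m => δ' :=
    (Matrix.diagonal_add _ _).symm
  have h3 : Matrix.fromBlocks
      (Matrix.blockDiagonal (fun _ : Fin j => A) + Matrix.blockDiagonal fun _ : Fin j => A') 0 0
      (Matrix.diagonal (fun _ : Fin m => δ) + Matrix.diagonal fun _ : Fin m => δ') =
      Matrix.fromBlocks (Matrix.blockDiagonal (fun _ : Fin j => A)) 0 0
        (Matrix.diagonal (fun _ : Fin m => δ)) +
      Matrix.fromBlocks (Matrix.blockDiagonal (fun _ : Fin j => A')) 0 0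
        (Matrix.diagonal (fun _ : Fin m => δ')) := by
    rw [Matrix.fromBlocks_add, add_zero, add_zero]
  rw [h1, h2, h3]
  rfl

theorem blk_smul (c : ℂ) (A : Matrix (Fin 2) (Fin 2) ℂ) (δ : ℂ) :
    blk e (c • A) (c * δ) = c • blk e A δ := by
  unfold blk
  have h1 : (Matrix.blockDiagonal fun _ : Fin j => c • A) =
      c • Matrix.blockDiagonal fun _ : Fin j => A := Matrix.blockDiagonal_smul c _
  have h2 : (Matrix.diagonal fun _ : Fin m => c * δ) = c • Matrix.diagonal fun _ : Fin m => δ := by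
    rw [← Matrix.diagonal_smul]
    rfl
  have h3 : Matrix.fromBlocks (c • Matrix.blockDiagonal (fun _ : Fin j => A)) 0 0
      (c • Matrix.diagonal (fun _ : Fin m => δ)) =
      c • Matrix.fromBlocks (Matrix.blockDiagonal (fun _ : Fin j => A)) 0 0
        (Matrix.diagonal (fun _ : Fin m => δ)) := by
    rw [Matrix.fromBlocks_smul, smul_zero, smul_zero]
  rw [h1, h2, h3]
  rfl

theorem blk_conjTranspose (A : Matrix (Fin 2) (Fin 2) ℂ) (δ : ℂ) :
    (blk e A δ)ᴴ = blk e Aᴴ (star δ) := by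
  unfold blk
  rw [Matrix.reindex_apply, Matrix.reindex_apply, Matrix.conjTranspose_submatrix,
    Matrix.fromBlocks_conjTranspose, Matrix.blockDiagonal_conjTranspose,
    Matrix.diagonal_conjTranspose, Matrix.conjTranspose_zero, Matrix.conjTranspose_zero]
  rfl

theorem det_blk (A : Matrix (Fin 2) (Fin 2) ℂ) (δ : ℂ) (hA : A.det = 1) (hδ : δ = 1) :
    (blk e A δ).det = 1 := by
  unfold blk
  rw [Matrix.det_reindex_self, Matrix.det_fromBlocks_zero₂₁, Matrix.det_blockDiagonal, hA, hδ,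
    Matrix.diagonal_one, Matrix.det_one, Finset.prod_const_one, one_mul]

/-- The diagonal entries. -/
def dg (x y δ : ℂ) : Fin d → ℂ :=
  Sum.elim (fun p : Fin 2 × Fin j => ![x, y] p.1) (fun _ : Fin m => δ) ∘ e.symm

theorem blk_diagonal (x y δ : ℂ) : blk e !![x, 0; 0, y] δ = Matrix.diagonal (dg e x y δ) := by
  unfold blk dg
  have h0 : (!![x, 0; 0, y] : Matrix (Fin 2) (Fin 2) ℂ) = Matrix.diagonal ![x, y] := by
    ext i i'
    fin_cases i <;> fin_cases i' <;> simp
  rw [h0, Matrix.blockDiagonal_diagonal, Matrix.fromBlocks_diagonal, Matrix.reindex_apply,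
    Matrix.submatrix_diagonal_equiv]

theorem continuous_blk {X : Type*} [TopologicalSpace X] {f : X → Matrix (Fin 2) (Fin 2) ℂ}
    (hf : Continuous f) (δ : ℂ) : Continuous fun x => blk e (f x) δ := by
  unfold blk
  refine Continuous.matrix_reindex (Continuous.matrix_fromBlocks (Continuous.matrix_blockDiagonal
    (continuous_pi fun _ => hf)) continuous_const continuous_const continuous_const) _ _

/-- The matrix of `g` with complex coefficients. -/
def cm (A : Matrix (Fin 2) (Fin 2) ℝ) : Matrix (Fin 2) (Fin 2) ℂ := A.map Complex.ofRealHom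

theorem cm_mul (A B : Matrix (Fin 2) (Fin 2) ℝ) : cm (A * B) = cm A * cm B := Matrix.map_mul

theorem cm_one : cm 1 = 1 := Matrix.map_one _ (map_zero _) (map_one _)

theorem cm_det (A : Matrix (Fin 2) (Fin 2) ℝ) : (cm A).det = A.det := by
  have := RingHom.map_det Complex.ofRealHom A
  exact this.symm

theorem cm_sl (g h : SL(2, ℝ)) : cm (g * h).1 = cm g.1 * cm h.1 := cm_mul _ _

theorem cm_mul_inv (g : SL(2, ℝ)) : cm g.1 * cm (g⁻¹).1 = 1 := by
  rw [← cm_sl, mul_inv_cancel]
  exact cm_one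

theorem cm_inv_mul (g : SL(2, ℝ)) : cm (g⁻¹).1 * cm g.1 = 1 := by
  rw [← cm_sl, inv_mul_cancel]
  exact cm_one

/-- The direct sum of `j` copies of the inclusion and of a trivial representation. -/
def sigma (Γ : Subgroup SL(2, ℝ)) : Rep Γ d :=
  ⟨fun g => ⟨blk e (cm g.1.1) 1, det_blk e _ _ (by
    rw [cm_det, g.1.2]
    exact Complex.ofReal_one) rfl⟩, fun x y => by
    apply Subtype.ext
    change blk e (cm (x.1 * y.1).1) 1 = blk e (cm x.1.1) 1 * blk e (cm y.1.1) 1
    rw [blk_mul, cm_sl, one_mul]⟩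

theorem sigma_val {Γ : Subgroup SL(2, ℝ)} (g : Γ) : ((sigma e Γ).1 g).1 = blk e (cm g.1.1) 1 := rfl

end Pool.Agent.Y473.SA
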