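import Mathlib

/-!
# The cone lemma for perturbations of dominated sequences of matrices
-/

set_option autoImplicit false

open scoped Matrix Matrix.Norms.Operator

namespace Pool.Agent.Y473.SA

variable {d : ℕ}

/-- One step of a dominated sequence `A` and of its perturbation `A'`. -/
structure Step (M m ε : ℝ) (P P' A A' : Matrix (Fin d) (Fin d) ℂ) : Prop where
  nP' : ‖P'‖ ≤ M
  idem : P * P = P
  comm : P' * A = A * P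
  dom : ∀ v w, P *ᵥ v = v → P *ᵥ w = 0 → ‖A *ᵥ w‖ * ‖v‖ ≤ 1 / 16 * (‖A *ᵥ v‖ * ‖w‖)
  low : ∀ v, m * ‖v‖ ≤ ‖A *ᵥ v‖
  near : ‖A' - A‖ ≤ ε
  mpos : 0 < m
  small : 2 * (1 + M) * ε ≤ m / 16

variable {M m ε : ℝ} {P P' A A' : Matrix (Fin d) (Fin d) ℂ}

/-- The basic estimates. -/
theorem Step.basic (h : Step M m ε P P' A A') (u : Fin d → ℂ) :
    ∃ v w E : Fin d → ℂ, v = P *ᵥ u ∧ w = u - P *ᵥ u ∧ P *ᵥ v = v ∧ P *ᵥ w = 0 ∧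
      P' *ᵥ (A' *ᵥ u) = A *ᵥ v + P' *ᵥ E ∧ A' *ᵥ u - P' *ᵥ (A' *ᵥ u) = A *ᵥ w + (E - P' *ᵥ E) ∧
      ‖E‖ ≤ ε * (‖v‖ + ‖w‖) ∧ ‖P' *ᵥ E‖ ≤ M * ‖E‖ := by
  have hv : P *ᵥ (P *ᵥ u) = P *ᵥ u := by rw [Matrix.mulVec_mulVec, h.idem]
  have hw : P *ᵥ (u - P *ᵥ u) = 0 := by rw [Matrix.mulVec_sub, hv, sub_self]
  have e0 : A' *ᵥ u = A *ᵥ (P *ᵥ u) + A *ᵥ (u - P *ᵥ u) + (A' - A) *ᵥ u := by
    rw [← Matrix.mulVec_add, Matrix.sub_mulVec]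
    have : P *ᵥ u + (u - P *ᵥ u) = u := by abel
    rw [this]
    abel
  have e1 : P' *ᵥ (A *ᵥ (P *ᵥ u)) = A *ᵥ (P *ᵥ u) := by
    rw [Matrix.mulVec_mulVec, h.comm, ← Matrix.mulVec_mulVec, hv]
  have e2 : P' *ᵥ (A *ᵥ (u - P *ᵥ u)) = 0 := by
    rw [Matrix.mulVec_mulVec, h.comm, ← Matrix.mulVec_mulVec, hw, Matrix.mulVec_zero]
  refine ⟨P *ᵥ u, u - P *ᵥ u, (A' - A) *ᵥ u, rfl, rfl, hv, hw, ?_, ?_, ?_, ?_⟩
  · rw [e0, Matrix.mulVec_add, Matrix.mulVec_add, e1, e2, add_zero]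
  · rw [e0, Matrix.mulVec_add, Matrix.mulVec_add, e1, e2, add_zero]
    abel
  · have e3 : ‖u‖ ≤ ‖P *ᵥ u‖ + ‖u - P *ᵥ u‖ := by
      have := norm_add_le (P *ᵥ u) (u - P *ᵥ u)
      have e4 : P *ᵥ u + (u - P *ᵥ u) = u := by abel
      rwa [e4] at this
    have hε : 0 ≤ ε := (norm_nonneg _).trans h.near
    calc ‖(A' - A) *ᵥ u‖ ≤ ‖A' - A‖ * ‖u‖ := Matrix.linfty_opNorm_mulVec _ _
      _ ≤ ε * (‖P *ᵥ u‖ + ‖u - P *ᵥ u‖) := mul_le_mul h.near e3 (norm_nonneg _) hε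
  · exact (Matrix.linfty_opNorm_mulVec _ _).trans
      (mul_le_mul_of_nonneg_right h.nP' (norm_nonneg _))

/-- The cone is mapped into a smaller cone. -/
theorem Step.forward (h : Step M m ε P P' A A') {u : Fin d → ℂ}
    (hu : ‖u - P *ᵥ u‖ ≤ ‖P *ᵥ u‖) :
    ‖A' *ᵥ u - P' *ᵥ (A' *ᵥ u)‖ ≤ 1 / 4 * ‖P' *ᵥ (A' *ᵥ u)‖ ∧
      1 / 2 * ‖A *ᵥ (P *ᵥ u)‖ ≤ ‖P' *ᵥ (A' *ᵥ u)‖ := by
  obtain ⟨v, w, E, rfl, rfl, hv, hw, e1, e2, hE, hPE⟩ := h.basic u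
  set v := P *ᵥ u
  set w := u - v
  set X := ‖A *ᵥ v‖
  have hM : 0 ≤ M := (norm_nonneg _).trans h.nP'
  have hε : 0 ≤ ε := (norm_nonneg _).trans h.near
  have hX : m * ‖v‖ ≤ X := h.low v
  have hX0 : 0 ≤ X := norm_nonneg _
  have hAw : ‖A *ᵥ w‖ ≤ 1 / 16 * X := by
    rcases (norm_nonneg v).eq_or_lt with h0 | h0
    · have h1 : ‖w‖ ≤ 0 := h0 ▸ hu
      have h2 : w = 0 := norm_le_zero_iff.1 h1
      rw [h2, Matrix.mulVec_zero, norm_zero]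
      positivity
    · have h3 := h.dom v w hv hw
      have h4 : ‖A *ᵥ w‖ * ‖v‖ ≤ (1 / 16 * X) * ‖v‖ := by
        refine h3.trans ?_
        have : X * ‖w‖ ≤ X * ‖v‖ := mul_le_mul_of_nonneg_left hu hX0
        linarith
      exact le_of_mul_le_mul_right h4 h0
  have hE2 : (1 + M) * ‖E‖ ≤ 1 / 16 * X := by
    have h5 : ε * (‖v‖ + ‖w‖) ≤ ε * (2 * ‖v‖) := mul_le_mul_of_nonneg_left (by linarith) hε
    have h6 : (1 + M) * ‖E‖ ≤ (1 + M) * (ε * (2 * ‖v‖)) :=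
      mul_le_mul_of_nonneg_left (hE.trans h5) (by linarith)
    have h7 := mul_le_mul_of_nonneg_right h.small (norm_nonneg v)
    linarith
  have hq : ‖A' *ᵥ u - P' *ᵥ (A' *ᵥ u)‖ ≤ 1 / 8 * X := by
    rw [e2]
    have h8 := norm_add_le (A *ᵥ w) (E - P' *ᵥ E)
    have h9 := norm_sub_le E (P' *ᵥ E)
    linarith
  have hp : 3 / 4 * X ≤ ‖P' *ᵥ (A' *ᵥ u)‖ := by
    rw [e1]
    have h8 : X ≤ ‖A *ᵥ v + P' *ᵥ E‖ + ‖P' *ᵥ E‖ := by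
      have := norm_sub_le (A *ᵥ v + P' *ᵥ E) (P' *ᵥ E)
      rwa [add_sub_cancel_right] at this
    have h9 : 0 ≤ ‖E‖ := norm_nonneg _
    linarith
  constructor <;> linarith

/-- The complementary cone is mapped into itself by the inverse. -/
theorem Step.backward (h : Step M m ε P P' A A') {y : Fin d → ℂ}
    (hy : ‖P' *ᵥ (A' *ᵥ y)‖ ≤ ‖A' *ᵥ y - P' *ᵥ (A' *ᵥ y)‖) : ‖P *ᵥ y‖ ≤ ‖y - P *ᵥ y‖ := by
  by_contra hcon
  have h0 := not_le.1 hcon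
  obtain ⟨h1, h2⟩ := h.forward h0.le
  have h3 := h.low (P *ᵥ y)
  have h4 : 0 < ‖P *ᵥ y‖ := (norm_nonneg _).trans_lt h0
  have h5 : 0 < m * ‖P *ᵥ y‖ := mul_pos h.mpos h4
  linarith

/-- The comparison of the growth in the two cones. -/
theorem Step.compare (h : Step M m ε P P' A A') {u y : Fin d → ℂ}
    (hu : ‖u - P *ᵥ u‖ ≤ ‖P *ᵥ u‖) (hy : ‖P *ᵥ y‖ ≤ ‖y - P *ᵥ y‖) :
    4 * (‖A' *ᵥ y - P' *ᵥ (A' *ᵥ y)‖ * ‖P *ᵥ u‖) ≤ ‖P' *ᵥ (A' *ᵥ u)‖ * ‖y - P *ᵥ y‖ := by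
  obtain ⟨-, h2⟩ := h.forward hu
  obtain ⟨v', w', E, rfl, rfl, hv', hw', -, e2, hE, hPE⟩ := h.basic y
  have hv : P *ᵥ (P *ᵥ u) = P *ᵥ u := by rw [Matrix.mulVec_mulVec, h.idem]
  set v := P *ᵥ u
  set v' := P *ᵥ y
  set w' := y - v'
  set X := ‖A *ᵥ v‖
  have hM : 0 ≤ M := (norm_nonneg _).trans h.nP'
  have hε : 0 ≤ ε := (norm_nonneg _).trans h.near
  have hX : m * ‖v‖ ≤ X := h.low v
  have hX0 : 0 ≤ X := norm_nonneg _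
  have hAw := h.dom v w' hv hw'
  have hE2 : (1 + M) * ‖E‖ ≤ m / 16 * ‖w'‖ := by
    have h5 : ε * (‖v'‖ + ‖w'‖) ≤ ε * (2 * ‖w'‖) := mul_le_mul_of_nonneg_left (by linarith) hε
    have h6 : (1 + M) * ‖E‖ ≤ (1 + M) * (ε * (2 * ‖w'‖)) :=
      mul_le_mul_of_nonneg_left (hE.trans h5) (by linarith)
    have h7 := mul_le_mul_of_nonneg_right h.small (norm_nonneg w')
    linarith
  have hq : ‖A' *ᵥ y - P' *ᵥ (A' *ᵥ y)‖ ≤ ‖A *ᵥ w'‖ + m / 16 * ‖w'‖ := by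
    rw [e2]
    have h8 := norm_add_le (A *ᵥ w') (E - P' *ᵥ E)
    have h9 := norm_sub_le E (P' *ᵥ E)
    linarith
  have h10 := mul_le_mul_of_nonneg_right hq (norm_nonneg v)
  have h11 : m / 16 * ‖w'‖ * ‖v‖ ≤ 1 / 16 * (X * ‖w'‖) := by
    have := mul_le_mul_of_nonneg_right hX (norm_nonneg w')
    linarith
  have h12 := mul_le_mul_of_nonneg_right h2 (norm_nonneg w')
  have h13 : 0 ≤ X * ‖w'‖ := by positivity
  linarith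

/-- The growth of the perturbed products. -/
theorem cone_growth {M m ε : ℝ} (P A A' B B' : ℕ → Matrix (Fin d) (Fin d) ℂ)
    (h : ∀ i, Step M m ε (P i) (P (i + 1)) (A i) (A' i)) (hP0 : ‖P 0‖ ≤ M) (hB0 : B 0 = 1)
    (hB : ∀ i, B (i + 1) = A' i * B i) (hinv : ∀ i, B i * B' i = 1)
    (hu : ∃ u, u ≠ 0 ∧ P 0 *ᵥ u = u) (hy : ∀ n, ∃ y, y ≠ 0 ∧ P n *ᵥ y = 0) (n : ℕ) :
    4 ^ n ≤ M * (1 + M) * (‖B n‖ * ‖B' n‖) := by
  obtain ⟨u, hu0, hPu⟩ := hu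
  obtain ⟨y, hy0, hPy⟩ := hy n
  have hinv' : ∀ i, B' i * B i = 1 := fun i => mul_eq_one_comm.1 (hinv i)
  have hBu : ∀ i, A' i *ᵥ (B i *ᵥ u) = B (i + 1) *ᵥ u := fun i => by
    rw [Matrix.mulVec_mulVec, hB]
  set z : ℕ → Fin d → ℂ := fun i => B i *ᵥ (B' n *ᵥ y) with hz
  have hBz : ∀ i, A' i *ᵥ z i = z (i + 1) := fun i => by
    rw [hz]
    simp only [Matrix.mulVec_mulVec, hB, Matrix.mul_assoc]
  have hzn : z n = y := by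
    rw [hz]
    simp only [Matrix.mulVec_mulVec, hinv, Matrix.one_mulVec]
  have hcu : ∀ i, ‖B i *ᵥ u - P i *ᵥ (B i *ᵥ u)‖ ≤ ‖P i *ᵥ (B i *ᵥ u)‖ := by
    intro i
    induction i with
    | zero =>
      rw [hB0, Matrix.one_mulVec, hPu, sub_self, norm_zero]
      exact norm_nonneg _
    | succ i ih =>
      have := ((h i).forward ih).1
      rw [hBu] at this
      refine this.trans ?_
      have h0 := norm_nonneg (P (i + 1) *ᵥ (B (i + 1) *ᵥ u))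
      linarith
  have hcz : ∀ j i, i + j = n → ‖P i *ᵥ z i‖ ≤ ‖z i - P i *ᵥ z i‖ := by
    intro j
    induction j with
    | zero =>
      intro i hi
      have : i = n := by omega
      subst this
      rw [hzn, hPy, norm_zero]
      exact norm_nonneg _
    | succ j ih =>
      intro i hi
      have := ih (i + 1) (by omega)
      rw [← hBz] at this
      exact (h i).backward this
  have hpos : ∀ i, 0 < ‖P i *ᵥ (B i *ᵥ u)‖ := by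
    intro i
    by_contra hcon
    have h0 : ‖P i *ᵥ (B i *ᵥ u)‖ = 0 := le_antisymm (not_lt.1 hcon) (norm_nonneg _)
    have h1 := hcu i
    rw [h0] at h1
    have h2 : B i *ᵥ u - P i *ᵥ (B i *ᵥ u) = 0 := norm_le_zero_iff.1 h1
    rw [norm_eq_zero.1 h0, sub_zero] at h2
    apply hu0
    have h3 := congrArg (fun x => B' i *ᵥ x) h2
    simpa only [Matrix.mulVec_mulVec, hinv', Matrix.one_mulVec, Matrix.mulVec_zero] using h3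
  have key : ∀ i, i ≤ n → 4 ^ i * (‖z i - P i *ᵥ z i‖ * ‖P 0 *ᵥ (B 0 *ᵥ u)‖) ≤
      ‖P i *ᵥ (B i *ᵥ u)‖ * ‖z 0 - P 0 *ᵥ z 0‖ := by
    intro i
    induction i with
    | zero =>
      intro _
      rw [pow_zero, one_mul, mul_comm]
    | succ i ih =>
      intro hi
      have h1 := ih (by omega)
      have h2 := (h i).compare (hcu i) (hcz (n - i) i (by omega))
      rw [hBu, hBz] at h2
      have h3 := hpos i
      set a := ‖z (i + 1) - P (i + 1) *ᵥ z (i + 1)‖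
      set b := ‖P i *ᵥ (B i *ᵥ u)‖
      set b' := ‖P (i + 1) *ᵥ (B (i + 1) *ᵥ u)‖
      set c := ‖z i - P i *ᵥ z i‖
      set e := ‖P 0 *ᵥ (B 0 *ᵥ u)‖
      set f := ‖z 0 - P 0 *ᵥ z 0‖
      have he : 0 ≤ e := norm_nonneg _
      have hb' : 0 ≤ b' := norm_nonneg _
      have h4 : (4 ^ (i + 1) * (a * e)) * b ≤ (b' * f) * b := by
        calc (4 ^ (i + 1) * (a * e)) * b = (4 ^ i * e) * (4 * (a * b)) := by ring
          _ ≤ (4 ^ i * e) * (b' * c) := mul_le_mul_of_nonneg_left h2 (by positivity)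
          _ = b' * (4 ^ i * (c * e)) := by ring
          _ ≤ b' * (b * f) := mul_le_mul_of_nonneg_left h1 hb'
          _ = (b' * f) * b := by ring
      exact le_of_mul_le_mul_right h4 h3
  have hfin := key n le_rfl
  rw [hzn, hPy, sub_zero, hB0, Matrix.one_mulVec, hPu] at hfin
  have hMn : ‖P n‖ ≤ M := by
    rcases n with _ | n
    · exact hP0
    · exact (h n).nP'
  have hM : 0 ≤ M := (norm_nonneg _).trans hP0
  have e1 : ‖P n *ᵥ (B n *ᵥ u)‖ ≤ M * (‖B n‖ * ‖u‖) :=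
    (Matrix.linfty_opNorm_mulVec _ _).trans
      (mul_le_mul hMn (Matrix.linfty_opNorm_mulVec _ _) (norm_nonneg _) hM)
  have hz0 : ‖z 0‖ ≤ ‖B' n‖ * ‖y‖ := by
    have : z 0 = B' n *ᵥ y := by
      rw [hz]
      simp only [hB0, Matrix.one_mulVec]
    rw [this]
    exact Matrix.linfty_opNorm_mulVec _ _
  have e2 : ‖z 0 - P 0 *ᵥ z 0‖ ≤ (1 + M) * (‖B' n‖ * ‖y‖) := by
    have e3 := norm_sub_le (z 0) (P 0 *ᵥ z 0)
    have e4 : ‖P 0 *ᵥ z 0‖ ≤ M * ‖z 0‖ :=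
      (Matrix.linfty_opNorm_mulVec _ _).trans (mul_le_mul_of_nonneg_right hP0 (norm_nonneg _))
    have e5 : (1 + M) * ‖z 0‖ ≤ (1 + M) * (‖B' n‖ * ‖y‖) :=
      mul_le_mul_of_nonneg_left hz0 (by linarith)
    linarith
  have hyu : 0 < ‖y‖ * ‖u‖ := mul_pos (norm_pos_iff.2 hy0) (norm_pos_iff.2 hu0)
  have hlast : 4 ^ n * (‖y‖ * ‖u‖) ≤ (M * (1 + M) * (‖B n‖ * ‖B' n‖)) * (‖y‖ * ‖u‖) := by
    calc 4 ^ n * (‖y‖ * ‖u‖) ≤ ‖P n *ᵥ (B n *ᵥ u)‖ * ‖z 0 - P 0 *ᵥ z 0‖ := hfin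
      _ ≤ (M * (‖B n‖ * ‖u‖)) * ((1 + M) * (‖B' n‖ * ‖y‖)) :=
        mul_le_mul e1 e2 (norm_nonneg _) (by positivity)
      _ = _ := by ring
  exact le_of_mul_le_mul_right hlast hyu

end Pool.Agent.Y473.SA
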