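import Pool.Agent.Y473.SA.Simple

/-!
# Automorphisms map simple elements to simple elements
-/

set_option autoImplicit false

open scoped MatrixGroups UpperHalfPlane Matrix
open UpperHalfPlane

namespace Pool.Agent.Y473.SA

variable {Γ : Subgroup SL(2, ℝ)}

theorem inv_axis {g : Γ} {c : UT} {l : ℝ} (h : act g c = flow l c) : act g⁻¹ c = flow (-l) c := by
  have := zpow_axis h (-1)
  simpa using this

theorem axis_unique' {g : Γ} {c₁ c₂ : UT} {l₁ l₂ : ℝ} (hl₂ : l₂ ≠ 0)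
    (h1 : act g c₁ = flow l₁ c₁) (h2 : act g c₂ = flow l₂ c₂) :
    (∃ τ, c₂ = flow τ c₁) ∨ (∃ τ, c₂ = flow τ (rev c₁)) := by
  rcases lt_or_gt_of_ne hl₂ with h | h
  · exact axis_unique (by linarith) (inv_axis h1) (inv_axis h2)
  · exact axis_unique h h1 h2

/-- A property of coarse separation: no coarse path from `γ₂ⁿ` to `γ₂⁻ⁿ` avoids a large
neighbourhood of the cyclic group generated by `γ₁`. -/
def Joined (L R : ℝ) (γ x y : Γ) : Prop :=
  Relation.ReflTransGen (fun p q : Γ => dist (p • I) (q • I) ≤ L ∧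
    (∀ m : ℤ, R ≤ dist (p • I) (γ ^ m • I)) ∧ ∀ m : ℤ, R ≤ dist (q • I) (γ ^ m • I)) x y

def Cross (γ₁ γ₂ : Γ) : Prop :=
  ∀ L : ℝ, ∃ R : ℝ, ∃ n₀ : ℕ, ∀ n ≥ n₀, ¬ Joined L R γ₁ (γ₂ ^ n) (γ₂ ^ n)⁻¹

/-- Automorphisms are coarse maps. -/
theorem IsClosedSurface.bornologous (hΓ : IsClosedSurface Γ) (φ : MulAut Γ) (L : ℝ) :
    ∃ L', ∀ x y : Γ, dist (x • I) (y • I) ≤ L → dist (φ x • I) (φ y • I) ≤ L' := by
  have hfin := hΓ.finite_disp 0 L
  obtain ⟨L', hL'⟩ := (hfin.image fun g => dist I (φ g • I)).bddAbove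
  refine ⟨L', fun x y hxy => ?_⟩
  have h1 : dist I ((x⁻¹ * y) • I) ≤ L := by
    rw [← dist_smul x, mul_smul, smul_inv_smul]
    exact hxy
  have h2 := hL' ⟨x⁻¹ * y, ⟨I, by simp, h1⟩, rfl⟩
  simp only [map_mul, map_inv] at h2
  rwa [← dist_smul (φ x), mul_smul, smul_inv_smul] at h2

theorem joined_aut (φ : MulAut Γ) {γ₁ : Γ} {L L' R R' : ℝ}
    (hL' : ∀ x y : Γ, dist (x • I) (y • I) ≤ L → dist (φ⁻¹ x • I) (φ⁻¹ y • I) ≤ L')
    (key : ∀ x : Γ, (∀ m : ℤ, R' ≤ dist (x • I) ((φ γ₁) ^ m • I)) →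
      ∀ m : ℤ, R ≤ dist (φ⁻¹ x • I) (γ₁ ^ m • I)) {x y : Γ} (h : Joined L R' (φ γ₁) x y) :
    Joined L' R γ₁ (φ⁻¹ x) (φ⁻¹ y) := by
  induction h with
  | refl => exact Relation.ReflTransGen.refl
  | tail _ hstep ih =>
    exact Relation.ReflTransGen.tail ih ⟨hL' _ _ hstep.1, key _ hstep.2.1, key _ hstep.2.2⟩

theorem IsClosedSurface.cross_aut (hΓ : IsClosedSurface Γ) (φ : MulAut Γ) {γ₁ γ₂ : Γ}
    (h : Cross γ₁ γ₂) : Cross (φ γ₁) (φ γ₂) := by
  intro L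
  obtain ⟨L', hL'⟩ := hΓ.bornologous φ⁻¹ L
  obtain ⟨R, n₀, hR⟩ := h L'
  obtain ⟨R', hR'⟩ := hΓ.bornologous φ R
  refine ⟨R' + 1, n₀, fun n hn hj => hR n hn ?_⟩
  have key : ∀ x : Γ, (∀ m : ℤ, R' + 1 ≤ dist (x • I) ((φ γ₁) ^ m • I)) →
      ∀ m : ℤ, R ≤ dist (φ⁻¹ x • I) (γ₁ ^ m • I) := by
    intro x hx m
    by_contra hlt
    push Not at hlt
    have h1 := hR' _ _ hlt.le
    rw [MulAut.apply_inv_self, map_zpow] at h1
    have := hx m
    linarith
  have h2 := joined_aut φ hL' key hj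
  rwa [map_inv, map_pow, MulAut.inv_apply_self] at h2

/-- A point far from the orbit of the cyclic group is far from the axis. -/
theorem far_of_avoid {g : Γ} {p : SL(2, ℝ)} {l : ℝ} (hl : 0 < l)
    (hg : act g (geod p) = flow l (geod p)) {w : ℍ} {L : ℝ} (h : |sd p w| ≤ L) :
    ∃ m : ℤ, dist w (g ^ m • I) ≤ L + l + dist ((geod p).1 0) I := by
  obtain ⟨r, hr⟩ := exists_near p w
  refine ⟨⌊r / l⌋, ?_⟩
  have h1 := Int.floor_le (r / l)
  have h2 := Int.lt_floor_add_one (r / l)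
  rw [le_div_iff₀ hl] at h1
  rw [div_lt_iff₀ hl] at h2
  set m := ⌊r / l⌋
  have e1 : (geod p).1 (m * l) = g ^ m • (geod p).1 0 := by
    rw [← act_apply, zpow_axis hg, flow_apply, zero_add]
  have h3 : dist ((geod p).1 r) ((geod p).1 (m * l)) ≤ l := by
    rw [line_dist, abs_of_nonneg (by linarith)]
    linarith
  have h4 : dist ((geod p).1 (m * l)) (g ^ m • I) = dist ((geod p).1 0) I := by
    rw [e1, dist_smul]
  have h5 := dist_triangle4 w ((geod p).1 r) ((geod p).1 (m * l)) (g ^ m • I)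
  linarith

theorem tendsto_pos {α β l : ℝ} (hα : 0 < α) (hl : 0 < l) (K : ℝ) :
    ∃ n₀ : ℕ, ∀ n ≥ n₀, K ≤ α * Real.exp (n * l) + β * Real.exp (-(n * l)) := by
  have h1 : Filter.Tendsto (fun n : ℕ => Real.exp ((n : ℝ) * l)) Filter.atTop Filter.atTop :=
    Real.tendsto_exp_atTop.comp (tendsto_natCast_atTop_atTop.atTop_mul_const hl)
  obtain ⟨n₀, hn₀⟩ := Filter.eventually_atTop.1 (h1.eventually_ge_atTop ((K + |β|) / α))
  refine ⟨n₀, fun n hn => ?_⟩
  have h2 := hn₀ n hn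
  rw [div_le_iff₀ hα] at h2
  have h4 : -|β| ≤ β * Real.exp (-(n * l)) := by
    have : Real.exp (-(n * l)) ≤ 1 := by
      rw [Real.exp_le_one_iff]
      have : 0 ≤ (n : ℝ) * l := by positivity
      linarith
    have h6 := Real.exp_pos (-(n * l))
    have h7 := neg_abs_le β
    nlinarith [abs_nonneg β]
  linarith

/-- If the axis of `γ₂` crosses the axis of `γ₁`, then `Cross γ₁ γ₂`. -/
theorem cross_of_mul_neg {γ₁ γ₂ : Γ} {p q : SL(2, ℝ)} {l₁ l₂ : ℝ} (hl₁ : 0 < l₁) (hl₂ : 0 < l₂)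
    (h1 : act γ₁ (geod p) = flow l₁ (geod p)) (h2 : act γ₂ (geod q) = flow l₂ (geod q)) {α β : ℝ}
    (hab : ∀ t, Real.sinh (sd p ((geod q).1 t)) = α * Real.exp t + β * Real.exp (-t))
    (hneg : α * β < 0) : Cross γ₁ γ₂ := by
  intro L
  set D₁ := dist ((geod p).1 0) I with hD₁
  set K := dist ((geod q).1 0) I with hK
  obtain ⟨σ, hσ, hσα, hσβ⟩ : ∃ σ : ℝ, (σ = 1 ∨ σ = -1) ∧ 0 < σ * α ∧ 0 < -(σ * β) := by
    rcases lt_trichotomy α 0 with h | h | h
    · exact ⟨-1, Or.inr rfl, by linarith, by nlinarith⟩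
    · rw [h] at hneg; simp at hneg
    · exact ⟨1, Or.inl rfl, by linarith, by nlinarith⟩
  have hσabs : |σ| = 1 := by rcases hσ with h | h <;> rw [h] <;> simp
  have hsinh : ∀ x, Real.sinh (σ * x) = σ * Real.sinh x := by
    intro x
    rcases hσ with h | h
    · rw [h]; simp
    · rw [h]; simp
  obtain ⟨n₁, hn₁⟩ := tendsto_pos (β := σ * β) hσα hl₂ (Real.sinh (K + 1))
  obtain ⟨n₂, hn₂⟩ := tendsto_pos (β := -(σ * α)) hσβ hl₂ (Real.sinh (K + 1))
  refine ⟨|L| + l₁ + D₁ + 1, max n₁ n₂, fun n hn hj => ?_⟩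
  have hfar : ∀ x : Γ, (∀ m : ℤ, |L| + l₁ + D₁ + 1 ≤ dist (x • I) (γ₁ ^ m • I)) →
      |L| < |sd p (x • I)| := by
    intro x hx
    by_contra hcon
    push Not at hcon
    obtain ⟨m, hm⟩ := far_of_avoid hl₁ h1 hcon
    have := hx m
    linarith
  have hstart : 0 < σ * sd p (γ₂ ^ n • I) := by
    have h3 := hn₁ n ((le_max_left _ _).trans hn)
    have h4 : Real.sinh (K + 1) ≤ Real.sinh (σ * sd p ((geod q).1 (n * l₂))) := by
      rw [hsinh, hab]
      linarith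
    rw [Real.sinh_le_sinh] at h4
    have e1 : (geod q).1 (n * l₂) = γ₂ ^ n • (geod q).1 0 := by
      have := zpow_axis h2 n
      rw [zpow_natCast] at this
      rw [← act_apply, this, flow_apply, zero_add]
      simp
    have h5 := sd_lip p ((geod q).1 (n * l₂)) (γ₂ ^ n • I)
    nth_rewrite 2 [e1] at h5
    rw [dist_smul, ← hK] at h5
    have h6 : |σ * sd p ((geod q).1 (n * l₂)) - σ * sd p (γ₂ ^ n • I)| ≤ K := by
      rw [← mul_sub, abs_mul, hσabs, one_mul]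
      exact h5
    have h7 := (abs_le.1 h6).2
    linarith
  have hend : σ * sd p ((γ₂ ^ n)⁻¹ • I) < 0 := by
    have h3 := hn₂ n ((le_max_right _ _).trans hn)
    have h4 : Real.sinh (K + 1) ≤ Real.sinh (-(σ * sd p ((geod q).1 (-(n * l₂))))) := by
      rw [Real.sinh_neg, hsinh, hab]
      rw [neg_neg]
      linarith
    rw [Real.sinh_le_sinh] at h4
    have e1 : (geod q).1 (-(n * l₂)) = (γ₂ ^ n)⁻¹ • (geod q).1 0 := by
      have := zpow_axis h2 (-n)
      rw [zpow_neg, zpow_natCast] at this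
      rw [← act_apply, this, flow_apply, zero_add]
      simp
    have h5 := sd_lip p ((geod q).1 (-(n * l₂))) ((γ₂ ^ n)⁻¹ • I)
    nth_rewrite 2 [e1] at h5
    rw [dist_smul, ← hK] at h5
    have h6 : |σ * sd p ((geod q).1 (-(n * l₂))) - σ * sd p ((γ₂ ^ n)⁻¹ • I)| ≤ K := by
      rw [← mul_sub, abs_mul, hσabs, one_mul]
      exact h5
    have h7 := (abs_le.1 h6).1
    linarith
  have hchain : ∀ y, Joined L (|L| + l₁ + D₁ + 1) γ₁ (γ₂ ^ n) y → 0 < σ * sd p (y • I) := by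
    intro y hy
    induction hy with
    | refl => exact hstart
    | tail _ hstep ih =>
      obtain ⟨hd, ha, hb⟩ := hstep
      rename_i b c _
      have h3 := hfar _ ha
      have h5 := (sd_lip p (b • I) (c • I)).trans hd
      have h6 : |σ * sd p (b • I) - σ * sd p (c • I)| ≤ L := by
        rw [← mul_sub, abs_mul, hσabs, one_mul]
        exact h5
      have h7 : |sd p (b • I)| = |σ * sd p (b • I)| := by rw [abs_mul, hσabs, one_mul]
      rw [h7, abs_of_pos ih] at h3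
      have h8 := (abs_le.1 h6).2
      have h9 := le_abs_self L
      linarith
  have := hchain _ hj
  linarith

end Pool.Agent.Y473.SA
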