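import Pool.Agent.Y473.SA.Cross

/-!
# Automorphisms map simple elements to simple elements, second part
-/

set_option autoImplicit false

open scoped MatrixGroups UpperHalfPlane Matrix
open UpperHalfPlane

namespace Pool.Agent.Y473.SA

variable {Γ : Subgroup SL(2, ℝ)}

/-- The points at signed distance at least `s` form a chain connected set. -/
theorem exists_chain (p : SL(2, ℝ)) {σ S : ℝ} (w₀ w₁ : ℍ)
    (h0 : S ≤ σ * Real.sinh (sd p w₀)) (h1 : S ≤ σ * Real.sinh (sd p w₁)) :
    ∃ (N : ℕ) (W : ℕ → ℍ), W 0 = w₀ ∧ W N = w₁ ∧ (∀ k, k ≤ N → S ≤ σ * Real.sinh (sd p (W k))) ∧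
      ∀ k, k < N → dist (W k) (W (k + 1)) ≤ 1 := by
  set z₀ := p⁻¹ • w₀ with hz₀
  set z₁ := p⁻¹ • w₁ with hz₁
  -- the Euclidean segment
  have him : ∀ t : unitInterval, 0 < ((1 - (t : ℝ) : ℂ) * (z₀ : ℂ) + ((t : ℝ) : ℂ) * (z₁ : ℂ)).im := by
    intro t
    have e : ((1 - (t : ℝ) : ℂ) * (z₀ : ℂ) + ((t : ℝ) : ℂ) * (z₁ : ℂ)).im =
        (1 - (t : ℝ)) * z₀.im + (t : ℝ) * z₁.im := by
      rw [← Complex.ofReal_one, ← Complex.ofReal_sub, Complex.add_im, Complex.im_ofReal_mul, Complex.im_ofReal_mul]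
      rfl
    rw [e]
    have h2 := z₀.im_pos
    have h3 := z₁.im_pos
    have h4 := t.2.1
    have h5 := t.2.2
    rcases h5.lt_or_eq with h | h
    · have : 0 < (1 - (t : ℝ)) * z₀.im := mul_pos (by linarith) h2
      have : 0 ≤ (t : ℝ) * z₁.im := mul_nonneg h4 h3.le
      linarith
    · rw [h]; simpa using h3
  let Z : unitInterval → ℍ := fun t => ⟨_, him t⟩
  have hZcont : Continuous Z := by
    rw [UpperHalfPlane.isEmbedding_coe.continuous_iff]
    change Continuous fun t : unitInterval => (1 - (t : ℝ) : ℂ) * (z₀ : ℂ) + ((t : ℝ) : ℂ) * (z₁ : ℂ)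
    fun_prop
  have hZre : ∀ t, (Z t).re = (1 - (t : ℝ)) * z₀.re + (t : ℝ) * z₁.re := by
    intro t
    change ((1 - (t : ℝ) : ℂ) * (z₀ : ℂ) + ((t : ℝ) : ℂ) * (z₁ : ℂ)).re = _
    rw [← Complex.ofReal_one, ← Complex.ofReal_sub, Complex.add_re, Complex.re_ofReal_mul, Complex.re_ofReal_mul]
    rfl
  have hZim : ∀ t, (Z t).im = (1 - (t : ℝ)) * z₀.im + (t : ℝ) * z₁.im := by
    intro t
    change ((1 - (t : ℝ) : ℂ) * (z₀ : ℂ) + ((t : ℝ) : ℂ) * (z₁ : ℂ)).im = _
    rw [← Complex.ofReal_one, ← Complex.ofReal_sub, Complex.add_im, Complex.im_ofReal_mul, Complex.im_ofReal_mul]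
    rfl
  have hsinh : ∀ w : ℍ, Real.sinh (sd p w) = (p⁻¹ • w).re / (p⁻¹ • w).im := fun w => sinh_sv _
  have hmem : ∀ t, S ≤ σ * Real.sinh (sd p (p • Z t)) := by
    intro t
    rw [hsinh] at h0 h1 ⊢
    rw [inv_smul_smul]
    have h2 := z₀.im_pos
    have h3 := z₁.im_pos
    have h4 := (Z t).im_pos
    rw [← mul_div_assoc, le_div_iff₀ h2] at h0
    rw [← mul_div_assoc, le_div_iff₀ h3] at h1
    rw [← mul_div_assoc, le_div_iff₀ h4, hZre, hZim]
    have h5 := mul_le_mul_of_nonneg_left h0 (by linarith [t.2.2] : (0 : ℝ) ≤ 1 - (t : ℝ))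
    have h6 := mul_le_mul_of_nonneg_left h1 t.2.1
    rw [← hz₀] at h5
    rw [← hz₁] at h6
    linarith
  -- uniform continuity
  have huc : UniformContinuous Z := CompactSpace.uniformContinuous_of_continuous hZcont
  obtain ⟨δ, hδ, hδ'⟩ := Metric.uniformContinuous_iff.1 huc 1 one_pos
  obtain ⟨N, hN⟩ := exists_nat_gt (1 / δ)
  have hNpos : 0 < N := by
    by_contra h
    have : N = 0 := by omega
    rw [this, Nat.cast_zero] at hN
    have : 0 < 1 / δ := by positivity
    linarith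
  have hNR : (0 : ℝ) < N := by exact_mod_cast hNpos
  let τ : ℕ → unitInterval := fun k => Set.projIcc 0 1 zero_le_one ((k : ℝ) / N)
  have hτ : ∀ k, k ≤ N → ((τ k : unitInterval) : ℝ) = (k : ℝ) / N := by
    intro k hk
    have : (k : ℝ) / N ∈ Set.Icc (0 : ℝ) 1 := by
      constructor
      · positivity
      · rw [div_le_one hNR]; exact_mod_cast hk
    exact congrArg Subtype.val (Set.projIcc_of_mem zero_le_one this)
  refine ⟨N, fun k => p • Z (τ k), ?_, ?_, fun k _ => hmem _, ?_⟩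
  · have e : Z (τ 0) = z₀ := by
      apply UpperHalfPlane.ext_re_im
      · rw [hZre, hτ 0 (by omega)]; simp
      · rw [hZim, hτ 0 (by omega)]; simp
    change p • Z (τ 0) = w₀
    rw [e, hz₀, smul_inv_smul]
  · have e : Z (τ N) = z₁ := by
      apply UpperHalfPlane.ext_re_im
      · rw [hZre, hτ N le_rfl, div_self hNR.ne']; simp
      · rw [hZim, hτ N le_rfl, div_self hNR.ne']; simp
    change p • Z (τ N) = w₁
    rw [e, hz₁, smul_inv_smul]
  · intro k hk
    change dist (p • Z (τ k)) (p • Z (τ (k + 1))) ≤ 1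
    rw [dist_smul]
    apply (hδ' _).le
    rw [Subtype.dist_eq, hτ k hk.le, hτ (k + 1) hk, Real.dist_eq, ← sub_div]
    push_cast
    rw [show (k : ℝ) - (k + 1) = -1 by ring, abs_div, abs_neg, abs_one, abs_of_pos hNR]
    rw [div_lt_iff₀ hδ] at hN
    rw [div_lt_iff₀ hNR]
    linarith

/-- If the axis of `γ₂` stays on one side of the axis of `γ₁`, then `Cross γ₁ γ₂` fails. -/
theorem IsClosedSurface.not_cross_of_mul_pos (hΓ : IsClosedSurface Γ) {γ₁ γ₂ : Γ} {p q : SL(2, ℝ)}
    {l₁ l₂ : ℝ} (hl₂ : 0 < l₂)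
    (h1 : act γ₁ (geod p) = flow l₁ (geod p)) (h2 : act γ₂ (geod q) = flow l₂ (geod q)) {α β : ℝ}
    (hab : ∀ t, Real.sinh (sd p ((geod q).1 t)) = α * Real.exp t + β * Real.exp (-t))
    (hpos : 0 < α * β) : ¬ Cross γ₁ γ₂ := by
  intro hcross
  obtain ⟨r, hr0, hr⟩ := hΓ.exists_radius
  choose f' hf' using hr
  -- an element near every point
  set f : ℍ → Γ := fun z => (f' z)⁻¹ with hf
  have hfd : ∀ z, dist (f z • I) z ≤ r := by
    intro z
    rw [hf, ← dist_smul (f' z), smul_inv_smul]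
    exact hf' z
  set D₁ := dist ((geod p).1 0) I with hD₁
  set K := dist ((geod q).1 0) I with hK
  have hK0 : 0 ≤ K := dist_nonneg
  obtain ⟨σ, hσ, hσα, hσβ⟩ : ∃ σ : ℝ, (σ = 1 ∨ σ = -1) ∧ 0 < σ * α ∧ 0 < σ * β := by
    rcases lt_trichotomy α 0 with h | h | h
    · exact ⟨-1, Or.inr rfl, by linarith, by nlinarith⟩
    · rw [h] at hpos; simp at hpos
    · exact ⟨1, Or.inl rfl, by linarith, by nlinarith⟩
  have hσabs : |σ| = 1 := by rcases hσ with h | h <;> rw [h] <;> simp
  obtain ⟨R, n₀, hR⟩ := hcross (2 * (r + K) + 1)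
  set s := R + r + K + D₁ with hs
  -- an element near a point of large signed distance avoids the cyclic group
  have havoid : ∀ (x : Γ) (w : ℍ), dist (x • I) w ≤ r + K →
      Real.sinh s ≤ σ * Real.sinh (sd p w) → ∀ m : ℤ, R ≤ dist (x • I) (γ₁ ^ m • I) := by
    intro x w hx hw m
    have h3 : s ≤ |sd p w| := by
      have h4 : Real.sinh s ≤ Real.sinh (|sd p w|) := by
        refine hw.trans ?_
        have h5 : σ * Real.sinh (sd p w) ≤ |Real.sinh (sd p w)| := by
          have := le_abs_self (σ * Real.sinh (sd p w))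
          rwa [abs_mul, hσabs, one_mul] at this
        refine h5.trans ?_
        rw [Real.abs_sinh]
      exact Real.sinh_le_sinh.1 h4
    have e2 : (geod p).1 (m * l₁) = γ₁ ^ m • (geod p).1 0 := by
      rw [← act_apply, zpow_axis h1, flow_apply, zero_add]
    have h4 := abs_sd_le p w (m * l₁)
    have h5 : dist ((geod p).1 (m * l₁)) (γ₁ ^ m • I) = D₁ := by rw [e2, dist_smul]
    have h6 := dist_triangle4 w (x • I) (γ₁ ^ m • I) ((geod p).1 (m * l₁))
    rw [dist_comm w (x • I), dist_comm (γ₁ ^ m • I) ((geod p).1 (m * l₁)), h5] at h6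
    linarith
  obtain ⟨n₁, hn₁⟩ := tendsto_pos (β := σ * β) hσα hl₂ (Real.sinh s)
  obtain ⟨n₂, hn₂⟩ := tendsto_pos (β := σ * α) hσβ hl₂ (Real.sinh s)
  set n := max n₀ (max n₁ n₂) with hn
  have hn0 : n₀ ≤ n := le_max_left _ _
  have hn1 : n₁ ≤ n := (le_max_left _ _).trans (le_max_right _ _)
  have hn2 : n₂ ≤ n := (le_max_right _ _).trans (le_max_right _ _)
  have hw0 : Real.sinh s ≤ σ * Real.sinh (sd p ((geod q).1 (n * l₂))) := by
    rw [hab]
    have := hn₁ n hn1
    linarith
  have hw1 : Real.sinh s ≤ σ * Real.sinh (sd p ((geod q).1 (-(n * l₂)))) := by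
    rw [hab, neg_neg]
    have := hn₂ n hn2
    linarith
  obtain ⟨N, W, hW0, hWN, hW, hWd⟩ := exists_chain p _ _ hw0 hw1
  have e1 : (geod q).1 (n * l₂) = γ₂ ^ n • (geod q).1 0 := by
    have := zpow_axis h2 n
    rw [zpow_natCast] at this
    rw [← act_apply, this, flow_apply, zero_add]
    simp
  have e2 : (geod q).1 (-(n * l₂)) = (γ₂ ^ n)⁻¹ • (geod q).1 0 := by
    have := zpow_axis h2 (-n)
    rw [zpow_neg, zpow_natCast] at this
    rw [← act_apply, this, flow_apply, zero_add]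
    simp
  have hd0 : dist (γ₂ ^ n • I) ((geod q).1 (n * l₂)) ≤ r + K := by
    rw [e1, dist_smul, dist_comm]
    linarith
  have hd1 : dist ((γ₂ ^ n)⁻¹ • I) ((geod q).1 (-(n * l₂))) ≤ r + K := by
    rw [e2, dist_smul, dist_comm]
    linarith
  have hfd' : ∀ z, dist (f z • I) z ≤ r + K := fun z => (hfd z).trans (by linarith)
  apply hR n hn0
  -- the chain
  have hsteps : ∀ k, k ≤ N → Joined (2 * (r + K) + 1) R γ₁ (γ₂ ^ n) (f (W k)) := by
    intro k
    induction k with
    | zero =>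
      intro _
      apply Relation.ReflTransGen.single
      refine ⟨?_, havoid _ _ hd0 hw0, havoid _ _ (hfd' _) (hW 0 (by omega))⟩
      have h3 := dist_triangle_right (γ₂ ^ n • I) (f (W 0) • I) (W 0)
      have h4 := hfd' (W 0)
      rw [hW0] at h3 h4 ⊢
      linarith
    | succ k ih =>
      intro hk
      refine Relation.ReflTransGen.tail (ih (by omega))
        ⟨?_, havoid _ _ (hfd' _) (hW k (by omega)), havoid _ _ (hfd' _) (hW (k + 1) hk)⟩
      have h3 := dist_triangle4 (f (W k) • I) (W k) (W (k + 1)) (f (W (k + 1)) • I)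
      have h4 := hfd' (W k)
      have h5 := hfd' (W (k + 1))
      rw [dist_comm] at h5
      have h6 := hWd k (by omega)
      linarith
  refine Relation.ReflTransGen.tail (hsteps N le_rfl)
    ⟨?_, havoid _ _ (hfd' _) (hW N le_rfl), havoid _ _ hd1 hw1⟩
  have h3 := dist_triangle_right (f (W N) • I) ((γ₂ ^ n)⁻¹ • I) (W N)
  have h4 := hfd' (W N)
  rw [hWN] at h3 h4 ⊢
  linarith

/-- A translate of an axis which stays close to the axis at one end coincides with it. -/
theorem IsClosedSurface.asym (hΓ : IsClosedSurface Γ) {g δ : Γ} {p : SL(2, ℝ)} {l M : ℝ}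
    (hl : l ≠ 0) (hg : act g (geod p) = flow l (geod p))
    (h : ∀ k : ℕ, |sd p (δ • (geod p).1 (k * l))| ≤ M) :
    (∃ τ, act δ (geod p) = flow τ (geod p)) ∨ (∃ τ, act δ (geod p) = flow τ (rev (geod p))) := by
  -- the nearby points of the orbit
  have key : ∀ k : ℕ, ∃ m : ℤ, dist ((geod p).1 0) ((g ^ m * δ * g ^ k) • (geod p).1 0) ≤ M + |l| := by
    intro k
    obtain ⟨r, hr⟩ := exists_near p (δ • (geod p).1 (k * l))
    have e1 : (geod p).1 (k * l) = g ^ k • (geod p).1 0 := by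
      have := zpow_axis hg k
      rw [zpow_natCast] at this
      rw [← act_apply, this, flow_apply, zero_add]
      simp
    -- the integer
    obtain ⟨m, hm⟩ : ∃ m : ℤ, |r - m * l| ≤ |l| := by
      refine ⟨⌊r / l⌋, ?_⟩
      have h1 := Int.floor_le (r / l)
      have h2 := Int.lt_floor_add_one (r / l)
      have h3 : r - ⌊r / l⌋ * l = (r / l - ⌊r / l⌋) * l := by field_simp
      rw [h3, abs_mul]
      have h4 : |r / l - ⌊r / l⌋| ≤ 1 := by rw [abs_le]; constructor <;> linarith
      nlinarith [abs_nonneg l]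
    refine ⟨-m, ?_⟩
    have e2 : (geod p).1 (m * l) = g ^ m • (geod p).1 0 := by
      rw [← act_apply, zpow_axis hg, flow_apply, zero_add]
    have h5 : dist ((geod p).1 0) ((g ^ (-m) * δ * g ^ k) • (geod p).1 0) =
        dist ((geod p).1 (m * l)) (δ • (geod p).1 (k * l)) := by
      rw [e1, e2, ← dist_smul (g ^ (m : ℤ)) ((geod p).1 0) ((g ^ (-m) * δ * g ^ k) • (geod p).1 0)]
      congr 1
      rw [← mul_smul, ← mul_smul]
      congr 1
      group
    rw [h5]
    have h6 := dist_triangle ((geod p).1 (m * l)) ((geod p).1 r) (δ • (geod p).1 (k * l))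
    rw [dist_comm ((geod p).1 r), hr, line_dist, abs_sub_comm] at h6
    have := h k
    linarith
  choose m hm using key
  -- pigeonhole
  have hfin := hΓ.finite_disp (dist I ((geod p).1 0)) (M + |l|)
  obtain ⟨j, k, hjk, he⟩ : ∃ j k : ℕ, j < k ∧ g ^ m j * δ * g ^ j = g ^ m k * δ * g ^ k := by
    have hmaps : Set.MapsTo (fun k : ℕ => g ^ m k * δ * g ^ k) Set.univ
        {g : Γ | ∃ z, dist I z ≤ dist I ((geod p).1 0) ∧ dist z (g • z) ≤ M + |l|} :=
      fun k _ => ⟨_, le_rfl, hm k⟩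
    obtain ⟨j, -, k, -, hne, he⟩ := Set.infinite_univ.exists_ne_map_eq_of_mapsTo hmaps hfin
    rcases lt_or_gt_of_ne hne with h | h
    · exact ⟨j, k, h, he⟩
    · exact ⟨k, j, h, he.symm⟩
  set i : ℤ := m j - m k with hi
  have h3 : δ * g ^ (k - j) * δ⁻¹ = g ^ i := by
    have e1 : g ^ k = g ^ (k - j) * g ^ j := by rw [← pow_add]; congr 1; omega
    rw [e1] at he
    have e2 : g ^ m j * δ = g ^ m k * δ * g ^ (k - j) := by
      have := congrArg (· * (g ^ j)⁻¹) he
      simpa [mul_assoc] using this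
    have e3 : g ^ i = (g ^ m k)⁻¹ * (g ^ m j * δ) * δ⁻¹ := by
      rw [hi, sub_eq_neg_add, zpow_add, zpow_neg]
      group
    rw [e3, e2]
    group
  have h4 : act (g ^ i) (act δ (geod p)) = flow (((k - j : ℕ) : ℝ) * l) (act δ (geod p)) := by
    rw [← h3, act_act, inv_mul_cancel_right, ← act_act]
    have := zpow_axis hg ((k - j : ℕ) : ℤ)
    rw [zpow_natCast] at this
    rw [this, act_flow]
    simp
  have h5 : (((k - j : ℕ) : ℝ) * l) ≠ 0 := by
    apply mul_ne_zero _ hl
    have : 0 < k - j := by omega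
    exact_mod_cast this.ne'
  exact axis_unique' h5 (zpow_axis hg i) h4

/-- Automorphisms map simple elements to simple elements. -/
theorem IsClosedSurface.simple_aut (hΓ : IsClosedSurface Γ) (φ : MulAut Γ) {g : Γ}
    (hg : IsSimpleElt g) : IsSimpleElt (φ g) := by
  obtain ⟨c, l, ⟨hl, -, hc3⟩, hgc⟩ := hg
  have hgne : g ≠ 1 := by
    rintro rfl
    rw [act_one] at hgc
    have := congrArg (fun c : UT => c.1 0) hgc
    simp only [flow_apply, zero_add] at this
    exact hl.ne (c.2.injective this)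
  have hg'ne : φ g ≠ 1 := by
    intro h
    exact hgne ((map_eq_one_iff φ φ.injective).1 h)
  obtain ⟨c', l', hl', hc'⟩ := hΓ.exists_axis hg'ne
  refine ⟨c', l', ⟨hl', ⟨_, hc'⟩, ?_⟩, hc'⟩
  intro δ' s t hst
  by_cases hcase : ∃ n : ℤ, δ' = φ g ^ n
  · obtain ⟨n, rfl⟩ := hcase
    rw [← act_apply, zpow_axis hc', flow_apply] at hst
    exact ⟨n, (c'.2.injective hst).symm⟩
  exfalso
  set δ := φ⁻¹ δ' with hδ
  have hφδ : φ δ = δ' := by rw [hδ, MulAut.apply_inv_self]
  have hδn : ∀ n : ℤ, δ ≠ g ^ n := by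
    intro n hn
    apply hcase
    exact ⟨n, by rw [← hφδ, hn, map_zpow]⟩
  -- the translate is disjoint from the axis
  have hdisj : ∀ a b, δ • c.1 a ≠ c.1 b := by
    intro a b hab
    obtain ⟨n, hn⟩ := hc3 δ a b hab
    apply hδn n
    apply hΓ.eq_of_smul_eq (z := c.1 a)
    rw [hab, hn, ← act_apply, zpow_axis hgc, flow_apply]
  have hnotpar : ¬ ((∃ τ, act δ c = flow τ c) ∨ (∃ τ, act δ c = flow τ (rev c))) := by
    rintro (⟨τ, h⟩ | ⟨τ, h⟩)
    · have := congrArg (fun c : UT => c.1 0) h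
      simp only [act_apply, flow_apply] at this
      exact hdisj _ _ this
    · have := congrArg (fun c : UT => c.1 0) h
      simp only [act_apply, flow_apply, rev_apply] at this
      exact hdisj _ _ this
  obtain ⟨p, rfl⟩ := exists_geod c
  obtain ⟨q, hq⟩ := exists_geod (act δ (geod p))
  obtain ⟨α, β, hab⟩ := sinh_sd_geod p q
  have hδt : ∀ t, δ • (geod p).1 t = (geod q).1 t := fun t => by rw [← act_apply, hq]
  have hbound : ∀ (A : ℝ) (x : ℝ), |x| ≤ 1 → ∀ y, Real.sinh y = A * x → |y| ≤ Real.arsinh |A| := by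
    intro A x hx y hy
    rw [← Real.sinh_le_sinh, Real.sinh_arsinh, ← Real.abs_sinh, hy, abs_mul]
    nlinarith [abs_nonneg A]
  have hexp : ∀ k : ℕ, |Real.exp (-(k * l))| ≤ 1 := by
    intro k
    rw [abs_of_pos (Real.exp_pos _), Real.exp_le_one_iff]
    have : 0 ≤ (k : ℝ) * l := by positivity
    linarith
  have hα : α ≠ 0 := by
    intro hα
    apply hnotpar
    apply hΓ.asym (M := Real.arsinh |β|) hl.ne' hgc
    intro k
    rw [hδt]
    apply hbound β _ (hexp k)
    rw [hab, hα]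
    ring
  have hβ : β ≠ 0 := by
    intro hβ
    apply hnotpar
    apply hΓ.asym (g := g⁻¹) (l := -l) (M := Real.arsinh |α|) (by linarith [hl] : -l < 0).ne (inv_axis hgc)
    intro k
    rw [hδt]
    apply hbound α _ (hexp k)
    rw [hab, hβ]
    ring_nf
  have hpos : 0 < α * β := by
    rcases lt_or_gt_of_ne (mul_ne_zero hα hβ) with h | h
    · exfalso
      -- the lines meet
      have hquot : 0 < -β / α := by
        have : -β / α = -(α * β) / α ^ 2 := by field_simp
        rw [this]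
        apply div_pos (by linarith) (by positivity)
      set t₀ := Real.log (-β / α) / 2 with ht₀
      have h3 : Real.exp t₀ * Real.exp t₀ = -β / α := by
        rw [← Real.exp_add, ht₀, add_halves, Real.exp_log hquot]
      have h4 : α * Real.exp t₀ + β * Real.exp (-t₀) = 0 := by
        rw [Real.exp_neg]
        have := Real.exp_pos t₀
        field_simp
        field_simp at h3
        linarith
      have h5 := hab t₀
      rw [h4, Real.sinh_eq_zero] at h5
      obtain ⟨r, hr⟩ := exists_near p ((geod q).1 t₀)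
      rw [h5, abs_zero] at hr
      have := dist_eq_zero.1 hr
      rw [← hδt] at this
      exact hdisj _ _ this
    · exact h
  set g₂ := δ * g * δ⁻¹ with hg₂
  have hg₂q : act g₂ (geod q) = flow l (geod q) := by
    rw [← hq, act_act, hg₂, inv_mul_cancel_right, ← act_act, hgc, act_flow]
  have hnc : ¬ Cross g g₂ := hΓ.not_cross_of_mul_pos hl hgc hg₂q hab hpos
  have hnc' : ¬ Cross (φ g) (φ g₂) := by
    intro h
    have := hΓ.cross_aut φ⁻¹ h
    rw [MulAut.inv_apply_self, MulAut.inv_apply_self] at this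
    exact hnc this
  -- the second pair
  obtain ⟨p', rfl⟩ := exists_geod c'
  obtain ⟨q', hq'⟩ := exists_geod (act δ' (geod p'))
  obtain ⟨α', β', hab'⟩ := sinh_sd_geod p' q'
  have hφg₂ : act (φ g₂) (geod q') = flow l' (geod q') := by
    rw [← hq', act_act, hg₂, map_mul, map_mul, map_inv, hφδ, inv_mul_cancel_right, ← act_act, hc',
      act_flow]
  have h6 : α' * Real.exp s + β' * Real.exp (-s) = 0 := by
    rw [← hab', ← hq', act_apply, hst, sd_geod, Real.sinh_zero]
  have h7 : ¬ α' * β' < 0 := fun h => hnc' (cross_of_mul_neg hl' hl' hc' hφg₂ hab' h)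
  have h8 : α' = 0 ∧ β' = 0 := by
    have e1 := Real.exp_pos s
    have h9 : α' = -(β' * Real.exp (-s) * Real.exp (-s)) := by
      rw [Real.exp_neg] at h6 ⊢
      field_simp at h6 ⊢
      linarith
    have h10 : β' = 0 := by
      by_contra hne
      apply h7
      rw [h9]
      have e2 := Real.exp_pos (-s)
      have : 0 < β' ^ 2 := by positivity
      have : 0 < β' ^ 2 * (Real.exp (-s) * Real.exp (-s)) := by positivity
      nlinarith
    exact ⟨by rw [h9, h10]; simp, h10⟩
  have hz : ∀ t, ∃ r, (geod q').1 t = (geod p').1 r := by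
    intro t
    obtain ⟨r, hr⟩ := exists_near p' ((geod q').1 t)
    refine ⟨r, ?_⟩
    have h3 := hab' t
    rw [h8.1, h8.2, zero_mul, zero_mul, add_zero, Real.sinh_eq_zero] at h3
    rw [h3, abs_zero] at hr
    exact dist_eq_zero.1 hr
  rcases line_sub zero_ne_one (hz 0) (hz 1) with ⟨τ, h⟩ | ⟨τ, h⟩
  · rw [← hq'] at h
    have hcomm : δ' * φ g = φ g * δ' := by
      apply hΓ.eq_of_smul_eq (z := (geod p').1 0)
      have e1 : act (δ' * φ g) (geod p') = act (φ g * δ') (geod p') := by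
        rw [← act_act, ← act_act, hc', h, act_flow, act_flow, h, hc', flow_flow, flow_flow,
          add_comm]
      rw [← act_apply, e1, act_apply]
    have hcomm' : δ * g = g * δ := by
      apply φ.injective
      rw [map_mul, map_mul, hφδ, hcomm]
    apply hnotpar
    apply axis_unique hl hgc
    rw [act_act, ← hcomm', ← act_act, hgc, act_flow]
  · rw [← hq'] at h
    have h9 : δ' • (geod p').1 (-τ / 2) = (geod p').1 (-τ / 2) := by
      rw [← act_apply, h, flow_apply, rev_apply]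
      exact congrArg (geod p').1 (by ring)
    have h10 := hΓ.free _ _ h9
    exact hcase ⟨0, by rw [h10, zpow_zero]⟩

end Pool.Agent.Y473.SA
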