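import Pool.Agent.Y473.SA.OutFin2

/-!
# Sets of automorphisms with bounded traces, third part
-/

set_option autoImplicit false

open scoped MatrixGroups UpperHalfPlane Matrix
open UpperHalfPlane

namespace Pool.Agent.Y473.SA

variable {Γ : Subgroup SL(2, ℝ)}

/-- The displacement of `i` is controlled by the entries. -/
theorem dist_vp_le (g : SL(2, ℝ)) {M : ℝ} (h : ∀ i j, |g i j| ≤ M) :
    dist (vp 0) (g • vp 0) ≤ 4 * M ^ 2 := by
  have hdet := sl_det g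
  have h3 : 0 < (g 1 1) ^ 2 + (g 1 0) ^ 2 := by
    by_cases hc : g 1 0 = 0
    · have : g 1 1 ≠ 0 := by
        intro h
        rw [hc, h] at hdet
        simp at hdet
      rw [hc]
      positivity
    · positivity
  have hcosh : Real.cosh (dist (vp 0) (g • vp 0)) =
      ((g 0 0) ^ 2 + (g 0 1) ^ 2 + (g 1 0) ^ 2 + (g 1 1) ^ 2) / 2 := by
    rw [cosh_dist', smul_re, smul_im, vp_re, vp_im, Real.exp_zero]
    have e1 : (g 1 0 * 0 + g 1 1) ^ 2 + (g 1 0 * 1) ^ 2 = (g 1 1) ^ 2 + (g 1 0) ^ 2 := by ring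
    rw [e1]
    rw [div_eq_div_iff (by positivity) (by norm_num)]
    field_simp
    linear_combination (-(g 0 0 * g 1 1 - g 0 1 * g 1 0 + 1)) * hdet
  have h1 : dist (vp 0) (g • vp 0) ≤ 2 * Real.cosh (dist (vp 0) (g • vp 0)) := by
    set x := dist (vp 0) (g • vp 0)
    have h4 := Real.add_one_le_exp x
    have h5 := Real.exp_pos (-x)
    rw [Real.cosh_eq]
    linarith
  rw [hcosh] at h1
  have h2 : ∀ i j, (g i j) ^ 2 ≤ M ^ 2 := by
    intro i j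
    rw [← sq_abs]
    exact pow_le_pow_left₀ (abs_nonneg _) (h i j) 2
  linarith [h2 0 0, h2 0 1, h2 1 0, h2 1 1]

theorem tr_mul (A B : SL(2, ℝ)) :
    tr (A * B) = (A 0 0 * B 0 0 + A 0 1 * B 1 0) + (A 1 0 * B 0 1 + A 1 1 * B 1 1) := by
  rw [tr_eq, sl_mul_apply, sl_mul_apply]

theorem entries_bound (hΓ : IsClosedSurface Γ) (Φ : Set (MulAut Γ))
    (hb : ∀ g : Γ, ∃ M, ∀ φ ∈ Φ, |tr (φ g)| ≤ M) :
    ∃ p : MulAut Γ → SL(2, ℝ), ∀ g : Γ, ∃ M, ∀ φ ∈ Φ, ∀ i j,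
      |((p φ)⁻¹ * (φ g : SL(2, ℝ)) * p φ) i j| ≤ M := by
  obtain ⟨κ, ν, hκ, hν, hnf⟩ := hΓ.normal_form
  obtain ⟨a, b, hab⟩ := hΓ.exists_not_comm
  have key : ∀ φ : MulAut Γ, φ a * φ b * (φ a)⁻¹ * (φ b)⁻¹ ≠ 1 := by
    intro φ h
    apply hab
    apply φ.injective
    simpa using h
  choose p lam h1 h2 h3 h00 h11 h01 h10 hbal hlow using fun φ : MulAut Γ => hnf (φ a) (φ b) (key φ)
  refine ⟨p, ?_⟩
  obtain ⟨Ma, hMa⟩ := hb a
  -- traces of the conjugated elements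
  have htr : ∀ (φ : MulAut Γ) (g : Γ), tr (φ g) =
      ((p φ)⁻¹ * (φ g : SL(2, ℝ)) * p φ) 0 0 + ((p φ)⁻¹ * (φ g : SL(2, ℝ)) * p φ) 1 1 := by
    intro φ g
    rw [← tr_conj (p φ), tr_eq]
  have hmul : ∀ (φ : MulAut Γ) (g h : Γ), (p φ)⁻¹ * (φ (g * h) : SL(2, ℝ)) * p φ =
      ((p φ)⁻¹ * (φ g : SL(2, ℝ)) * p φ) * ((p φ)⁻¹ * (φ h : SL(2, ℝ)) * p φ) := by
    intro φ g h
    rw [map_mul, Subgroup.coe_mul]
    group
  -- the diagonal entries
  have hdiag : ∀ g : Γ, ∃ M, ∀ φ ∈ Φ, |((p φ)⁻¹ * (φ g : SL(2, ℝ)) * p φ) 0 0| ≤ M ∧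
      |((p φ)⁻¹ * (φ g : SL(2, ℝ)) * p φ) 1 1| ≤ M := by
    intro g
    obtain ⟨M1, hM1⟩ := hb g
    obtain ⟨M2, hM2⟩ := hb (a * g)
    refine ⟨(1 + Ma) * max M1 M2 / κ, fun φ hφ => ?_⟩
    apply solve2 hκ (h1 φ) ((h2 φ).trans (hMa φ hφ)) ((h3 φ).trans (hMa φ hφ))
    · rw [← htr]
      exact (hM1 φ hφ).trans (le_max_left _ _)
    · have e1 : tr (φ (a * g)) = _ := (tr_conj (p φ) _).symm
      rw [hmul, tr_mul, h00, h11, h01, h10, zero_mul, zero_mul, add_zero, zero_add] at e1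
      rw [← e1]
      exact (hM2 φ hφ).trans (le_max_right _ _)
  intro g
  obtain ⟨M0, hM0⟩ := hdiag g
  obtain ⟨Mb, hMb⟩ := hdiag b
  obtain ⟨M3, hM3⟩ := hb (b * g)
  obtain ⟨M4, hM4⟩ := hb (a * (b * g))
  set Q := (1 + Ma) * max M3 M4 / κ with hQ
  set s := Real.sqrt (ν / (2 * Ma) ^ 2) with hs
  set M5 := (Q + Mb * M0) / s with hM5
  refine ⟨max M0 M5, fun φ hφ => ?_⟩
  obtain ⟨d0, d1⟩ := hM0 φ hφ
  obtain ⟨b0, b1⟩ := hMb φ hφ
  set G := (p φ)⁻¹ * (φ g : SL(2, ℝ)) * p φ with hG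
  set B := (p φ)⁻¹ * (φ b : SL(2, ℝ)) * p φ with hB
  have hMa0 : 0 < Ma := by
    have hx := hnf (φ a) (φ b) (key φ)
    have h5 : 0 < |tr (φ a)| := by
      by_contra hcon
      have h6 : |tr (φ a)| = 0 := le_antisymm (not_lt.1 hcon) (abs_nonneg _)
      have := hlow φ
      rw [h6] at this
      simp at this
      linarith
    exact h5.trans_le (hMa φ hφ)
  have hs0 : 0 < s := Real.sqrt_pos.2 (by positivity)
  have hB01 : s ≤ |B 0 1| := by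
    rw [hs, ← Real.sqrt_sq (abs_nonneg (B 0 1))]
    apply Real.sqrt_le_sqrt
    rw [sq_abs, div_le_iff₀ (by positivity)]
    refine (hlow φ).trans ?_
    rw [mul_comm]
    apply mul_le_mul_of_nonneg_left _ (sq_nonneg _)
    apply pow_le_pow_left₀ (by positivity)
    linarith [hMa φ hφ]
  have hsol := solve2 (x := B 0 0 * G 0 0 + B 0 1 * G 1 0) (y := B 1 0 * G 0 1 + B 1 1 * G 1 1)
    (M := max M3 M4) hκ (h1 φ) ((h2 φ).trans (hMa φ hφ)) ((h3 φ).trans (hMa φ hφ)) (by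
      have e1 : tr (φ (b * g)) = _ := (tr_conj (p φ) _).symm
      rw [hmul, tr_mul] at e1
      rw [← e1]
      exact (hM3 φ hφ).trans (le_max_left _ _)) (by
      have e1 : tr (φ (a * (b * g))) = _ := (tr_conj (p φ) _).symm
      rw [hmul, tr_mul, h00, h11, h01, h10, hmul, ← hB, ← hG, zero_mul, zero_mul, add_zero, zero_add,
        sl_mul_apply B G 0 0, sl_mul_apply B G 1 1] at e1
      rw [← e1]
      exact (hM4 φ hφ).trans (le_max_right _ _))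
  rw [← hQ] at hsol
  have hMb0 : 0 ≤ Mb := (abs_nonneg _).trans b0
  have hprod : ∀ x y : ℝ, |x| ≤ Mb → |y| ≤ M0 → |x * y| ≤ Mb * M0 := by
    intro x y hx hy
    rw [abs_mul]
    exact mul_le_mul hx hy (abs_nonneg _) hMb0
  have hoff : ∀ x y z : ℝ, s ≤ |x| → |z + x * y| ≤ Q → |z| ≤ Mb * M0 → |y| ≤ M5 := by
    intro x y z hx hxy hz
    rw [hM5, le_div_iff₀ hs0]
    have e1 : |x * y| ≤ |z + x * y| + |z| := by
      have := abs_sub (z + x * y) z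
      simpa using this
    rw [abs_mul] at e1
    nlinarith [abs_nonneg y]
  have g10 : |G 1 0| ≤ M5 := hoff _ _ _ hB01 hsol.1 (hprod _ _ b0 d0)
  have g01 : |G 0 1| ≤ M5 := by
    apply hoff (B 1 0) (G 0 1) (B 1 1 * G 1 1)
    · rw [← hbal φ]; exact hB01
    · rw [add_comm]; exact hsol.2
    · exact hprod _ _ b1 d1
  intro i j
  fin_cases i <;> fin_cases j
  · exact d0.trans (le_max_left _ _)
  · exact g01.trans (le_max_right _ _)
  · exact g10.trans (le_max_right _ _)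
  · exact d1.trans (le_max_left _ _)

theorem conj_mul_mk (φ : MulAut Γ) (g : Γ) :
    ((MulAut.conj g * φ : MulAut Γ) : Out Γ) = (φ : Out Γ) := by
  rw [eq_comm, QuotientGroup.eq]
  refine ⟨φ⁻¹ g, ?_⟩
  ext x
  simp [MulAut.conj_apply]

/-- A set of automorphisms with bounded traces has a finite image in `Out Γ`. -/
theorem IsClosedSurface.out_finite (hΓ : IsClosedSurface Γ) (Φ : Set (MulAut Γ))
    (hb : ∀ g : Γ, ∃ M, ∀ φ ∈ Φ, |tr (φ g)| ≤ M) : {q : Out Γ | ∃ φ ∈ Φ, (φ : Out Γ) = q}.Finite := by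
  obtain ⟨p, hp⟩ := entries_bound hΓ Φ hb
  obtain ⟨r, hr0, hr⟩ := hΓ.exists_radius
  obtain ⟨F, hF, hgen⟩ := hΓ.exists_gen
  choose M hM using hp
  obtain ⟨R, hR⟩ := (hF.image fun g => 4 * M g ^ 2).bddAbove
  set E : Set Γ := {g | ∃ z, dist I z ≤ r ∧ dist z (g • z) ≤ R} with hE
  have hEfin : E.Finite := hΓ.finite_disp r R
  choose g hg using fun φ : MulAut Γ => hr (p φ • vp 0)
  have hmem : ∀ φ ∈ Φ, ∀ x ∈ F, (MulAut.conj (g φ) * φ) x ∈ E := by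
    intro φ hφ x hx
    refine ⟨_, hg φ, ?_⟩
    have h1 : 4 * M x ^ 2 ≤ R := hR ⟨x, hx, rfl⟩
    refine le_trans ?_ h1
    have h2 := dist_vp_le _ (hM x φ hφ)
    have h3 : (MulAut.conj (g φ) * φ) x • (g φ • p φ • vp 0) = g φ • φ x • p φ • vp 0 := by
      rw [MulAut.mul_apply, MulAut.conj_apply, mul_smul, mul_smul, inv_smul_smul]
    rw [h3, dist_smul]
    rw [mul_smul, mul_smul] at h2
    rw [← dist_smul (p φ), smul_inv_smul] at h2
    exact h2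
  set Ψ : Set (MulAut Γ) := {ψ | ∀ x ∈ F, ψ x ∈ E} with hΨ
  have hΨfin : Ψ.Finite := by
    have : Finite F := hF
    have hpi : {f : F → Γ | ∀ x, f x ∈ E}.Finite := Set.Finite.pi' fun _ => hEfin
    refine Set.Finite.of_finite_image (f := fun ψ : MulAut Γ => fun x : F => ψ x) (hpi.subset ?_) ?_
    · rintro _ ⟨ψ, hψ, rfl⟩ x
      exact hψ x.1 x.2
    · intro ψ _ ψ' _ h
      have h1 : Set.EqOn (ψ.toMonoidHom : Γ →* Γ) ψ'.toMonoidHom F := fun x hx => congrFun h ⟨x, hx⟩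
      have h2 := MonoidHom.eq_of_eqOn_dense hgen h1
      ext x
      exact congrArg (fun f : Γ →* Γ => (f x : SL(2, ℝ)).1 _ _) h2
  refine (hΨfin.image (fun ψ : MulAut Γ => (ψ : Out Γ))).subset ?_
  rintro q ⟨φ, hφ, rfl⟩
  exact ⟨_, hmem φ hφ, conj_mul_mk φ (g φ)⟩

end Pool.Agent.Y473.SA
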