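import Pool.Agent.Y473.SA.Growth
import Pool.Agent.Y473.SA.OutFin3

/-!
# A domain of discontinuity containing all the simple Anosov domains
-/

set_option autoImplicit false

open scoped MatrixGroups UpperHalfPlane Matrix Matrix.Norms.Operator
open UpperHalfPlane

namespace Pool.Agent.Y473.SA

variable {Γ : Subgroup SL(2, ℝ)} {d : ℕ}

/-- The powers of `ρ g` and of its inverse grow at most like `exp (b n)`. -/
def Slow (b : ℝ) (ρ : Rep Γ d) (g : Γ) : Prop :=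
  ∃ C, ∀ n : ℕ, ‖(ρ.1 g).1 ^ n‖ ≤ C * Real.exp (b * n) ∧ ‖(ρ.1 g⁻¹).1 ^ n‖ ≤ C * Real.exp (b * n)

/-- The conjugate of a representation. -/
noncomputable def conjRep (h : SL(d, ℂ)) (ρ : Rep Γ d) : Rep Γ d :=
  ⟨fun g => h * ρ.1 g * h⁻¹, fun x y => by simp only [ρ.2]; group⟩

theorem conjRep_val (h : SL(d, ℂ)) (ρ : Rep Γ d) (g : Γ) :
    ((conjRep h ρ).1 g).1 = h.1 * (ρ.1 g).1 * (h⁻¹).1 := rfl

theorem sl_mul_inv' (h : SL(d, ℂ)) : h.1 * (h⁻¹).1 = 1 := by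
  have : (h * h⁻¹).1 = h.1 * (h⁻¹).1 := rfl
  rw [← this, mul_inv_cancel]
  rfl

theorem sl_inv_mul' (h : SL(d, ℂ)) : (h⁻¹).1 * h.1 = 1 := by
  have : (h⁻¹ * h).1 = (h⁻¹).1 * h.1 := rfl
  rw [← this, inv_mul_cancel]
  rfl

theorem conj_pow' {A B X : Matrix (Fin d) (Fin d) ℂ} (h : B * A = 1) (h' : A * B = 1) (n : ℕ) :
    (A * X * B) ^ n = A * X ^ n * B := by
  induction n with
  | zero => rw [pow_zero, pow_zero, mul_one, h']
  | succ n ih =>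
    rw [pow_succ, ih, pow_succ]
    have : A * X ^ n * B * (A * X * B) = A * X ^ n * (B * A) * X * B := by noncomm_ring
    rw [this, h, mul_one]
    noncomm_ring

theorem norm_conj_le (A B X : Matrix (Fin d) (Fin d) ℂ) : ‖A * X * B‖ ≤ ‖A‖ * ‖B‖ * ‖X‖ := by
  calc ‖A * X * B‖ ≤ ‖A * X‖ * ‖B‖ := norm_mul_le _ _
    _ ≤ ‖A‖ * ‖X‖ * ‖B‖ := mul_le_mul_of_nonneg_right (norm_mul_le _ _) (norm_nonneg _)
    _ = _ := by ring

theorem Slow.of_conj {b : ℝ} {ρ ρ' : Rep Γ d} {g g' : Γ} (h : Slow b ρ g)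
    {A B : Matrix (Fin d) (Fin d) ℂ} (hBA : B * A = 1) (h1 : (ρ'.1 g').1 = A * (ρ.1 g).1 * B)
    (h2 : (ρ'.1 g'⁻¹).1 = A * (ρ.1 g⁻¹).1 * B) : Slow b ρ' g' := by
  obtain ⟨C, hC⟩ := h
  have hAB : A * B = 1 := mul_eq_one_comm.1 hBA
  refine ⟨‖A‖ * ‖B‖ * C, fun n => ?_⟩
  rw [h1, h2, conj_pow' hBA hAB, conj_pow' hBA hAB]
  have h0 : 0 ≤ ‖A‖ * ‖B‖ := by positivity
  constructor
  · refine (norm_conj_le _ _ _).trans ?_
    rw [mul_assoc (‖A‖ * ‖B‖)]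
    exact mul_le_mul_of_nonneg_left (hC n).1 h0
  · refine (norm_conj_le _ _ _).trans ?_
    rw [mul_assoc (‖A‖ * ‖B‖)]
    exact mul_le_mul_of_nonneg_left (hC n).2 h0

theorem Slow.conjRep {b : ℝ} {ρ : Rep Γ d} {g : Γ} (h : Slow b ρ g) (x : SL(d, ℂ)) :
    Slow b (conjRep x ρ) g :=
  h.of_conj (sl_inv_mul' x) rfl rfl

theorem Slow.conj_elt {b : ℝ} {ρ : Rep Γ d} {g : Γ} (h : Slow b ρ g) (x : Γ) :
    Slow b ρ (x * g * x⁻¹) := by
  refine h.of_conj (A := (ρ.1 x).1) (B := (ρ.1 x⁻¹).1) (rep_inv_mul' _ _) ?_ ?_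
  · rw [rep_mul', rep_mul']
  · have : (x * g * x⁻¹)⁻¹ = x * g⁻¹ * x⁻¹ := by group
    rw [this, rep_mul', rep_mul']

theorem Slow.mono {b b' : ℝ} (hb : b ≤ b') {ρ : Rep Γ d} {g : Γ} (h : Slow b ρ g) :
    Slow b' ρ g := by
  obtain ⟨C, hC⟩ := h
  have hC0 : 0 ≤ C := by
    have h1 := (norm_nonneg _).trans (hC 0).1
    by_contra hcon
    have h2 := mul_neg_of_neg_of_pos (not_le.1 hcon) (Real.exp_pos (b * (0 : ℕ)))
    linarith
  refine ⟨C, fun n => ?_⟩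
  have h1 : C * Real.exp (b * n) ≤ C * Real.exp (b' * n) := by
    apply mul_le_mul_of_nonneg_left _ hC0
    apply Real.exp_le_exp.2
    exact mul_le_mul_of_nonneg_right hb (Nat.cast_nonneg n)
  exact ⟨(hC n).1.trans h1, (hC n).2.trans h1⟩

theorem norm_pow_le'' (X : Matrix (Fin d) (Fin d) ℂ) (n : ℕ) :
    ‖X ^ n‖ ≤ ‖(1 : Matrix (Fin d) (Fin d) ℂ)‖ * ‖X‖ ^ n := by
  induction n with
  | zero => rw [pow_zero, pow_zero, mul_one]
  | succ n ih =>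
    calc ‖X ^ (n + 1)‖ = ‖X ^ n * X‖ := by rw [pow_succ]
      _ ≤ ‖X ^ n‖ * ‖X‖ := norm_mul_le _ _
      _ ≤ ‖(1 : Matrix (Fin d) (Fin d) ℂ)‖ * ‖X‖ ^ n * ‖X‖ :=
        mul_le_mul_of_nonneg_right ih (norm_nonneg _)
      _ = _ := by ring

theorem slow_of_bound {b : ℝ} {ρ : Rep Γ d} {g : Γ} (h1 : ‖(ρ.1 g).1‖ ≤ Real.exp b)
    (h2 : ‖(ρ.1 g⁻¹).1‖ ≤ Real.exp b) : Slow b ρ g := by
  refine ⟨‖(1 : Matrix (Fin d) (Fin d) ℂ)‖, fun n => ?_⟩
  have e : Real.exp (b * n) = Real.exp b ^ n := by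
    rw [← Real.exp_nat_mul, mul_comm]
  rw [e]
  constructor
  · exact (norm_pow_le'' _ n).trans (mul_le_mul_of_nonneg_left
      (pow_le_pow_left₀ (norm_nonneg _) h1 n) (norm_nonneg _))
  · exact (norm_pow_le'' _ n).trans (mul_le_mul_of_nonneg_left
      (pow_le_pow_left₀ (norm_nonneg _) h2 n) (norm_nonneg _))

theorem not_bounded {M : ℝ} (h : ∀ n : ℕ, (4 : ℝ) ^ n ≤ M * Real.exp n) : False := by
  have he : Real.exp 1 < 2.7182818286 := Real.exp_one_lt_d9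
  have h1 : ∀ n : ℕ, (4 / Real.exp 1) ^ n ≤ M := by
    intro n
    rw [div_pow, div_le_iff₀ (by positivity), ← Real.exp_nat_mul, mul_one]
    exact h n
  have h2 : 1 < 4 / Real.exp 1 := by
    rw [lt_div_iff₀ (Real.exp_pos 1)]
    linarith
  obtain ⟨n, hn⟩ := pow_unbounded_of_one_lt M h2
  exact absurd (h1 n) (not_le.2 hn)

/-- A simple closed geodesic along which a perturbation of a simple Anosov representation grows
slowly is short. -/
theorem length_bound (hΓ : IsClosedSurface Γ) {r T M' : ℝ} {ρ' : Rep Γ d} {c : UT} {g : Γ}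
    {l b : ℝ} (hT : 0 < T) (hl : 0 < l) (hc : act g c = flow l c) (hcr : dist I (c.1 0) ≤ r)
    {h : ℕ → Γ} (hr : ∀ n : ℕ, dist I (h n • c.1 (n * T)) ≤ r)
    (hgrow : ∀ n, 4 ^ n ≤ M' * (‖(ρ'.1 (h n)).1‖ * ‖(ρ'.1 (h n)⁻¹).1‖)) (hb : 0 ≤ b)
    (hslow : Slow b ρ' g) : l ≤ 2 * b * T := by
  by_contra hcon
  have hlb := not_le.1 hcon
  obtain ⟨C, hC⟩ := hslow
  obtain ⟨Q, hQ⟩ := ((hΓ.finite_ball (r + l)).image fun f => max ‖(ρ'.1 f).1‖ ‖(ρ'.1 f⁻¹).1‖).bddAbove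
  have hQ' : ∀ f : Γ, (∃ z, dist I z ≤ r + l ∧ dist I (f • z) ≤ r + l) →
      ‖(ρ'.1 f).1‖ ≤ Q ∧ ‖(ρ'.1 f⁻¹).1‖ ≤ Q := fun f hf => by
    have h1 := hQ ⟨f, hf, rfl⟩
    exact ⟨(le_max_left _ _).trans h1, (le_max_right _ _).trans h1⟩
  have hM' : 0 ≤ M' := by
    by_contra hneg
    have h1 := hgrow 0
    have h2 : M' * (‖(ρ'.1 (h 0)).1‖ * ‖(ρ'.1 (h 0)⁻¹).1‖) ≤ 0 :=
      mul_nonpos_of_nonpos_of_nonneg (not_le.1 hneg).le (by positivity)
    rw [pow_zero] at h1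
    linarith
  apply not_bounded (M := M' * (Q * C * (Q * C)))
  intro n
  set m := ⌊n * T / l⌋₊ with hm
  have hm1 : (m : ℝ) * l ≤ n * T := by
    have := Nat.floor_le (a := n * T / l) (by positivity)
    rwa [← hm, le_div_iff₀ hl] at this
  have hm2 : n * T < (m + 1) * l := by
    have := Nat.lt_floor_add_one (n * T / l)
    rwa [← hm, div_lt_iff₀ hl] at this
  set s := n * T - m * l with hs
  have hs0 : 0 ≤ s := by linarith
  have hsl : s ≤ l := by linarith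
  have hpow : g ^ m • c.1 s = c.1 (n * T) := by
    have h1 := zpow_axis hc (m : ℤ)
    rw [zpow_natCast] at h1
    have h2 := congrArg (fun c : UT => c.1 s) h1
    simp only [act_apply, flow_apply] at h2
    have e : ((m : ℤ) : ℝ) = m := Int.cast_natCast m
    rw [h2, e]
    exact congrArg c.1 (by rw [hs]; ring)
  obtain ⟨f1, f2⟩ := hQ' (h n * g ^ m) ⟨c.1 s, by
      have h1 := dist_triangle I (c.1 0) (c.1 s)
      rw [line_dist, zero_sub, abs_neg, abs_of_nonneg hs0] at h1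
      linarith, by
      rw [mul_smul, hpow]
      have := hr n
      linarith⟩
  have hQ0 : 0 ≤ Q := (norm_nonneg _).trans f1
  have e1 : h n = (h n * g ^ m) * g⁻¹ ^ m := by rw [inv_pow, mul_inv_cancel_right]
  have e2 : (h n)⁻¹ = g ^ m * (h n * g ^ m)⁻¹ := by group
  have g1 : ‖(ρ'.1 (h n)).1‖ ≤ Q * (C * Real.exp (b * m)) := by
    rw [e1, rep_mul', rep_pow']
    exact (norm_mul_le _ _).trans (mul_le_mul f1 (hC m).2 (norm_nonneg _) hQ0)
  have g2 : ‖(ρ'.1 (h n)⁻¹).1‖ ≤ (C * Real.exp (b * m)) * Q := by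
    rw [e2, rep_mul', rep_pow']
    exact (norm_mul_le _ _).trans
      (mul_le_mul (hC m).1 f2 (norm_nonneg _) ((norm_nonneg _).trans (hC m).1))
  have hexp : Real.exp (b * m) * Real.exp (b * m) ≤ Real.exp n := by
    rw [← Real.exp_add]
    apply Real.exp_le_exp.2
    have h1 : b * (m * l) ≤ b * (n * T) := mul_le_mul_of_nonneg_left hm1 hb
    have h2 : 2 * b * T * n ≤ l * n := mul_le_mul_of_nonneg_right hlb.le (Nat.cast_nonneg n)
    have h3 : (b * m + b * m) * l ≤ n * l := by linarith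
    exact le_of_mul_le_mul_right h3 hl
  refine (hgrow n).trans ?_
  rw [mul_assoc M']
  apply mul_le_mul_of_nonneg_left _ hM'
  calc ‖(ρ'.1 (h n)).1‖ * ‖(ρ'.1 (h n)⁻¹).1‖
      ≤ (Q * (C * Real.exp (b * m))) * ((C * Real.exp (b * m)) * Q) :=
        mul_le_mul g1 g2 (norm_nonneg _) ((norm_nonneg _).trans g1)
    _ = (Q * C * (Q * C)) * (Real.exp (b * m) * Real.exp (b * m)) := by ring
    _ ≤ (Q * C * (Q * C)) * Real.exp n := by
      apply mul_le_mul_of_nonneg_left hexp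
      exact mul_self_nonneg _

/-- The set of the representations close to `ρ` on a finite set. -/
def near (ρ : Rep Γ d) (S : Set Γ) (ε : ℝ) : Set (Rep Γ d) :=
  {ρ' | ∀ g ∈ S, ‖(ρ'.1 g).1 - (ρ.1 g).1‖ < ε}

theorem continuous_val (g : Γ) : Continuous fun ρ : Rep Γ d => (ρ.1 g).1 :=
  continuous_subtype_val.comp ((continuous_apply g).comp continuous_subtype_val)

theorem isOpen_near (ρ : Rep Γ d) {S : Set Γ} (hS : S.Finite) (ε : ℝ) : IsOpen (near ρ S ε) := by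
  have : near ρ S ε = ⋂ g ∈ S, {ρ' : Rep Γ d | ‖(ρ'.1 g).1 - (ρ.1 g).1‖ < ε} := by
    ext ρ'
    simp [near]
  rw [this]
  refine hS.isOpen_biInter fun g _ => ?_
  exact isOpen_lt ((continuous_val g).sub continuous_const).norm continuous_const

theorem continuous_conjRep (h : SL(d, ℂ)) : Continuous (conjRep (Γ := Γ) h) := by
  refine Continuous.subtype_mk (continuous_pi fun g => ?_) _
  exact ((continuous_const.mul ((continuous_apply g).comp continuous_subtype_val)).mul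
    continuous_const)

/-- The classes of the completely reducible representations a conjugate of which lies in `W`. -/
def classes (W : Set (Rep Γ d)) : Set (CharVar Γ d) :=
  {x | ∃ ρ : CRep Γ d, Quotient.mk _ ρ = x ∧ ∃ h, conjRep h ρ.1 ∈ W}

theorem conjRep_conjRep (h k : SL(d, ℂ)) (ρ : Rep Γ d) :
    conjRep h (conjRep k ρ) = conjRep (h * k) ρ := by
  apply Subtype.ext
  funext g
  change h * (k * ρ.1 g * k⁻¹) * h⁻¹ = h * k * ρ.1 g * (h * k)⁻¹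
  group

theorem rel_iff {ρ ρ' : CRep Γ d} : (Quotient.mk (conjSetoid Γ d) ρ = Quotient.mk _ ρ') ↔
    ∃ h, ρ'.1 = conjRep h ρ.1 := by
  rw [Quotient.eq]
  constructor
  · rintro ⟨h, hh⟩
    exact ⟨h, Subtype.ext (funext hh)⟩
  · rintro ⟨h, hh⟩
    exact ⟨h, fun g => congrArg (fun ρ : Rep Γ d => ρ.1 g) hh⟩

theorem mem_classes {W : Set (Rep Γ d)} {ρ : CRep Γ d} :
    Quotient.mk _ ρ ∈ classes W ↔ ∃ h, conjRep h ρ.1 ∈ W := by
  constructor
  · rintro ⟨ρ', h1, h, hh⟩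
    obtain ⟨k, hk⟩ := rel_iff.1 h1.symm
    refine ⟨h * k, ?_⟩
    rwa [← conjRep_conjRep, ← hk]
  · rintro ⟨h, hh⟩
    exact ⟨ρ, rfl, h, hh⟩

theorem isOpen_classes {W : Set (Rep Γ d)} (hW : IsOpen W) : IsOpen (classes W) := by
  rw [← (@isQuotientMap_quotient_mk' _ _ (conjSetoid Γ d)).isOpen_preimage]
  have : ((@Quotient.mk' _ (conjSetoid Γ d)) ⁻¹' classes W : Set (CRep Γ d)) =
      ⋃ h, {ρ | conjRep h ρ.1 ∈ W} := by
    ext ρ
    rw [Set.mem_preimage, Set.mem_iUnion]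
    exact mem_classes
  rw [this]
  exact isOpen_iUnion fun h => hW.preimage ((continuous_conjRep h).comp continuous_subtype_val)

/-- The big domain of discontinuity. -/
def bigDomain (Γ : Subgroup SL(2, ℝ)) (d : ℕ) : Set (CharVar Γ d) :=
  {x | ∃ W : Set (CharVar Γ d), IsOpen W ∧ x ∈ W ∧ ∀ b : ℝ, ∃ E : Set Γ, E.Finite ∧
    ∀ ρ : CRep Γ d, Quotient.mk _ ρ ∈ W → ∀ g : Γ, IsSimpleElt g → Slow b ρ.1 g →
      ∃ x : Γ, x * g * x⁻¹ ∈ E}

theorem isOpen_bigDomain : IsOpen (bigDomain Γ d) := by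
  rw [isOpen_iff_forall_mem_open]
  rintro x ⟨W, hW, hx, h⟩
  exact ⟨W, fun y hy => ⟨W, hW, hy, h⟩, hW, hx⟩

/-- The simple Anosov domains are contained in the big domain. -/
theorem simpleAnosovDomain_subset (hΓ : IsClosedSurface Γ) {k : ℕ} (hk : 1 ≤ k) (hkd : k < d) :
    simpleAnosovDomain Γ d k ⊆ bigDomain Γ d := by
  rintro _ ⟨ρ, hρ, rfl⟩
  obtain ⟨r, hr0, hr⟩ := hΓ.exists_radius
  obtain ⟨S, ε, T, M', hS, hε, hT, hdata⟩ := exists_data hΓ hk hkd hρ hr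
  refine ⟨classes (near ρ.1 S ε), isOpen_classes (isOpen_near _ hS ε), ?_, fun b => ?_⟩
  · rw [mem_classes]
    refine ⟨1, fun g _ => ?_⟩
    have : (conjRep 1 ρ.1).1 g = ρ.1.1 g := by
      change 1 * ρ.1.1 g * 1⁻¹ = _
      simp
    rw [this, sub_self, norm_zero]
    exact hε
  · refine ⟨_, hΓ.finite_disp r (2 * max b 0 * T), ?_⟩
    intro ρ₁ hρ₁ g hg hslow
    obtain ⟨h, hh⟩ := mem_classes.1 hρ₁
    obtain ⟨c, l, hcl, hgc⟩ := hg
    obtain ⟨x, hx⟩ := hr (c.1 0)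
    obtain ⟨H, hH1, hH2⟩ := hdata _ hh (act x c) (subset_closure ⟨l, hcl.act x⟩) hx
    have hax : act (x * g * x⁻¹) (act x c) = flow l (act x c) := by
      rw [act_act, inv_mul_cancel_right, ← act_act, hgc, act_flow]
    have hlen := length_bound hΓ hT hcl.1 hax hx hH1 hH2 (le_max_right b 0)
      (((hslow.conjRep h).conj_elt x).mono (le_max_left b 0))
    refine ⟨x, (act x c).1 0, hx, ?_⟩
    rw [dist_axis hcl.1 hax]
    exact hlen

theorem continuous_twistRep (φ : MulAut Γ) : Continuous (twistRep (d := d) φ) := by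
  refine Continuous.subtype_mk (continuous_pi fun g => ?_) _
  exact (continuous_apply _).comp continuous_subtype_val

theorem continuous_twist (φ : MulAut Γ) : Continuous (twist (d := d) φ) := by
  refine Continuous.quotient_map' ?_ _
  exact Continuous.subtype_mk ((continuous_twistRep φ).comp continuous_subtype_val) _

theorem twist_twist (φ : MulAut Γ) (x : CharVar Γ d) : twist φ⁻¹ (twist φ x) = x := by
  induction x using Quotient.inductionOn with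
  | h ρ =>
    change Quotient.mk _ _ = Quotient.mk _ _
    congr 1
    apply Subtype.ext
    apply Subtype.ext
    funext g
    change ρ.1.1 (φ⁻¹ (φ⁻¹⁻¹ g)) = ρ.1.1 g
    simp

theorem twist_mem (hΓ : IsClosedSurface Γ) (φ : MulAut Γ) {x : CharVar Γ d}
    (hx : x ∈ bigDomain Γ d) : twist φ x ∈ bigDomain Γ d := by
  obtain ⟨W, hW, hxW, h⟩ := hx
  refine ⟨twist φ⁻¹ ⁻¹' W, hW.preimage (continuous_twist _), ?_, fun b => ?_⟩
  · rw [Set.mem_preimage, twist_twist]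
    exact hxW
  · obtain ⟨E, hE, hEW⟩ := h b
    refine ⟨φ '' E, hE.image _, fun ρ hρ g hg hslow => ?_⟩
    have h1 : Slow b (twistRep φ⁻¹ ρ.1) (φ⁻¹ g) := by
      obtain ⟨C, hC⟩ := hslow
      refine ⟨C, fun n => ?_⟩
      have e1 : (twistRep φ⁻¹ ρ.1).1 (φ⁻¹ g) = ρ.1.1 g := by
        change ρ.1.1 (φ⁻¹⁻¹ (φ⁻¹ g)) = _
        simp
      have e2 : (twistRep φ⁻¹ ρ.1).1 (φ⁻¹ g)⁻¹ = ρ.1.1 g⁻¹ := by
        change ρ.1.1 (φ⁻¹⁻¹ (φ⁻¹ g)⁻¹) = _
        simp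
      rw [e1, e2]
      exact hC n
    obtain ⟨x, hx⟩ := hEW ⟨twistRep φ⁻¹ ρ.1, twistRep_completelyReducible φ⁻¹ ρ.2⟩ hρ (φ⁻¹ g)
      (hΓ.simple_aut _ hg) h1
    refine ⟨φ x, _, hx, ?_⟩
    simp

/-- Local boundedness. -/
theorem exists_slow {K : Set (CharVar Γ d)} (hK : IsCompact K) (g : Γ) :
    ∃ b : ℝ, ∀ ρ : CRep Γ d, Quotient.mk _ ρ ∈ K → Slow b ρ.1 g := by
  set V : ℕ → Set (Rep Γ d) := fun n => {ρ | ‖(ρ.1 g).1‖ < Real.exp n ∧ ‖(ρ.1 g⁻¹).1‖ < Real.exp n}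
    with hV
  have hVo : ∀ n, IsOpen (classes (V n)) := fun n => isOpen_classes
    ((isOpen_lt (continuous_val g).norm continuous_const).inter
      (isOpen_lt (continuous_val g⁻¹).norm continuous_const))
  have hcov : K ⊆ ⋃ n, classes (V n) := by
    intro x _
    induction x using Quotient.inductionOn with
    | h ρ =>
      obtain ⟨n, hn⟩ := exists_nat_gt (max ‖(ρ.1.1 g).1‖ ‖(ρ.1.1 g⁻¹).1‖)
      rw [Set.mem_iUnion]
      refine ⟨n, mem_classes.2 ⟨1, ?_⟩⟩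
      have h1 : ∀ y, (conjRep 1 ρ.1).1 y = ρ.1.1 y := by
        intro y
        change 1 * ρ.1.1 y * 1⁻¹ = _
        simp
      have h2 := Real.add_one_le_exp (n : ℝ)
      refine ⟨?_, ?_⟩
      · rw [h1]
        have := (le_max_left ‖(ρ.1.1 g).1‖ ‖(ρ.1.1 g⁻¹).1‖)
        linarith
      · rw [h1]
        have := (le_max_right ‖(ρ.1.1 g).1‖ ‖(ρ.1.1 g⁻¹).1‖)
        linarith
  obtain ⟨t, ht⟩ := hK.elim_finite_subcover _ hVo hcov
  obtain ⟨N, hN⟩ := t.exists_le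
  refine ⟨N, fun ρ hρ => ?_⟩
  have h1 := ht hρ
  rw [Set.mem_iUnion₂] at h1
  obtain ⟨n, hn, hn'⟩ := h1
  obtain ⟨h, h2, h3⟩ := mem_classes.1 hn'
  have hle : Real.exp n ≤ Real.exp N := Real.exp_le_exp.2 (by exact_mod_cast hN n hn)
  have h4 : Slow N (conjRep h ρ.1) g := slow_of_bound (h2.le.trans hle) (h3.le.trans hle)
  have h5 := h4.conjRep h⁻¹
  rw [conjRep_conjRep, inv_mul_cancel] at h5
  have h6 : conjRep 1 ρ.1 = ρ.1 := by
    apply Subtype.ext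
    funext y
    change 1 * ρ.1.1 y * 1⁻¹ = _
    simp
  rwa [h6] at h5

/-- The big domain is a domain of discontinuity. -/
theorem isDomain_bigDomain (hΓ : IsClosedSurface Γ) : IsDomainOfDiscontinuity (bigDomain Γ d) := by
  refine ⟨isOpen_bigDomain, fun φ x hx => twist_mem hΓ φ hx, fun K hKU hK => ?_⟩
  -- uniform finite sets
  have hunif : ∀ b : ℝ, ∃ E : Set Γ, E.Finite ∧ ∀ ρ : CRep Γ d, Quotient.mk _ ρ ∈ K →
      ∀ g : Γ, IsSimpleElt g → Slow b ρ.1 g → ∃ x : Γ, x * g * x⁻¹ ∈ E := by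
    intro b
    have hKU' : ∀ x ∈ K, ∃ W : Set (CharVar Γ d), IsOpen W ∧ x ∈ W ∧ ∀ b : ℝ, ∃ E : Set Γ,
      E.Finite ∧ ∀ ρ : CRep Γ d, Quotient.mk _ ρ ∈ W → ∀ g : Γ, IsSimpleElt g → Slow b ρ.1 g →
      ∃ x : Γ, x * g * x⁻¹ ∈ E := fun x hx => hKU hx
    choose! W hWo hxW hW using hKU'
    choose! E hE hEW using hW
    obtain ⟨t, ht⟩ := hK.elim_nhds_subcover' (fun x _ => W x)
      fun x hx => (hWo x hx).mem_nhds (hxW x hx)
    refine ⟨⋃ x ∈ t, E x.1 b, ?_, fun ρ hρ g hg hslow => ?_⟩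
    · exact t.finite_toSet.biUnion fun x _ => hE x.1 x.2 b
    · have h1 := ht hρ
      rw [Set.mem_iUnion₂] at h1
      obtain ⟨x, hx, hxρ⟩ := h1
      obtain ⟨y, hy⟩ := hEW x.1 x.2 b ρ hxρ g hg hslow
      exact ⟨y, Set.mem_iUnion₂.2 ⟨x, hx, hy⟩⟩
  choose b hb using fun g => exists_slow (d := d) hK g
  set Φ : Set (MulAut Γ) := {ψ | ∃ x ∈ K, twist ψ⁻¹ x ∈ K} with hΦ
  -- traces of simple elements are bounded
  have hsimple : ∀ g : Γ, IsSimpleElt g → ∃ M, ∀ ψ ∈ Φ, |tr (ψ g)| ≤ M := by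
    intro g hg
    obtain ⟨E, hE, hEK⟩ := hunif (b g)
    obtain ⟨M, hM⟩ := (hE.image fun e : Γ => |tr e|).bddAbove
    refine ⟨M, ?_⟩
    rintro ψ ⟨x, hx, hψx⟩
    induction x using Quotient.inductionOn with
    | h ρ =>
      have h1 : Slow (b g) (twistRep ψ⁻¹ ρ.1) g := hb g ⟨twistRep ψ⁻¹ ρ.1, _⟩ hψx
      have h2 : Slow (b g) ρ.1 (ψ g) := by
        obtain ⟨C, hC⟩ := h1
        refine ⟨C, fun n => ?_⟩
        have e1 : (twistRep ψ⁻¹ ρ.1).1 g = ρ.1.1 (ψ g) := by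
          change ρ.1.1 (ψ⁻¹⁻¹ g) = _
          simp
        have e2 : (twistRep ψ⁻¹ ρ.1).1 g⁻¹ = ρ.1.1 (ψ g)⁻¹ := by
          change ρ.1.1 (ψ⁻¹⁻¹ g⁻¹) = _
          simp
        rw [← e1, ← e2]
        exact hC n
      obtain ⟨y, hy⟩ := hEK ρ hx (ψ g) (hΓ.simple_aut _ hg) h2
      have h3 : |tr ((y * ψ g * y⁻¹ : Γ) : SL(2, ℝ))| ≤ M := hM ⟨_, hy, rfl⟩
      have h4 : tr ((y * ψ g * y⁻¹ : Γ) : SL(2, ℝ)) = tr (ψ g) := by
        have := tr_conj (y⁻¹ : SL(2, ℝ)) (ψ g)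
        rw [inv_inv] at this
        rw [← this]
        rfl
      rwa [h4] at h3
  -- traces of all elements are bounded
  have hall : ∀ g : Γ, ∃ M, ∀ ψ ∈ Φ, |tr (ψ g)| ≤ M := by
    by_contra hcon
    push Not at hcon
    obtain ⟨g₀, hg₀⟩ := hcon
    obtain ⟨g, hg, hgs⟩ := hΓ.descent {g | ¬ ∃ M, ∀ ψ ∈ Φ, |tr (ψ g)| ≤ M} (by
      intro g hg h hM
      apply hg
      obtain ⟨M, hM⟩ := hM
      refine ⟨M, fun ψ hψ => ?_⟩
      have := hM ψ hψ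
      have h4 : tr (ψ (h * g * h⁻¹)) = tr (ψ g) := by
        have h5 := tr_conj ((ψ h)⁻¹ : SL(2, ℝ)) (ψ g)
        rw [inv_inv] at h5
        rw [← h5, map_mul, map_mul, map_inv]
        rfl
      rwa [h4] at this) (by
      intro h1
      apply h1
      refine ⟨|tr (1 : SL(2, ℝ))|, fun ψ _ => ?_⟩
      rw [map_one]
      exact le_rfl) ⟨g₀, by
      intro hM
      obtain ⟨M, hM⟩ := hM
      obtain ⟨ψ, hψ, h1⟩ := hg₀ M
      exact absurd (hM ψ hψ) (not_le.2 h1)⟩ (by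
      intro x y hx hy hxy
      simp only [Set.mem_ofPred_eq, not_not] at hx hy hxy ⊢
      obtain ⟨M1, h1⟩ := hx
      obtain ⟨M2, h2⟩ := hy
      obtain ⟨M3, h3⟩ := hxy
      refine ⟨M1 * M2 + M3, fun ψ hψ => ?_⟩
      have e1 : tr (ψ (x * y)) = tr (ψ x) * tr (ψ y) - tr (ψ (x * y⁻¹)) := by
        rw [map_mul, map_mul, map_inv]
        exact tr_identity _ _
      rw [e1]
      refine (abs_sub _ _).trans (add_le_add ?_ (h3 ψ hψ))
      rw [abs_mul]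
      exact mul_le_mul (h1 ψ hψ) (h2 ψ hψ) (abs_nonneg _) ((abs_nonneg _).trans (h1 ψ hψ)))
    exact hg (hsimple g hgs)
  have hfin := hΓ.out_finite Φ hall
  refine (hfin.image fun q : Out Γ => (((Quotient.out q)⁻¹ : MulAut Γ) : Out Γ)).subset ?_
  rintro q ⟨φ, rfl, x, hx, hφx⟩
  refine ⟨((φ⁻¹ : MulAut Γ) : Out Γ), ⟨φ⁻¹, ⟨x, hx, ?_⟩, rfl⟩, ?_⟩
  · rw [inv_inv]
    exact hφx
  · obtain ⟨⟨_, ⟨y, rfl⟩⟩, hy⟩ := QuotientGroup.mk_out_eq_mul (MulAut.conj : Γ →* MulAut Γ).range φ⁻¹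
    have e1 : (Quotient.out ((φ⁻¹ : MulAut Γ) : Out Γ))⁻¹ = MulAut.conj y⁻¹ * φ := by
      refine (congrArg (fun z => z⁻¹) hy).trans ?_
      simp
    change (((Quotient.out ((φ⁻¹ : MulAut Γ) : Out Γ))⁻¹ : MulAut Γ) : Out Γ) = _
    rw [e1]
    exact conj_mul_mk φ y⁻¹

end Pool.Agent.Y473.SA
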