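import Pool.Agent.Y473.SA.Side

/-!
# Closed surface groups: displacement, axes, generation
-/

set_option autoImplicit false

open scoped MatrixGroups UpperHalfPlane Matrix
open UpperHalfPlane

namespace Pool.Agent.Y473.SA

variable {Γ : Subgroup SL(2, ℝ)}

instance : IsIsometricSMul Γ ℍ := ⟨fun g => isometry_smul ℍ (g : SL(2, ℝ))⟩

theorem act_act (g h : Γ) (c : UT) : act g (act h c) = act (g * h) c := by
  apply Subtype.ext
  funext t
  simp only [act_apply, mul_smul]

theorem act_one (c : UT) : act (1 : Γ) c = c := by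
  apply Subtype.ext
  funext t
  simp only [act_apply, one_smul]

theorem act_flow (g : Γ) (t : ℝ) (c : UT) : act g (flow t c) = flow t (act g c) := rfl

theorem act_rev (g : Γ) (c : UT) : act g (rev c) = rev (act g c) := rfl

theorem flow_flow (s t : ℝ) (c : UT) : flow s (flow t c) = flow (s + t) c := by
  apply Subtype.ext
  funext r
  simp only [flow_apply, add_assoc]

theorem flow_zero (c : UT) : flow 0 c = c := by
  apply Subtype.ext
  funext r
  simp only [flow_apply, add_zero]

theorem rev_flow (t : ℝ) (c : UT) : rev (flow t c) = flow (-t) (rev c) := by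
  apply Subtype.ext
  funext r
  simp only [flow_apply, rev_apply]
  exact congrArg c.1 (by ring)

theorem rev_rev (c : UT) : rev (rev c) = c := by
  apply Subtype.ext
  funext r
  simp only [rev_apply, neg_neg]

/-- A point of least displacement lies on an axis. -/
theorem axis_of_min {g : Γ} {z : ℍ} (hmin : ∀ z' : ℍ, dist z (g • z) ≤ dist z' (g • z'))
    (hne : g • z ≠ z) : ∃ c : UT, c.1 0 = z ∧ act g c = flow (dist z (g • z)) c := by
  set l := dist z (g • z) with hl
  have hl0 : 0 < l := dist_pos.2 hne.symm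
  obtain ⟨h, h1, h2⟩ := exists_smul_pair z (g • z)
  rw [← hl] at h2
  refine ⟨geod h, h1, ?_⟩
  have h0 : (flow l (geod h)).1 0 = (act g (geod h)).1 0 := by
    rw [flow_apply, act_apply, geod_apply, geod_apply, zero_add, h1, h2]
  symm
  apply line_eq_of_dist (a := l / 2) (b := l / 2) (by linarith) (by linarith) h0
  apply le_antisymm
  · refine (dist_triangle _ ((flow l (geod h)).1 0) _).trans ?_
    rw [h0]
    nth_rewrite 1 [← h0]
    rw [line_dist, line_dist]
    rw [abs_of_neg (by linarith), abs_of_neg (by linarith)]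
    linarith
  · have e1 : (flow l (geod h)).1 (-(l / 2)) = (geod h).1 (l / 2) := by
      rw [flow_apply]
      exact congrArg (geod h).1 (by ring)
    rw [e1, act_apply]
    have := hmin ((geod h).1 (l / 2))
    linarith

/-- The displacement of a point of an axis. -/
theorem dist_axis {g : Γ} {c : UT} {l : ℝ} (hl : 0 < l) (h : act g c = flow l c) (t : ℝ) :
    dist (c.1 t) (g • c.1 t) = l := by
  rw [← act_apply, h, flow_apply, line_dist, abs_of_neg (by linarith)]
  ring

theorem zpow_axis {g : Γ} {c : UT} {l : ℝ} (h : act g c = flow l c) (n : ℤ) :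
    act (g ^ n) c = flow (n * l) c := by
  have hinv : act g⁻¹ c = flow (-l) c := by
    have : act g (flow (-l) c) = c := by
      rw [act_flow, h, flow_flow]
      simp [flow_zero]
    nth_rewrite 1 [← this]
    rw [act_act, inv_mul_cancel, act_one]
  have hnat : ∀ (g : Γ) (l : ℝ), act g c = flow l c → ∀ n : ℕ, act (g ^ n) c = flow (n * l) c := by
    intro g l h n
    induction n with
    | zero => simp [act_one, flow_zero]
    | succ n ih =>
      rw [pow_succ, ← act_act, h, act_flow, ih, flow_flow]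
      congr 1
      push_cast
      ring
  cases n with
  | ofNat n =>
    have := hnat g l h n
    simpa using this
  | negSucc n =>
    have := hnat g⁻¹ (-l) hinv (n + 1)
    rw [zpow_negSucc, ← inv_pow, this]
    congr 1
    push_cast
    ring

namespace IsClosedSurface

variable (hΓ : IsClosedSurface Γ)
include hΓ

theorem exists_radius : ∃ r : ℝ, 0 < r ∧ ∀ z : ℍ, ∃ g : Γ, dist I (g • z) ≤ r := by
  obtain ⟨K, hK, h⟩ := hΓ.cocompact
  obtain ⟨r, hr⟩ := hK.isBounded.subset_closedBall I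
  refine ⟨max r 1, by positivity, fun z => ?_⟩
  obtain ⟨g, hg⟩ := h z
  refine ⟨g, le_trans ?_ (le_max_left _ _)⟩
  have := hr hg
  rwa [Metric.mem_closedBall, dist_comm] at this

theorem finite_ball (R : ℝ) : {g : Γ | ∃ z, dist I z ≤ R ∧ dist I (g • z) ≤ R}.Finite := by
  refine (hΓ.proper _ (isCompact_closedBall I R)).subset ?_
  rintro g ⟨z, h1, h2⟩
  exact ⟨z, by rwa [Metric.mem_closedBall, dist_comm], by rwa [Metric.mem_closedBall, dist_comm]⟩

theorem finite_disp (r R : ℝ) : {g : Γ | ∃ z, dist I z ≤ r ∧ dist z (g • z) ≤ R}.Finite := by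
  refine (hΓ.finite_ball (max r (r + R))).subset ?_
  rintro g ⟨z, h1, h2⟩
  refine ⟨z, h1.trans (le_max_left _ _), ?_⟩
  have := dist_triangle I z (g • z)
  exact (by linarith : dist I (g • z) ≤ r + R).trans (le_max_right _ _)

theorem eq_of_smul_eq {g h : Γ} {z : ℍ} (hz : g • z = h • z) : g = h := by
  have : (h⁻¹ * g) • z = z := by rw [mul_smul, hz, inv_smul_smul]
  have := hΓ.free _ _ this
  rwa [inv_mul_eq_one, eq_comm] at this

/-- In a conjugation invariant nonempty set there is an element of least displacement. -/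
theorem exists_min (B : Set Γ) (hB : B.Nonempty) (hconj : ∀ g ∈ B, ∀ h : Γ, h * g * h⁻¹ ∈ B) :
    ∃ g ∈ B, ∃ z : ℍ, ∀ g' ∈ B, ∀ z' : ℍ, dist z (g • z) ≤ dist z' (g' • z') := by
  obtain ⟨r, hr0, hr⟩ := hΓ.exists_radius
  obtain ⟨g₀, hg₀⟩ := hB
  obtain ⟨h₀, hh₀⟩ := hr I
  set z₀ := h₀ • I with hz₀
  set g₁ := h₀ * g₀ * h₀⁻¹ with hg₁
  have hg₁B : g₁ ∈ B := hconj _ hg₀ _
  set R := dist z₀ (g₁ • z₀) with hR
  set S : Set Γ := {g | g ∈ B ∧ ∃ z, dist I z ≤ r ∧ dist z (g • z) ≤ R} with hS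
  have hSfin : S.Finite := (hΓ.finite_disp r R).subset fun g hg => hg.2
  have hSne : S.Nonempty := ⟨g₁, hg₁B, z₀, hh₀, le_rfl⟩
  have hmin : ∀ g : Γ, ∃ z, dist I z ≤ r ∧ ∀ z', dist I z' ≤ r → dist z (g • z) ≤ dist z' (g • z') := by
    intro g
    have hc : IsCompact (Metric.closedBall I r) := isCompact_closedBall I r
    have hcont : ContinuousOn (fun z : ℍ => dist z (g • z)) (Metric.closedBall I r) :=
      (continuous_id.dist ((isometry_smul ℍ g).continuous)).continuousOn
    obtain ⟨z, hz, hz'⟩ := hc.exists_isMinOn ⟨z₀, by rwa [Metric.mem_closedBall, dist_comm]⟩ hcont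
    refine ⟨z, by rwa [Metric.mem_closedBall, dist_comm] at hz, fun z' hz2 => ?_⟩
    exact hz' (by rwa [Metric.mem_closedBall, dist_comm])
  choose f hf1 hf2 using hmin
  obtain ⟨g, hg, hgmin⟩ := Set.exists_min_image S (fun g => dist (f g) (g • f g)) hSfin hSne
  refine ⟨g, hg.1, f g, fun g' hg' z' => ?_⟩
  obtain ⟨h, hh⟩ := hr z'
  have e1 : dist (h • z') ((h * g' * h⁻¹) • (h • z')) = dist z' (g' • z') := by
    rw [mul_smul, mul_smul, inv_smul_smul, dist_smul]
  rw [← e1]
  by_cases hle : dist (h • z') ((h * g' * h⁻¹) • (h • z')) ≤ R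
  · have h3 : h * g' * h⁻¹ ∈ S := ⟨hconj _ hg' _, _, hh, hle⟩
    exact (hgmin _ h3).trans (hf2 _ _ hh)
  · push Not at hle
    have h3 : g₁ ∈ S := ⟨hg₁B, z₀, hh₀, le_rfl⟩
    exact ((hgmin _ h3).trans (hf2 _ _ hh₀)).trans hle.le

/-- There is a positive lower bound for the displacements of the nontrivial elements. -/
theorem exists_eps : ∃ ε : ℝ, 0 < ε ∧ ∀ g : Γ, g ≠ 1 → ∀ z : ℍ, ε ≤ dist z (g • z) := by
  by_cases hne : ∃ g : Γ, g ≠ 1
  · obtain ⟨g, hg, z, hz⟩ := hΓ.exists_min {g | g ≠ 1} hne (by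
      intro g hg h hh
      apply hg
      rw [mul_inv_eq_one] at hh
      exact mul_eq_left.1 hh)
    refine ⟨dist z (g • z), dist_pos.2 fun h => hg (hΓ.free _ _ h.symm), fun g' hg' z' => hz _ hg' _⟩
  · push Not at hne
    exact ⟨1, one_pos, fun g hg => absurd (hne g) hg⟩

/-- Every nontrivial element has an axis. -/
theorem exists_axis {g : Γ} (hg : g ≠ 1) : ∃ (c : UT) (l : ℝ), 0 < l ∧ act g c = flow l c := by
  obtain ⟨g', ⟨h, rfl⟩, z, hz⟩ := hΓ.exists_min {g' | ∃ h, g' = h * g * h⁻¹} ⟨g, 1, by simp⟩ (by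
    rintro _ ⟨h, rfl⟩ k
    exact ⟨k * h, by group⟩)
  have hne : (h * g * h⁻¹) • z ≠ z := fun he => by
    have h1 := hΓ.free _ _ he
    rw [mul_inv_eq_one] at h1
    exact hg (mul_eq_left.1 h1)
  obtain ⟨c, hc0, hc⟩ := axis_of_min (g := h * g * h⁻¹) (z := z) (fun z' => hz _ ⟨h, rfl⟩ _) hne
  refine ⟨act h⁻¹ c, _, dist_pos.2 hne.symm, ?_⟩
  rw [← act_flow, ← hc, act_act, act_act]
  congr 1
  group

end IsClosedSurface

end Pool.Agent.Y473.SA
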