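import Pool.Agent.Y473.SA.Simple
import Pool.Agent.Y473.SA.Cone

/-!
# Growth of the perturbations of simple Anosov representations along simple closed geodesics
-/

set_option autoImplicit false

open scoped MatrixGroups UpperHalfPlane Matrix Matrix.Norms.Operator
open UpperHalfPlane

namespace Pool.Agent.Y473.SA

variable {Γ : Subgroup SL(2, ℝ)} {d : ℕ}

theorem continuous_flow (t : ℝ) : Continuous (flow t) := by
  refine Continuous.subtype_mk (continuous_pi fun s => ?_) _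
  exact (continuous_apply (s + t)).comp continuous_subtype_val

theorem continuous_act (g : Γ) : Continuous (act g) :=
  Continuous.subtype_mk
    (continuous_pi fun s => (isometry_smul ℍ (g : SL(2, ℝ))).continuous.comp
      ((continuous_apply s).comp continuous_subtype_val)) _

theorem IsSimpleClosed.flow {c : UT} {l : ℝ} (h : IsSimpleClosed Γ c l) (t : ℝ) :
    IsSimpleClosed Γ (flow t c) l := by
  obtain ⟨h1, ⟨g, hg⟩, h3⟩ := h
  refine ⟨h1, ⟨g, ?_⟩, fun g s s' hs => ?_⟩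
  · rw [act_flow, hg, flow_flow, flow_flow, add_comm]
  · obtain ⟨n, hn⟩ := h3 g _ _ hs
    exact ⟨n, by linarith⟩

theorem IsSimpleClosed.act {c : UT} {l : ℝ} (h : IsSimpleClosed Γ c l) (k : Γ) :
    IsSimpleClosed Γ (act k c) l := by
  obtain ⟨h1, ⟨g, hg⟩, h3⟩ := h
  refine ⟨h1, ⟨k * g * k⁻¹, ?_⟩, fun g s s' hs => ?_⟩
  · rw [act_act, inv_mul_cancel_right, ← act_act, hg, act_flow]
  · apply h3 (k⁻¹ * g * k)
    rw [mul_smul, mul_smul]
    simp only [act_apply] at hs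
    rw [hs, inv_smul_smul]

theorem flow_mem {c : UT} (hc : c ∈ birmanSeries Γ) (t : ℝ) : flow t c ∈ birmanSeries Γ :=
  map_mem_closure (continuous_flow t) hc fun _ ⟨l, hl⟩ => ⟨l, hl.flow t⟩

theorem act_mem {c : UT} (hc : c ∈ birmanSeries Γ) (g : Γ) : act g c ∈ birmanSeries Γ :=
  map_mem_closure (continuous_act g) hc fun _ ⟨l, hl⟩ => ⟨l, hl.act g⟩

theorem isClosed_isometry : IsClosed {c : ℝ → ℍ | Isometry c} := by
  have : {c : ℝ → ℍ | Isometry c} = ⋂ s : ℝ, ⋂ t : ℝ, {c | dist (c s) (c t) = dist s t} := by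
    ext c
    simp only [Set.mem_ofPred_eq, Set.mem_iInter, isometry_iff_dist_eq]
  rw [this]
  exact isClosed_iInter fun s => isClosed_iInter fun t =>
    isClosed_eq ((continuous_apply s).dist (continuous_apply t)) continuous_const

theorem isCompact_UT (r : ℝ) : IsCompact {c : UT | dist I (c.1 0) ≤ r} := by
  have h1 : IsCompact (Set.pi Set.univ fun t : ℝ => Metric.closedBall I (r + |t|)) :=
    isCompact_univ_pi fun t => isCompact_closedBall I _
  have h2 := (isClosed_isometry.isClosedEmbedding_subtypeVal).isCompact_preimage h1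
  refine h2.of_isClosed_subset ?_ ?_
  · exact isClosed_le (continuous_const.dist ((continuous_apply 0).comp continuous_subtype_val))
      continuous_const
  · intro c hc
    rw [Set.mem_preimage, Set.mem_univ_pi]
    intro t
    rw [Metric.mem_closedBall, dist_comm]
    have h3 := dist_triangle I (c.1 0) (c.1 t)
    rw [line_dist] at h3
    have h4 : |(0 : ℝ) - t| = |t| := by rw [zero_sub, abs_neg]
    rw [h4] at h3
    have h5 : dist I (c.1 0) ≤ r := hc
    linarith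

theorem isCompact_K (r : ℝ) : IsCompact (birmanSeries Γ ∩ {c : UT | dist I (c.1 0) ≤ r}) :=
  (isCompact_UT r).inter_left isClosed_closure

/-- Comparison of a continuous family of norms with the standard norm. -/
theorem exists_norm_bounds {N : UT → Seminorm ℂ (Fin d → ℂ)} {K : Set UT} (hK : IsCompact K)
    (hN : ContinuousOn (fun p : UT × (Fin d → ℂ) => N p.1 p.2) (K ×ˢ Set.univ))
    (hpos : ∀ c ∈ K, ∀ v, N c v = 0 → v = 0) :
    ∃ m₀ M₀ : ℝ, 0 < m₀ ∧ 0 < M₀ ∧ ∀ c ∈ K, ∀ v, m₀ * ‖v‖ ≤ N c v ∧ N c v ≤ M₀ * ‖v‖ := by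
  have hKS : IsCompact (K ×ˢ Metric.sphere (0 : Fin d → ℂ) 1) := hK.prod (isCompact_sphere 0 1)
  have hc : ContinuousOn (fun p : UT × (Fin d → ℂ) => N p.1 p.2)
      (K ×ˢ Metric.sphere (0 : Fin d → ℂ) 1) :=
    hN.mono (Set.prod_mono le_rfl (Set.subset_univ _))
  obtain ⟨m₀, hm₀, hlow⟩ := hKS.exists_forall_le' hc (a := 0) (by
    rintro ⟨c, v⟩ ⟨h1, h2⟩
    refine lt_of_le_of_ne (apply_nonneg _ _) fun h => ?_
    have h3 : v = 0 := hpos c h1 v h.symm
    have h4 : dist v 0 = 1 := h2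
    rw [h3, dist_self] at h4
    exact zero_ne_one h4)
  obtain ⟨M₀, hup⟩ := hKS.exists_bound_of_continuousOn hc
  refine ⟨m₀, max M₀ 1, hm₀, by positivity, fun c hc v => ?_⟩
  by_cases hv : v = 0
  · rw [hv, map_zero, norm_zero, mul_zero, mul_zero]
    exact ⟨le_rfl, le_rfl⟩
  have hv0 : 0 < ‖v‖ := norm_pos_iff.2 hv
  set w := ((‖v‖ : ℂ)⁻¹) • v with hw
  have hw1 : w ∈ Metric.sphere (0 : Fin d → ℂ) 1 := by
    rw [mem_sphere_zero_iff_norm, hw, norm_smul, norm_inv, Complex.norm_real, norm_norm]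
    exact inv_mul_cancel₀ hv0.ne'
  have hvw : v = (‖v‖ : ℂ) • w := by
    rw [hw, smul_smul, mul_inv_cancel₀ (by exact_mod_cast hv0.ne'), one_smul]
  have hNv : N c v = ‖v‖ * N c w := by
    conv_lhs => rw [hvw]
    rw [map_smul_eq_mul, Complex.norm_real, norm_norm]
  have h1 : m₀ ≤ N c w := hlow (c, w) ⟨hc, hw1⟩
  have h2 : N c w ≤ M₀ := (le_abs_self _).trans (hup (c, w) ⟨hc, hw1⟩)
  rw [hNv, mul_comm m₀, mul_comm (max M₀ 1)]
  exact ⟨mul_le_mul_of_nonneg_left h1 hv0.le,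
    mul_le_mul_of_nonneg_left (h2.trans (le_max_left _ _)) hv0.le⟩

theorem rep_one (ρ : Rep Γ d) : ρ.1 1 = 1 := by
  have := ρ.2 1 1
  rw [mul_one] at this
  exact mul_eq_left.1 this.symm

theorem rep_inv (ρ : Rep Γ d) (g : Γ) : ρ.1 g⁻¹ = (ρ.1 g)⁻¹ :=
  eq_inv_of_mul_eq_one_left (by rw [← ρ.2, inv_mul_cancel, rep_one])

theorem rep_one' (ρ : Rep Γ d) : (ρ.1 1).1 = 1 := by
  rw [rep_one]
  rfl

theorem rep_mul' (ρ : Rep Γ d) (g h : Γ) : (ρ.1 (g * h)).1 = (ρ.1 g).1 * (ρ.1 h).1 := by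
  rw [ρ.2]
  rfl

theorem rep_mul_inv' (ρ : Rep Γ d) (g : Γ) : (ρ.1 g).1 * (ρ.1 g⁻¹).1 = 1 := by
  rw [← rep_mul', mul_inv_cancel, rep_one']

theorem rep_inv_mul' (ρ : Rep Γ d) (g : Γ) : (ρ.1 g⁻¹).1 * (ρ.1 g).1 = 1 := by
  rw [← rep_mul', inv_mul_cancel, rep_one']

theorem rep_pow' (ρ : Rep Γ d) (g : Γ) (n : ℕ) : (ρ.1 (g ^ n)).1 = (ρ.1 g).1 ^ n := by
  induction n with
  | zero => rw [pow_zero, pow_zero, rep_one']
  | succ n ih => rw [pow_succ, pow_succ, rep_mul', ih]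

/-- The data of a simple Anosov representation that are needed for the growth estimates. -/
theorem exists_data (hΓ : IsClosedSurface Γ) {ρ : Rep Γ d} {k : ℕ} (hk : 1 ≤ k) (hkd : k < d)
    (h : IsSimpleAnosov k ρ) {r : ℝ} (hr : ∀ z : ℍ, ∃ g : Γ, dist I (g • z) ≤ r) :
    ∃ (S : Set Γ) (ε T M' : ℝ), S.Finite ∧ 0 < ε ∧ 0 < T ∧ ∀ ρ' : Rep Γ d,
      (∀ g ∈ S, ‖(ρ'.1 g).1 - (ρ.1 g).1‖ < ε) → ∀ c ∈ birmanSeries Γ, dist I (c.1 0) ≤ r →
      ∃ h : ℕ → Γ, (∀ n : ℕ, dist I (h n • c.1 (n * T)) ≤ r) ∧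
        ∀ n, 4 ^ n ≤ M' * (‖(ρ'.1 (h n)).1‖ * ‖(ρ'.1 (h n)⁻¹).1‖) := by
  obtain ⟨P, N, C, a, hC, ha, hPc, hPk, hPρ, hPf, hNc, hN0, hNρ, hdom⟩ := h
  set K := birmanSeries Γ ∩ {c : UT | dist I (c.1 0) ≤ r} with hKdef
  have hK : IsCompact K := isCompact_K r
  have hKb : K ⊆ birmanSeries Γ := Set.inter_subset_left
  obtain ⟨M, hM⟩ := hK.exists_bound_of_continuousOn (hPc.mono hKb)
  obtain ⟨m₀, M₀, hm₀, hM₀, hNb⟩ := exists_norm_bounds hK (hNc.mono (Set.prod_mono hKb le_rfl))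
    fun c hc => hN0 c (hKb hc)
  -- the time `T`
  set Q := C * (M₀ / m₀) ^ 2 with hQ
  have hQ0 : 0 < Q := by positivity
  set T := 16 * Q / a + 1 with hT
  have hT0 : 0 < T := by positivity
  have hTQ : Q * Real.exp (-a * T) ≤ 1 / 16 := by
    have h1 := Real.add_one_le_exp (a * T)
    have h2 : a * T = 16 * Q + a := by
      rw [hT]
      field_simp
    have h3 : -a * T = -(a * T) := by ring
    rw [h3, Real.exp_neg, ← div_eq_mul_inv, div_le_iff₀ (Real.exp_pos _)]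
    linarith
  -- the finite set
  set S := {g : Γ | ∃ z, dist I z ≤ r + T ∧ dist I (g • z) ≤ r + T} with hS
  have hSfin : S.Finite := hΓ.finite_ball (r + T)
  obtain ⟨L, hL⟩ := (hSfin.image fun g => ‖(ρ.1 g⁻¹).1‖).bddAbove
  set L' := max L 1 with hL'
  have hL'0 : 0 < L' := lt_max_of_lt_right one_pos
  set M₁ := max M 1 with hM₁
  have hM₁0 : 0 < M₁ := lt_max_of_lt_right one_pos
  refine ⟨S, L'⁻¹ / (32 * (1 + M₁)), T, M₁ * (1 + M₁), hSfin, by positivity, hT0, ?_⟩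
  intro ρ' hρ' c hc hcr
  choose G hG using hr
  set H : ℕ → Γ := fun n => if n = 0 then 1 else G (c.1 (n * T)) with hH
  have hHr : ∀ n : ℕ, dist I (H n • c.1 (n * T)) ≤ r := by
    intro n
    by_cases hn : n = 0
    · subst hn
      simp only [hH, if_true, one_smul, Nat.cast_zero, zero_mul]
      exact hcr
    · simp only [hH, if_neg hn]
      exact hG _
  refine ⟨H, hHr, ?_⟩
  -- the sequence of the vectors
  set cs : ℕ → UT := fun n => act (H n) (flow (n * T) c) with hcs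
  have hcsK : ∀ n, cs n ∈ K := fun n => ⟨act_mem (flow_mem hc _) _, by
    simp only [hcs, Set.mem_ofPred_eq, act_apply, flow_apply, zero_add]
    exact hHr n⟩
  set g : ℕ → Γ := fun n => H (n + 1) * (H n)⁻¹ with hg
  have hnext : ∀ n, cs (n + 1) = act (g n) (flow T (cs n)) := by
    intro n
    simp only [hcs, hg]
    rw [← act_flow, act_act, inv_mul_cancel_right, flow_flow]
    congr 2
    push_cast
    ring
  have hgS : ∀ n, g n ∈ S := by
    intro n
    refine ⟨(flow T (cs n)).1 0, ?_, ?_⟩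
    · rw [flow_apply, zero_add]
      have h1 := dist_triangle I ((cs n).1 0) ((cs n).1 T)
      rw [line_dist, zero_sub, abs_neg, abs_of_pos hT0] at h1
      have h2 : dist I ((cs n).1 0) ≤ r := (hcsK n).2
      linarith
    · have h1 : dist I ((cs (n + 1)).1 0) ≤ r := (hcsK (n + 1)).2
      rw [hnext, act_apply] at h1
      linarith
  have hrank : ∀ n, P (cs n) ≠ 0 ∧ P (cs n) ≠ 1 := by
    intro n
    have h1 := (hPk _ (hKb (hcsK n))).2
    constructor
    · intro h0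
      rw [h0, Matrix.rank_zero] at h1
      omega
    · intro h0
      rw [h0, Matrix.rank_one, Fintype.card_fin] at h1
      omega
  refine cone_growth (m := L'⁻¹) (ε := L'⁻¹ / (32 * (1 + M₁))) (fun n => P (cs n))
    (fun n => (ρ.1 (g n)).1) (fun n => (ρ'.1 (g n)).1) (fun n => (ρ'.1 (H n)).1)
    (fun n => (ρ'.1 (H n)⁻¹).1) ?_ ?_ ?_ ?_ ?_ ?_ ?_
  · intro n
    have hKn := hcsK n
    have hKn' := hcsK (n + 1)
    refine ⟨(hM _ hKn').trans (le_max_left _ _), (hPk _ (hKb hKn)).1, ?_, ?_, ?_, ?_, ?_, ?_⟩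
    · rw [hnext, hPρ _ (flow_mem (hKb hKn) T), hPf _ (hKb hKn)]
    · intro v w hv hw
      have h1 := hdom _ (hKb hKn) v w hv hw T hT0.le
      have h2 : ∀ x, N (flow T (cs n)) x = N (cs (n + 1)) ((ρ.1 (g n)).1 *ᵥ x) := by
        intro x
        rw [hnext, hNρ _ (flow_mem (hKb hKn) T)]
      rw [h2, h2] at h1
      set Av := (ρ.1 (g n)).1 *ᵥ v
      set Aw := (ρ.1 (g n)).1 *ᵥ w
      have b1 := (hNb _ hKn' Aw).1
      have b2 := (hNb _ hKn v).1
      have b3 := (hNb _ hKn' Av).2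
      have b4 := (hNb _ hKn w).2
      have h3 : (m₀ * ‖Aw‖) * (m₀ * ‖v‖) ≤
          C * Real.exp (-a * T) * ((M₀ * ‖Av‖) * (M₀ * ‖w‖)) := by
        refine (mul_le_mul b1 b2 (by positivity) (apply_nonneg _ _)).trans (h1.trans ?_)
        apply mul_le_mul_of_nonneg_left _ (by positivity)
        exact mul_le_mul b3 b4 (apply_nonneg _ _) (by positivity)
      have h4 : ‖Aw‖ * ‖v‖ ≤ Q * Real.exp (-a * T) * (‖Av‖ * ‖w‖) := by
        have h5 : m₀ ^ 2 * (‖Aw‖ * ‖v‖) ≤ m₀ ^ 2 * (Q * Real.exp (-a * T) * (‖Av‖ * ‖w‖)) := by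
          have e1 : m₀ ^ 2 * (Q * Real.exp (-a * T) * (‖Av‖ * ‖w‖)) =
              C * Real.exp (-a * T) * ((M₀ * ‖Av‖) * (M₀ * ‖w‖)) := by
            rw [hQ]
            field_simp
          rw [e1]
          refine le_trans (le_of_eq ?_) h3
          ring
        exact le_of_mul_le_mul_left h5 (by positivity)
      exact h4.trans (mul_le_mul_of_nonneg_right hTQ (by positivity))
    · intro v
      have h1 : v = (ρ.1 (g n)⁻¹).1 *ᵥ ((ρ.1 (g n)).1 *ᵥ v) := by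
        rw [Matrix.mulVec_mulVec, rep_inv_mul', Matrix.one_mulVec]
      have h2 : ‖v‖ ≤ ‖(ρ.1 (g n)⁻¹).1‖ * ‖(ρ.1 (g n)).1 *ᵥ v‖ := by
        conv_lhs => rw [h1]
        exact Matrix.linfty_opNorm_mulVec _ _
      have h3 : ‖(ρ.1 (g n)⁻¹).1‖ ≤ L' := (hL ⟨g n, hgS n, rfl⟩).trans (le_max_left _ _)
      rw [inv_mul_le_iff₀ hL'0]
      exact h2.trans (mul_le_mul_of_nonneg_right h3 (norm_nonneg _))
    · exact (hρ' _ (hgS n)).le
    · positivity
    · apply le_of_eq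
      field_simp
      norm_num
  · exact (hM _ (hcsK 0)).trans (le_max_left _ _)
  · simp only [hH, if_true]
    exact rep_one' ρ'
  · intro n
    simp only [hg]
    rw [← rep_mul', inv_mul_cancel_right]
  · intro n
    exact rep_mul_inv' _ _
  · obtain ⟨x, hx⟩ : ∃ x, P (cs 0) *ᵥ x ≠ 0 := by
      by_contra hcon
      push Not at hcon
      apply (hrank 0).1
      apply Matrix.ext_of_mulVec_single
      intro i
      rw [hcon, Matrix.zero_mulVec]
    exact ⟨_, hx, by rw [Matrix.mulVec_mulVec, (hPk _ (hKb (hcsK 0))).1]⟩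
  · intro n
    obtain ⟨x, hx⟩ : ∃ x, x - P (cs n) *ᵥ x ≠ 0 := by
      by_contra hcon
      push Not at hcon
      apply (hrank n).2
      apply Matrix.ext_of_mulVec_single
      intro i
      rw [Matrix.one_mulVec, ← sub_eq_zero, ← neg_sub, hcon, neg_zero]
    exact ⟨_, hx, by
      rw [Matrix.mulVec_sub, Matrix.mulVec_mulVec, (hPk _ (hKb (hcsK n))).1, sub_self]⟩

end Pool.Agent.Y473.SA
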