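import Pool.Agent.Y473.SA.Defs

/-!
# Lines in the hyperbolic plane
-/

set_option autoImplicit false

open scoped MatrixGroups UpperHalfPlane Matrix
open UpperHalfPlane

namespace Pool.Agent.Y473.SA

/-- The point `i e^t`. -/
noncomputable def vp (t : ℝ) : ℍ := ⟨⟨0, Real.exp t⟩, Real.exp_pos t⟩

@[simp] theorem vp_re (t : ℝ) : (vp t).re = 0 := rfl
@[simp] theorem vp_im (t : ℝ) : (vp t).im = Real.exp t := rfl

theorem vp_isometry : Isometry vp := isometry_vertical_line 0

theorem vp_zero : vp 0 = UpperHalfPlane.I := by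
  apply UpperHalfPlane.ext_re_im
  · simp
  · simp

theorem smul_im (g : SL(2, ℝ)) (z : ℍ) :
    (g • z).im = z.im / ((g 1 0 * z.re + g 1 1) ^ 2 + (g 1 0 * z.im) ^ 2) := by
  have hdet : g 0 0 * g 1 1 - g 0 1 * g 1 0 = 1 := by
    have := g.det_coe
    rwa [Matrix.det_fin_two] at this
  have h := coe_specialLinearGroup_apply g z
  have h2 : (g • z).im = ((g • z : ℍ) : ℂ).im := rfl
  rw [h2, h, Complex.div_im]
  simp only [Algebra.algebraMap_self, RingHom.id_apply, Complex.add_im, Complex.mul_im, Complex.ofReal_re,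
    Complex.ofReal_im, Complex.add_re, Complex.mul_re, Complex.normSq_apply, coe_re, coe_im]
  rw [← sub_div]
  congr 1
  · linear_combination z.im * hdet
  · ring

theorem smul_re (g : SL(2, ℝ)) (z : ℍ) :
    (g • z).re = ((g 0 0 * z.re + g 0 1) * (g 1 0 * z.re + g 1 1) + g 0 0 * g 1 0 * z.im ^ 2) /
      ((g 1 0 * z.re + g 1 1) ^ 2 + (g 1 0 * z.im) ^ 2) := by
  have h := coe_specialLinearGroup_apply g z
  have h2 : (g • z).re = ((g • z : ℍ) : ℂ).re := rfl
  rw [h2, h, Complex.div_re]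
  simp only [Algebra.algebraMap_self, RingHom.id_apply, Complex.add_im, Complex.mul_im, Complex.ofReal_re,
    Complex.ofReal_im, Complex.add_re, Complex.mul_re, Complex.normSq_apply, coe_re, coe_im]
  rw [← add_div]
  congr 1 <;> ring

/-- A point is determined by its distances to two points of the vertical line, if these are as
for a point of the line. -/
theorem vp_unique {t₁ t₂ t : ℝ} (h : t₁ ≠ t₂) {w : ℍ} (h1 : dist w (vp t₁) = |t - t₁|)
    (h2 : dist w (vp t₂) = |t - t₂|) : w = vp t := by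
  have key : ∀ s, dist w (vp s) = |t - s| →
      w.re ^ 2 + w.im ^ 2 + Real.exp s ^ 2 = w.im * (Real.exp t + Real.exp s ^ 2 * (Real.exp t)⁻¹) := by
    intro s hs
    have h3 := cosh_dist' w (vp s)
    rw [hs, Real.cosh_abs, Real.cosh_eq] at h3
    simp only [vp_re, vp_im, sub_zero, neg_sub, Real.exp_sub] at h3
    have := w.im_pos
    have e1 := Real.exp_pos s
    have e2 := Real.exp_pos t
    field_simp at h3
    field_simp
    nlinarith [h3]
  have k1 := key t₁ h1
  have k2 := key t₂ h2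
  have e0 := Real.exp_pos t
  have hne : Real.exp t₁ ^ 2 - Real.exp t₂ ^ 2 ≠ 0 := by
    intro h0
    apply h
    have e1 := Real.exp_pos t₁
    have e2 := Real.exp_pos t₂
    have : Real.exp t₁ = Real.exp t₂ := by nlinarith
    exact Real.exp_injective this
  have him : w.im = Real.exp t := by
    have h3 : (Real.exp t₁ ^ 2 - Real.exp t₂ ^ 2) * (w.im * (Real.exp t)⁻¹ - 1) = 0 := by
      linear_combination k2 - k1
    have h4 := (mul_eq_zero.1 h3).resolve_left hne
    field_simp at h4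
    linarith
  have hre : w.re = 0 := by
    rw [him] at k1
    have : w.re ^ 2 = 0 := by
      field_simp at k1
      nlinarith [k1]
    exact pow_eq_zero_iff (two_ne_zero) |>.1 this
  apply UpperHalfPlane.ext_re_im
  · rw [hre]; rfl
  · rw [him]; rfl

/-- Rotations about `i` act transitively on the circles with centre `i`. -/
theorem exists_rot (w : ℍ) : ∃ k : SL(2, ℝ), k • vp 0 = vp 0 ∧ k • vp (dist (vp 0) w) = w := by
  set T := dist (vp 0) w with hT
  by_cases h0 : T = 0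
  · refine ⟨1, by simp, ?_⟩
    rw [h0, one_smul]
    exact dist_eq_zero.1 (hT ▸ h0)
  have hTpos : 0 < T := lt_of_le_of_ne dist_nonneg (Ne.symm h0)
  set lam := Real.exp T with hlam
  have hlam1 : 1 < lam := by rw [hlam]; exact Real.one_lt_exp_iff.2 hTpos
  set x := w.re with hx
  set y := w.im with hy
  have hy0 : 0 < y := w.im_pos
  have hcosh : x ^ 2 + 1 + y ^ 2 = y * (lam + lam⁻¹) := by
    have h3 := cosh_dist' (vp 0) w
    rw [← hT, Real.cosh_eq, Real.exp_neg, ← hlam] at h3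
    simp only [vp_re, vp_im, Real.exp_zero, ← hx, ← hy] at h3
    field_simp at h3
    field_simp
    nlinarith [h3]
  have hxx : x ^ 2 = (lam - y) * (y - lam⁻¹) := by
    have : lam * lam⁻¹ = 1 := mul_inv_cancel₀ (by positivity)
    nlinarith
  have hl1 : lam⁻¹ < 1 := inv_lt_one_of_one_lt₀ hlam1
  have hyl : y ≤ lam ∧ lam⁻¹ ≤ y := by
    by_contra hcon
    rw [not_and_or, not_le, not_le] at hcon
    have hxn := sq_nonneg x
    rcases hcon with hcon | hcon
    · nlinarith
    · nlinarith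
  obtain ⟨hy1, hy2⟩ := hyl
  have hll : 0 < lam ^ 2 - 1 := by nlinarith
  have hs0 : 0 ≤ (lam / y - 1) / (lam ^ 2 - 1) := by
    apply div_nonneg _ hll.le
    rw [sub_nonneg, le_div_iff₀ hy0]
    linarith
  have hc0 : 0 ≤ (lam ^ 2 - lam / y) / (lam ^ 2 - 1) := by
    apply div_nonneg _ hll.le
    rw [sub_nonneg, div_le_iff₀ hy0]
    have : lam ^ 2 * lam⁻¹ = lam := by field_simp
    nlinarith [mul_le_mul_of_nonneg_left hy2 (sq_nonneg lam)]
  set c := Real.sqrt ((lam ^ 2 - lam / y) / (lam ^ 2 - 1)) with hc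
  have hcsq : c ^ 2 = (lam ^ 2 - lam / y) / (lam ^ 2 - 1) := Real.sq_sqrt hc0
  have hcnn : 0 ≤ c := Real.sqrt_nonneg _
  obtain ⟨s, hssq, hsx⟩ : ∃ s : ℝ, s ^ 2 = (lam / y - 1) / (lam ^ 2 - 1) ∧ 0 ≤ s * x := by
    rcases le_total 0 x with h | h
    · exact ⟨_, Real.sq_sqrt hs0, mul_nonneg (Real.sqrt_nonneg _) h⟩
    · refine ⟨-Real.sqrt ((lam / y - 1) / (lam ^ 2 - 1)), by rw [neg_sq]; exact Real.sq_sqrt hs0, ?_⟩
      have := Real.sqrt_nonneg ((lam / y - 1) / (lam ^ 2 - 1))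
      nlinarith
  have hcs : c ^ 2 + s ^ 2 = 1 := by
    rw [hcsq, hssq]
    field_simp
    ring
  have hden : c ^ 2 + lam ^ 2 * s ^ 2 = lam / y := by
    rw [hcsq, hssq]
    field_simp
    ring
  have hre : s * c * (lam ^ 2 - 1) * y / lam = x := by
    have h1 : (s * c * (lam ^ 2 - 1) * y / lam) ^ 2 = x ^ 2 := by
      have : (s * c * (lam ^ 2 - 1) * y / lam) ^ 2 = s ^ 2 * c ^ 2 * (lam ^ 2 - 1) ^ 2 * y ^ 2 / lam ^ 2 := by
        ring
      rw [this, hssq, hcsq, hxx]
      field_simp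
    have h2 : 0 ≤ (s * c * (lam ^ 2 - 1) * y / lam) * x := by
      have : (s * c * (lam ^ 2 - 1) * y / lam) * x = (s * x) * (c * (lam ^ 2 - 1) * y / lam) := by ring
      rw [this]
      positivity
    rcases eq_or_eq_neg_of_sq_eq_sq _ _ h1 with h | h
    · exact h
    · rw [h] at h2
      have : x = 0 := by nlinarith
      rw [h, this]
      simp
  let k : SL(2, ℝ) := ⟨!![c, -s; s, c], by rw [Matrix.det_fin_two_of]; nlinarith⟩
  have k00 : (k : Matrix (Fin 2) (Fin 2) ℝ) 0 0 = c := rfl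
  have k01 : (k : Matrix (Fin 2) (Fin 2) ℝ) 0 1 = -s := rfl
  have k10 : (k : Matrix (Fin 2) (Fin 2) ℝ) 1 0 = s := rfl
  have k11 : (k : Matrix (Fin 2) (Fin 2) ℝ) 1 1 = c := rfl
  refine ⟨k, ?_, ?_⟩
  · apply UpperHalfPlane.ext_re_im
    · rw [smul_re, k00, k01, k10, k11]
      simp
      left
      ring
    · rw [smul_im, k10, k11, vp_re, vp_im, Real.exp_zero]
      have e1 : (s * 0 + c) ^ 2 + (s * 1) ^ 2 = 1 := by linear_combination hcs
      rw [e1, div_one]
  · apply UpperHalfPlane.ext_re_im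
    · rw [smul_re, k00, k01, k10, k11, vp_re, vp_im, ← hlam, ← hx]
      have e1 : (s * 0 + c) ^ 2 + (s * lam) ^ 2 = lam / y := by linear_combination hden
      rw [e1, ← hre]
      field_simp
      ring
    · rw [smul_im, k10, k11, vp_re, vp_im, ← hlam, ← hy]
      have e1 : (s * 0 + c) ^ 2 + (s * lam) ^ 2 = lam / y := by linear_combination hden
      rw [e1]
      field_simp

theorem exists_smul_pair (z w : ℍ) : ∃ h : SL(2, ℝ), h • vp 0 = z ∧ h • vp (dist z w) = w := by
  obtain ⟨k, hk1, hk2⟩ := exists_rot (z.toSL2R⁻¹ • w)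
  have h1 : z.toSL2R • vp 0 = z := by rw [vp_zero]; exact toSL2R_smul_I z
  have hd : dist (vp 0) (z.toSL2R⁻¹ • w) = dist z w := by
    rw [← dist_smul z.toSL2R (vp 0), h1, smul_inv_smul]
  refine ⟨z.toSL2R * k, ?_, ?_⟩
  · rw [mul_smul, hk1, h1]
  · rw [← hd, mul_smul, hk2, smul_inv_smul]

/-- The geodesic line with frame `h`. -/
noncomputable def geod (h : SL(2, ℝ)) : UT :=
  ⟨fun t => h • vp t, (isometry_smul ℍ h).comp vp_isometry⟩

theorem geod_apply (h : SL(2, ℝ)) (t : ℝ) : (geod h).1 t = h • vp t := rfl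

theorem line_dist (c : UT) (s t : ℝ) : dist (c.1 s) (c.1 t) = |s - t| := by
  rw [c.2.dist_eq, Real.dist_eq]

theorem exists_geod (c : UT) : ∃ h : SL(2, ℝ), c = geod h := by
  obtain ⟨h, h1, h2⟩ := exists_smul_pair (c.1 0) (c.1 1)
  have hd : dist (c.1 0) (c.1 1) = 1 := by rw [line_dist]; norm_num
  rw [hd] at h2
  refine ⟨h, ?_⟩
  apply Subtype.ext
  funext t
  have key : h⁻¹ • c.1 t = vp t := by
    apply vp_unique (t₁ := 0) (t₂ := 1) (by norm_num)
    · rw [← dist_smul h, smul_inv_smul, h1, line_dist]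
    · rw [← dist_smul h, smul_inv_smul, h2, line_dist]
  rw [geod_apply, ← key, smul_inv_smul]

theorem line_ext {c₁ c₂ : UT} {s t : ℝ} (hst : s ≠ t) (h1 : c₁.1 s = c₂.1 s)
    (h2 : c₁.1 t = c₂.1 t) : c₁ = c₂ := by
  obtain ⟨h, rfl⟩ := exists_geod c₂
  apply Subtype.ext
  funext r
  have key : h⁻¹ • c₁.1 r = vp r := by
    apply vp_unique hst
    · rw [← dist_smul h, smul_inv_smul, ← geod_apply, ← h1, line_dist]
    · rw [← dist_smul h, smul_inv_smul, ← geod_apply, ← h2, line_dist]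
  rw [geod_apply, ← key, smul_inv_smul]

/-- A broken line without a corner is a line. -/
theorem line_eq_of_dist {c₁ c₂ : UT} {a b : ℝ} (ha : 0 < a) (hb : 0 < b) (h0 : c₁.1 0 = c₂.1 0)
    (h : dist (c₁.1 (-a)) (c₂.1 b) = a + b) : c₁ = c₂ := by
  obtain ⟨g, rfl⟩ := exists_geod c₁
  have key : g⁻¹ • c₂.1 b = vp b := by
    apply vp_unique (t₁ := 0) (t₂ := -a) (by linarith)
    · rw [← dist_smul g, smul_inv_smul, ← geod_apply, h0, line_dist]
    · rw [← dist_smul g, smul_inv_smul, ← geod_apply, dist_comm, h, sub_neg_eq_add, abs_of_pos (by linarith)]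
      ring
  have h2 : (geod g).1 b = c₂.1 b := by rw [geod_apply, ← key, smul_inv_smul]
  exact line_ext hb.ne h0 h2

end Pool.Agent.Y473.SA
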