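import Pool.Agent.Y473.SA.OutFin

/-!
# Sets of automorphisms with bounded traces, second part
-/

set_option autoImplicit false

open scoped MatrixGroups UpperHalfPlane Matrix
open UpperHalfPlane

namespace Pool.Agent.Y473.SA

variable {Γ : Subgroup SL(2, ℝ)}

theorem solve2 {x y lam mu κ L M : ℝ} (hκ : 0 < κ) (h : κ ≤ |lam - mu|) (h1 : |lam| ≤ L)
    (h2 : |mu| ≤ L) (h3 : |x + y| ≤ M) (h4 : |lam * x + mu * y| ≤ M) :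
    |x| ≤ (1 + L) * M / κ ∧ |y| ≤ (1 + L) * M / κ := by
  have hM : 0 ≤ M := (abs_nonneg _).trans h3
  constructor
  · rw [le_div_iff₀ hκ]
    have e1 : (lam - mu) * x = (lam * x + mu * y) - mu * (x + y) := by ring
    have e2 : |x| * κ ≤ |x| * |lam - mu| := mul_le_mul_of_nonneg_left h (abs_nonneg _)
    have e3 : |x| * |lam - mu| = |(lam - mu) * x| := by rw [abs_mul, mul_comm]
    have e4 : |(lam * x + mu * y) - mu * (x + y)| ≤ |lam * x + mu * y| + |mu * (x + y)| := abs_sub _ _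
    have e5 : |mu * (x + y)| ≤ L * M := by
      rw [abs_mul]
      exact mul_le_mul h2 h3 (abs_nonneg _) ((abs_nonneg _).trans h2)
    rw [e1] at e3
    nlinarith
  · rw [le_div_iff₀ hκ]
    have e1 : (lam - mu) * y = lam * (x + y) - (lam * x + mu * y) := by ring
    have e2 : |y| * κ ≤ |y| * |lam - mu| := mul_le_mul_of_nonneg_left h (abs_nonneg _)
    have e3 : |y| * |lam - mu| = |(lam - mu) * y| := by rw [abs_mul, mul_comm]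
    have e4 : |lam * (x + y) - (lam * x + mu * y)| ≤ |lam * (x + y)| + |lam * x + mu * y| := abs_sub _ _
    have e5 : |lam * (x + y)| ≤ L * M := by
      rw [abs_mul]
      exact mul_le_mul h1 h3 (abs_nonneg _) ((abs_nonneg _).trans h1)
    rw [e1] at e3
    nlinarith

theorem diag_conj {d : SL(2, ℝ)} {μ : ℝ} (d00 : d 0 0 = μ) (d11 : d 1 1 = μ⁻¹)
    (d01 : d 0 1 = 0) (d10 : d 1 0 = 0) (hμ : μ ≠ 0) (B : SL(2, ℝ)) :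
    (d⁻¹ * B * d) 0 0 = B 0 0 ∧ (d⁻¹ * B * d) 0 1 = B 0 1 * (μ⁻¹) ^ 2 ∧
      (d⁻¹ * B * d) 1 0 = B 1 0 * μ ^ 2 ∧ (d⁻¹ * B * d) 1 1 = B 1 1 := by
  obtain ⟨i00, i01, i10, i11⟩ := sl_inv_apply d
  simp only [sl_mul_apply, i00, i01, i10, i11, d00, d01, d10, d11]
  refine ⟨?_, ?_, ?_, ?_⟩ <;> field_simp <;> ring

/-- Conjugation by a diagonal matrix makes the off-diagonal entries of equal size. -/
theorem exists_balance (B : SL(2, ℝ)) (hb : B 0 1 * B 1 0 ≠ 0) :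
    ∃ μ : ℝ, μ ≠ 0 ∧ ∃ d : SL(2, ℝ), d 0 0 = μ ∧ d 1 1 = μ⁻¹ ∧ d 0 1 = 0 ∧ d 1 0 = 0 ∧
      |(d⁻¹ * B * d) 0 1| = |(d⁻¹ * B * d) 1 0| := by
  set b := B 0 1
  set c := B 1 0
  have hb0 : b ≠ 0 := left_ne_zero_of_mul hb
  have hc0 : c ≠ 0 := right_ne_zero_of_mul hb
  set μ := Real.sqrt (Real.sqrt (|b| / |c|)) with hμ
  have hq : 0 < |b| / |c| := div_pos (abs_pos.2 hb0) (abs_pos.2 hc0)
  have hμ0 : 0 < μ := Real.sqrt_pos.2 (Real.sqrt_pos.2 hq)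
  have hμ4 : μ ^ 4 = |b| / |c| := by
    have h1 : μ ^ 2 = Real.sqrt (|b| / |c|) := Real.sq_sqrt (Real.sqrt_nonneg _)
    have h2 : μ ^ 4 = (μ ^ 2) ^ 2 := by ring
    rw [h2, h1, Real.sq_sqrt hq.le]
  let d : SL(2, ℝ) := ⟨!![μ, 0; 0, μ⁻¹], by rw [Matrix.det_fin_two_of]; field_simp; ring⟩
  refine ⟨μ, hμ0.ne', d, rfl, rfl, rfl, rfl, ?_⟩
  obtain ⟨-, h1, h2, -⟩ := diag_conj (d := d) (μ := μ) rfl rfl rfl rfl hμ0.ne' B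
  rw [h1, h2, abs_mul, abs_mul, abs_of_pos (by positivity : 0 < (μ⁻¹) ^ 2),
    abs_of_pos (by positivity : 0 < μ ^ 2)]
  change |b| * (μ⁻¹) ^ 2 = |c| * μ ^ 2
  have hc1 : |c| ≠ 0 := abs_ne_zero.2 hc0
  field_simp at hμ4 ⊢
  linarith

/-- The normal form of a pair of elements which do not commute. -/
theorem IsClosedSurface.normal_form (hΓ : IsClosedSurface Γ) : ∃ κ ν : ℝ, 0 < κ ∧ 0 < ν ∧
    ∀ a b : Γ, a * b * a⁻¹ * b⁻¹ ≠ 1 → ∃ (p : SL(2, ℝ)) (lam : ℝ), κ ≤ |lam - lam⁻¹| ∧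
      |lam| ≤ |tr a| ∧ |lam⁻¹| ≤ |tr a| ∧ (p⁻¹ * a * p) 0 0 = lam ∧ (p⁻¹ * a * p) 1 1 = lam⁻¹ ∧
      (p⁻¹ * a * p) 0 1 = 0 ∧ (p⁻¹ * a * p) 1 0 = 0 ∧
      |(p⁻¹ * b * p) 0 1| = |(p⁻¹ * b * p) 1 0| ∧
      ν ≤ (2 * |tr a|) ^ 2 * ((p⁻¹ * b * p) 0 1) ^ 2 := by
  obtain ⟨ε, hε, hgap, hdiag⟩ := hΓ.trace_gap
  refine ⟨2 * Real.sinh (ε / 2), 2 * Real.cosh (ε / 2) - 2, ?_, ?_, ?_⟩
  · have := Real.sinh_pos_iff.2 (by linarith : 0 < ε / 2)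
    linarith
  · have := Real.one_lt_cosh.2 (by linarith : ε / 2 ≠ 0)
    linarith
  intro a b hab
  have ha : a ≠ 1 := by
    rintro rfl
    apply hab
    simp
  obtain ⟨p, lam, h1, h2, h3, h00, h11, h01, h10⟩ := hdiag a ha
  -- the trace of the commutator
  have hlam0 : lam ≠ 0 := by
    rintro rfl
    have := Real.sinh_pos_iff.2 (by linarith : 0 < ε / 2)
    simp only [inv_zero, sub_zero, abs_zero] at h1
    linarith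
  have hcomm : tr ((a : SL(2, ℝ)) * b * (a : SL(2, ℝ))⁻¹ * (b : SL(2, ℝ))⁻¹) =
      2 - (lam - lam⁻¹) ^ 2 * ((p⁻¹ * b * p) 0 1 * (p⁻¹ * b * p) 1 0) := by
    rw [← tr_conj p]
    have e1 : p⁻¹ * ((a : SL(2, ℝ)) * b * (a : SL(2, ℝ))⁻¹ * (b : SL(2, ℝ))⁻¹) * p =
        (p⁻¹ * a * p) * (p⁻¹ * b * p) * (p⁻¹ * a * p)⁻¹ * (p⁻¹ * b * p)⁻¹ := by group
    rw [e1]
    set A := p⁻¹ * (a : SL(2, ℝ)) * p
    set B := p⁻¹ * (b : SL(2, ℝ)) * p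
    obtain ⟨i1, i2, i3, i4⟩ := sl_inv_apply A
    obtain ⟨j1, j2, j3, j4⟩ := sl_inv_apply B
    have hdet := sl_det B
    rw [tr_eq]
    simp only [sl_mul_apply]
    rw [i1, i2, i3, i4, j1, j2, j3, j4, h00, h11, h01, h10]
    have h5 : lam * lam⁻¹ = 1 := mul_inv_cancel₀ hlam0
    linear_combination (2 * lam * lam⁻¹) * hdet + (2 + 2 * (B 0 1 * B 1 0)) * h5 - 2 * B 0 1 * B 1 0 * h5
  have hgap' := hgap _ hab
  have e2 : ((a * b * a⁻¹ * b⁻¹ : Γ) : SL(2, ℝ)) = (a : SL(2, ℝ)) * b * (a : SL(2, ℝ))⁻¹ * (b : SL(2, ℝ))⁻¹ := by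
    simp
  rw [e2, hcomm] at hgap'
  have hbc : 2 * Real.cosh (ε / 2) - 2 ≤ (lam - lam⁻¹) ^ 2 * |(p⁻¹ * b * p) 0 1 * (p⁻¹ * b * p) 1 0| := by
    have e3 := abs_sub (2 : ℝ) ((lam - lam⁻¹) ^ 2 * ((p⁻¹ * b * p) 0 1 * (p⁻¹ * b * p) 1 0))
    rw [abs_mul ((lam - lam⁻¹) ^ 2), abs_of_nonneg (sq_nonneg (lam - lam⁻¹)), abs_two] at e3
    linarith
  have hpos : 0 < 2 * Real.cosh (ε / 2) - 2 := by
    have := Real.one_lt_cosh.2 (by linarith : ε / 2 ≠ 0)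
    linarith
  have hne : (p⁻¹ * b * p) 0 1 * (p⁻¹ * b * p) 1 0 ≠ 0 := by
    intro h
    rw [h, abs_zero, mul_zero] at hbc
    linarith
  obtain ⟨μ, hμ, d, d00, d11, d01, d10, hbal⟩ := exists_balance _ hne
  have hca : (p * d)⁻¹ * a * (p * d) = d⁻¹ * (p⁻¹ * a * p) * d := by group
  have hcb : (p * d)⁻¹ * b * (p * d) = d⁻¹ * (p⁻¹ * b * p) * d := by group
  obtain ⟨i1, i2, i3, i4⟩ := diag_conj d00 d11 d01 d10 hμ (p⁻¹ * a * p)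
  obtain ⟨j1, j2, j3, j4⟩ := diag_conj d00 d11 d01 d10 hμ (p⁻¹ * b * p)
  have hprod : (d⁻¹ * (p⁻¹ * b * p) * d) 0 1 * (d⁻¹ * (p⁻¹ * b * p) * d) 1 0 =
      (p⁻¹ * b * p) 0 1 * (p⁻¹ * b * p) 1 0 := by
    rw [j2, j3]
    field_simp
  refine ⟨p * d, lam, h1, h2, h3, ?_, ?_, ?_, ?_, ?_, ?_⟩
  · rw [hca, i1, h00]
  · rw [hca, i4, h11]
  · rw [hca, i2, h01, zero_mul]
  · rw [hca, i3, h10, zero_mul]
  · rw [hcb, hbal]
  · rw [hcb]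
    have e4 : |(p⁻¹ * b * p) 0 1 * (p⁻¹ * b * p) 1 0| = ((d⁻¹ * (p⁻¹ * b * p) * d) 0 1) ^ 2 := by
      rw [← hprod, abs_mul, ← hbal, ← sq, sq_abs]
    rw [e4] at hbc
    refine hbc.trans ?_
    apply mul_le_mul_of_nonneg_right _ (sq_nonneg _)
    rw [← sq_abs (lam - lam⁻¹)]
    apply pow_le_pow_left₀ (abs_nonneg _)
    exact (abs_sub _ _).trans (by linarith)

end Pool.Agent.Y473.SA
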