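import Pool.Agent.Y473.SA.Block
import Pool.Agent.Y473.SA.OutFin2

/-!
# The block sum representation with `j` blocks is simple `j`-Anosov
-/

set_option autoImplicit false

open scoped MatrixGroups UpperHalfPlane Matrix
open UpperHalfPlane

namespace Pool.Agent.Y473.SA

variable {Γ : Subgroup SL(2, ℝ)} {d j m : ℕ} (e : (Fin 2 × Fin j) ⊕ Fin m ≃ Fin d)

/-- The complex structure attached to a point of the hyperbolic plane. -/
noncomputable def cs (z : ℍ) : Matrix (Fin 2) (Fin 2) ℝ :=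
  !![z.re / z.im, -((z.re ^ 2 + z.im ^ 2) / z.im); 1 / z.im, -(z.re / z.im)]

/-- The scalar product attached to a point of the hyperbolic plane is `v ↦ |M v|²`. -/
noncomputable def sq (z : ℍ) : Matrix (Fin 2) (Fin 2) ℝ :=
  !![1 / Real.sqrt z.im, -(z.re / Real.sqrt z.im); 0, Real.sqrt z.im]

theorem coords (h : SL(2, ℝ)) (t : ℝ) :
    (h • vp t).re / (h • vp t).im =
      (h 0 1 * h 1 1 + h 0 0 * h 1 0 * Real.exp t ^ 2) / Real.exp t ∧
    ((h • vp t).re ^ 2 + (h • vp t).im ^ 2) / (h • vp t).im =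
      ((h 0 1) ^ 2 + (h 0 0) ^ 2 * Real.exp t ^ 2) / Real.exp t ∧
    1 / (h • vp t).im = ((h 1 1) ^ 2 + (h 1 0) ^ 2 * Real.exp t ^ 2) / Real.exp t := by
  have h1 := smul_im h (vp t)
  have h2 := smul_re h (vp t)
  have hdet := sl_det h
  rw [vp_re, vp_im, mul_zero, zero_add] at h1 h2
  rw [mul_zero, zero_add, mul_pow] at h2
  rw [mul_pow] at h1
  have h3 : (h 1 1) ^ 2 + (h 1 0) ^ 2 * Real.exp t ^ 2 ≠ 0 := by
    intro h4
    rw [h4, div_zero] at h1
    exact (h • vp t).im_pos.ne' h1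
  have he := Real.exp_pos t
  rw [h1, h2]
  set E := Real.exp t
  set a := h 0 0
  set b := h 0 1
  set c := h 1 0
  set f := h 1 1
  obtain ⟨D, hD⟩ : ∃ D, D = f ^ 2 + c ^ 2 * E ^ 2 := ⟨_, rfl⟩
  rw [← hD] at h3 ⊢
  have hkey : (b * f + a * c * E ^ 2) ^ 2 + E ^ 2 = (b ^ 2 + a ^ 2 * E ^ 2) * D := by
    rw [hD]
    linear_combination (-(a * f - b * c + 1) * E ^ 2) * hdet
  refine ⟨?_, ?_, ?_⟩
  · field_simp
  · rw [div_pow, div_pow, ← add_div, hkey]
    field_simp
  · field_simp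

theorem inv_eta (h : SL(2, ℝ)) : (h⁻¹).1 = !![h 1 1, -h 0 1; -h 1 0, h 0 0] := by
  obtain ⟨i1, i2, i3, i4⟩ := sl_inv_apply h
  ext i i'
  fin_cases i <;> fin_cases i'
  · exact i1
  · exact i2
  · exact i3
  · exact i4

theorem cs_geod (h : SL(2, ℝ)) (t : ℝ) :
    cs (h • vp t) = h.1 * !![0, -Real.exp t; Real.exp (-t), 0] * (h⁻¹).1 := by
  obtain ⟨h1, h2, h3⟩ := coords h t
  have he := Real.exp_pos t
  rw [inv_eta, Matrix.eta_fin_two h.1, cs, h1, h2, h3, Real.exp_neg]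
  set E := Real.exp t
  set a := h 0 0
  set b := h 0 1
  set c := h 1 0
  set f := h 1 1
  ext i i'
  fin_cases i <;> fin_cases i'
  · simp
    field_simp
  · simp
    field_simp
    ring
  · simp
    field_simp
  · simp
    field_simp
    ring

theorem sq_gram (z : ℍ) : (sq z)ᵀ * sq z = !![1 / z.im, -(z.re / z.im); -(z.re / z.im),
    (z.re ^ 2 + z.im ^ 2) / z.im] := by
  have him := z.im_pos
  have hs : z.im = Real.sqrt z.im * Real.sqrt z.im := (Real.mul_self_sqrt him.le).symm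
  have hs0 : Real.sqrt z.im ≠ 0 := (Real.sqrt_pos.2 him).ne'
  rw [sq]
  set s := Real.sqrt z.im
  rw [hs]
  ext i i'
  fin_cases i <;> fin_cases i'
  · simp [Matrix.mul_apply, Fin.sum_univ_two]
  · simp [Matrix.mul_apply, Fin.sum_univ_two]
    field_simp
  · simp [Matrix.mul_apply, Fin.sum_univ_two]
    field_simp
  · simp [Matrix.mul_apply, Fin.sum_univ_two]
    field_simp

theorem sq_geod (h : SL(2, ℝ)) (t : ℝ) : (sq (h • vp t))ᵀ * sq (h • vp t) =
    ((h⁻¹).1)ᵀ * (!![Real.exp (-t), 0; 0, Real.exp t] * (h⁻¹).1) := by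
  obtain ⟨h1, h2, h3⟩ := coords h t
  have he := Real.exp_pos t
  rw [sq_gram, inv_eta, h1, h2, h3, Real.exp_neg]
  set E := Real.exp t
  set a := h 0 0
  set b := h 0 1
  set c := h 1 0
  set f := h 1 1
  ext i i'
  fin_cases i <;> fin_cases i'
  · simp [Matrix.mul_apply, Fin.sum_univ_two]
    field_simp
  · simp [Matrix.mul_apply, Fin.sum_univ_two]
    field_simp
    ring
  · simp [Matrix.mul_apply, Fin.sum_univ_two]
    field_simp
    ring
  · simp [Matrix.mul_apply, Fin.sum_univ_two]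
    field_simp

theorem anti_mul (a b c f : ℝ) :
    (!![0, a; b, 0] * !![0, c; f, 0] : Matrix (Fin 2) (Fin 2) ℝ) = !![a * f, 0; 0, b * c] := by
  ext i i'
  fin_cases i <;> fin_cases i' <;> simp [Matrix.mul_apply, Fin.sum_univ_two]

theorem diag_sq (a b : ℝ) :
    (!![a, 0; 0, b]ᵀ * !![a, 0; 0, b] : Matrix (Fin 2) (Fin 2) ℝ) = !![a * a, 0; 0, b * b] := by
  ext i i'
  fin_cases i <;> fin_cases i' <;> simp [Matrix.mul_apply, Fin.sum_univ_two]

/-- The projection to the expanding direction, with kernel the contracting direction. -/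
noncomputable def pj (c : UT) : Matrix (Fin 2) (Fin 2) ℝ :=
  (Real.exp 1 - Real.exp (-1))⁻¹ • (Real.exp 1 • (1 : Matrix (Fin 2) (Fin 2) ℝ) + cs (c.1 1) * cs (c.1 0))

theorem pj_flow (h : SL(2, ℝ)) (t : ℝ) :
    pj (flow t (geod h)) = h.1 * !![0, 0; 0, 1] * (h⁻¹).1 := by
  have hh : (h⁻¹).1 * h.1 = 1 := by
    have : (h⁻¹ * h).1 = (h⁻¹).1 * h.1 := rfl
    rw [← this, inv_mul_cancel]
    rfl
  have hh' : h.1 * (h⁻¹).1 = 1 := by
    have : (h * h⁻¹).1 = h.1 * (h⁻¹).1 := rfl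
    rw [← this, mul_inv_cancel]
    rfl
  rw [pj, flow_apply, flow_apply, geod_apply, geod_apply, cs_geod, cs_geod]
  have e1 : h.1 * !![0, -Real.exp (1 + t); Real.exp (-(1 + t)), 0] * (h⁻¹).1 *
      (h.1 * !![0, -Real.exp (0 + t); Real.exp (-(0 + t)), 0] * (h⁻¹).1) =
      h.1 * !![-Real.exp 1, 0; 0, -Real.exp (-1)] * (h⁻¹).1 := by
    calc _ = h.1 * !![0, -Real.exp (1 + t); Real.exp (-(1 + t)), 0] * ((h⁻¹).1 * h.1) *
          !![0, -Real.exp (0 + t); Real.exp (-(0 + t)), 0] * (h⁻¹).1 := by noncomm_ring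
      _ = h.1 * (!![0, -Real.exp (1 + t); Real.exp (-(1 + t)), 0] *
          !![0, -Real.exp (0 + t); Real.exp (-(0 + t)), 0]) * (h⁻¹).1 := by
          rw [hh, mul_one]; noncomm_ring
      _ = _ := by
        have e2 : (!![0, -Real.exp (1 + t); Real.exp (-(1 + t)), 0] *
            !![0, -Real.exp (0 + t); Real.exp (-(0 + t)), 0] : Matrix (Fin 2) (Fin 2) ℝ) =
            !![-Real.exp 1, 0; 0, -Real.exp (-1)] := by
          have a1 : -Real.exp (1 + t) * Real.exp (-(0 + t)) = -Real.exp 1 := by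
            rw [neg_mul, ← Real.exp_add]
            congr 2
            ring
          have a2 : Real.exp (-(1 + t)) * -Real.exp (0 + t) = -Real.exp (-1) := by
            rw [mul_neg, ← Real.exp_add]
            congr 2
            ring
          rw [anti_mul, a1, a2]
        rw [e2]
  rw [e1]
  have e3 : Real.exp 1 • (1 : Matrix (Fin 2) (Fin 2) ℝ) + h.1 * !![-Real.exp 1, 0; 0, -Real.exp (-1)] * (h⁻¹).1 =
      h.1 * (Real.exp 1 • (1 : Matrix (Fin 2) (Fin 2) ℝ) + !![-Real.exp 1, 0; 0, -Real.exp (-1)]) * (h⁻¹).1 := by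
    rw [mul_add, add_mul, Matrix.mul_smul, Matrix.smul_mul, mul_one, hh']
  have e4 : Real.exp 1 • (1 : Matrix (Fin 2) (Fin 2) ℝ) + !![-Real.exp 1, 0; 0, -Real.exp (-1)] =
      (Real.exp 1 - Real.exp (-1)) • !![0, 0; 0, 1] := by
    ext i i'
    fin_cases i <;> fin_cases i' <;> simp
    ring
  have e5 : Real.exp 1 - Real.exp (-1) ≠ 0 := by
    have : Real.exp (-1) < Real.exp 1 := Real.exp_lt_exp.2 (by norm_num)
    linarith
  rw [e3, e4, Matrix.mul_smul, Matrix.smul_mul, smul_smul, inv_mul_cancel₀ e5, one_smul]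

theorem pj_geod (h : SL(2, ℝ)) : pj (geod h) = h.1 * !![0, 0; 0, 1] * (h⁻¹).1 := by
  have := pj_flow h 0
  rwa [flow_zero] at this

theorem continuous_cs : Continuous cs := by
  have h1 : Continuous fun z : ℍ => z.re := UpperHalfPlane.continuous_re
  have h2 : Continuous fun z : ℍ => z.im := UpperHalfPlane.continuous_im
  have h3 : ∀ z : ℍ, z.im ≠ 0 := fun z => z.im_pos.ne'
  refine continuous_matrix fun i i' => ?_
  fin_cases i <;> fin_cases i'
  · exact h1.div h2 h3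
  · exact (((h1.pow 2).add (h2.pow 2)).div h2 h3).neg
  · exact continuous_const.div h2 h3
  · exact (h1.div h2 h3).neg

theorem continuous_sq : Continuous sq := by
  have h1 : Continuous fun z : ℍ => z.re := UpperHalfPlane.continuous_re
  have h2 : Continuous fun z : ℍ => Real.sqrt z.im := Real.continuous_sqrt.comp UpperHalfPlane.continuous_im
  have h3 : ∀ z : ℍ, Real.sqrt z.im ≠ 0 := fun z => (Real.sqrt_pos.2 z.im_pos).ne'
  refine continuous_matrix fun i i' => ?_
  fin_cases i <;> fin_cases i'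
  · exact continuous_const.div h2 h3
  · exact (h1.div h2 h3).neg
  · exact continuous_const
  · exact h2

theorem continuous_eval (t : ℝ) : Continuous fun c : UT => c.1 t :=
  (continuous_apply t).comp continuous_subtype_val

theorem continuous_pj : Continuous pj := by
  unfold pj
  refine continuous_matrix fun i i' => ?_
  have h1 : Continuous fun c : UT => Real.exp 1 • (1 : Matrix (Fin 2) (Fin 2) ℝ) +
      cs (c.1 1) * cs (c.1 0) :=
    continuous_const.add ((continuous_cs.comp (continuous_eval 1)).mul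
      (continuous_cs.comp (continuous_eval 0)))
  exact continuous_const.mul (h1.matrix_elem i i')

theorem continuous_cm {X : Type*} [TopologicalSpace X] {f : X → Matrix (Fin 2) (Fin 2) ℝ}
    (hf : Continuous f) : Continuous fun x => cm (f x) :=
  Continuous.matrix_map hf Complex.continuous_ofReal

/-- The Euclidean norm. -/
noncomputable def l2 (v : Fin d → ℂ) : ℝ := ‖(WithLp.toLp 2 v : EuclideanSpace ℂ (Fin d))‖

theorem l2_gram {A A' : Matrix (Fin d) (Fin d) ℂ} (h : Aᴴ * A = A'ᴴ * A') (v : Fin d → ℂ) :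
    l2 (A *ᵥ v) = l2 (A' *ᵥ v) := by
  have key : ∀ X : Matrix (Fin d) (Fin d) ℂ, l2 (X *ᵥ v) ^ 2 = (star v ⬝ᵥ ((Xᴴ * X) *ᵥ v)).re := by
    intro X
    rw [l2, ← inner_self_eq_norm_sq (𝕜 := ℂ), EuclideanSpace.inner_toLp_toLp, dotProduct_comm,
      Matrix.star_mulVec, ← Matrix.dotProduct_mulVec, Matrix.mulVec_mulVec]
    rfl
  have h1 : l2 (A *ᵥ v) ^ 2 = l2 (A' *ᵥ v) ^ 2 := by rw [key, key, h]
  exact (pow_left_inj₀ (norm_nonneg _) (norm_nonneg _) two_ne_zero).1 h1

theorem l2_smul (c : ℂ) (v : Fin d → ℂ) : l2 (c • v) = ‖c‖ * l2 v := by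
  rw [l2, l2, WithLp.toLp_smul, norm_smul]

theorem l2_diagonal_le {w : Fin d → ℂ} (hw : ∀ i, ‖w i‖ ≤ 1) (v : Fin d → ℂ) :
    l2 (Matrix.diagonal w *ᵥ v) ≤ l2 v := by
  rw [l2, l2, EuclideanSpace.norm_eq, EuclideanSpace.norm_eq]
  apply Real.sqrt_le_sqrt
  apply Finset.sum_le_sum
  intro i _
  change ‖(Matrix.diagonal w *ᵥ v) i‖ ^ 2 ≤ ‖v i‖ ^ 2
  rw [Matrix.mulVec_diagonal, norm_mul]
  apply pow_le_pow_left₀ (by positivity)
  have := mul_le_mul_of_nonneg_right (hw i) (norm_nonneg (v i))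
  rwa [one_mul] at this

/-- The family of norms. -/
noncomputable def nrm (c : UT) : Seminorm ℂ (Fin d → ℂ) :=
  (normSeminorm ℂ (EuclideanSpace ℂ (Fin d))).comp
    ((WithLp.linearEquiv 2 ℂ (Fin d → ℂ)).symm.toLinearMap ∘ₗ
      Matrix.mulVecLin (blk e (cm (sq (c.1 0))) 1))

theorem nrm_apply (c : UT) (v : Fin d → ℂ) :
    nrm e c v = l2 (blk e (cm (sq (c.1 0))) 1 *ᵥ v) := rfl

theorem cm_conjTranspose (A : Matrix (Fin 2) (Fin 2) ℝ) : (cm A)ᴴ = cm Aᵀ := by
  ext i i'
  exact Complex.conj_ofReal _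

theorem nrm_flow (h : SL(2, ℝ)) (t : ℝ) (v : Fin d → ℂ) : nrm e (flow t (geod h)) v =
    l2 (blk e (cm !![Real.exp (-(t / 2)), 0; 0, Real.exp (t / 2)]) 1 *ᵥ (blk e (cm (h⁻¹).1) 1 *ᵥ v)) := by
  rw [nrm_apply, flow_apply, geod_apply, zero_add, Matrix.mulVec_mulVec]
  apply l2_gram
  rw [blk_mul, blk_conjTranspose, blk_conjTranspose, blk_mul, blk_mul, ← cm_mul, cm_conjTranspose,
    cm_conjTranspose, ← cm_mul, ← cm_mul, sq_geod]
  have a1 : Real.exp (-(t / 2)) * Real.exp (-(t / 2)) = Real.exp (-t) := by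
    rw [← Real.exp_add]
    congr 1
    ring
  have a2 : Real.exp (t / 2) * Real.exp (t / 2) = Real.exp t := by
    rw [← Real.exp_add]
    congr 1
    ring
  have e1 : (!![Real.exp (-(t / 2)), 0; 0, Real.exp (t / 2)] * (h⁻¹).1)ᵀ *
      (!![Real.exp (-(t / 2)), 0; 0, Real.exp (t / 2)] * (h⁻¹).1) =
      ((h⁻¹).1)ᵀ * (!![Real.exp (-t), 0; 0, Real.exp t] * (h⁻¹).1) := by
    rw [← a1, ← a2, ← diag_sq, Matrix.transpose_mul]
    noncomm_ring
  rw [e1, mul_one (1 : ℂ)]

theorem det_cm_sl (h : SL(2, ℝ)) : (cm h.1).det = 1 := by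
  rw [cm_det, h.2]
  exact Complex.ofReal_one

/-- The number of the indices where the diagonal matrix `dg 0 1 0` does not vanish. -/
theorem rank_blk : (blk e !![0, 0; 0, 1] 0).rank = j := by
  rw [blk_diagonal, Matrix.rank_diagonal]
  have h1 : ∀ x : (Fin 2 × Fin j) ⊕ Fin m, dg e 0 1 0 (e x) ≠ 0 ↔ ∃ i : Fin j, x = Sum.inl (1, i) := by
    intro x
    unfold dg
    rw [Function.comp_apply, Equiv.symm_apply_apply]
    rcases x with ⟨a, i⟩ | b
    · fin_cases a <;> simp
    · simp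
  let f : Fin j ≃ {i // dg e 0 1 0 i ≠ 0} :=
    Equiv.ofBijective (fun i => ⟨e (Sum.inl (1, i)), (h1 _).2 ⟨i, rfl⟩⟩) ⟨by
      intro i i' h
      have h2 := e.injective (congrArg Subtype.val h)
      simpa using h2, by
      rintro ⟨y, hy⟩
      obtain ⟨x, rfl⟩ := e.surjective y
      obtain ⟨i, rfl⟩ := (h1 x).1 hy
      exact ⟨i, rfl⟩⟩
  rw [← Fintype.card_congr f, Fintype.card_fin]

theorem sigma_anosov : IsSimpleAnosov j (sigma e Γ) := by
  have hE : cm (!![0, 0; 0, 1] : Matrix (Fin 2) (Fin 2) ℝ) = !![0, 0; 0, 1] := by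
    ext i i'
    fin_cases i <;> fin_cases i' <;> simp [cm]
  -- the projection in a frame
  have hP : ∀ (h : SL(2, ℝ)) (t : ℝ), blk e (cm (pj (flow t (geod h)))) 0 =
      blk e (cm h.1) 1 * blk e !![0, 0; 0, 1] 0 * blk e (cm (h⁻¹).1) 1 := by
    intro h t
    rw [pj_flow, blk_mul, blk_mul, cm_mul, cm_mul, hE]
    simp
  have hEE : blk e !![0, 0; 0, 1] 0 * blk e !![0, 0; 0, 1] 0 = blk e !![0, 0; 0, 1] 0 := by
    rw [blk_mul]
    congr 1
    · ext i i'
      fin_cases i <;> fin_cases i' <;> simp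
    · simp
  have hinv : ∀ h : SL(2, ℝ), blk e (cm (h⁻¹).1) 1 * blk e (cm h.1) 1 = 1 := by
    intro h
    rw [blk_mul, cm_inv_mul, one_mul, blk_one]
  have hinv' : ∀ h : SL(2, ℝ), blk e (cm h.1) 1 * blk e (cm (h⁻¹).1) 1 = 1 := by
    intro h
    rw [blk_mul, cm_mul_inv, one_mul, blk_one]
  have hP0 : ∀ h : SL(2, ℝ), blk e (cm (pj (geod h))) 0 =
      blk e (cm h.1) 1 * blk e !![0, 0; 0, 1] 0 * blk e (cm (h⁻¹).1) 1 := by
    intro h
    have := hP h 0
    rwa [flow_zero] at this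
  have hact : ∀ (g : Γ) (h : SL(2, ℝ)), act g (geod h) = geod (g.1 * h) := by
    intro g h
    apply Subtype.ext
    funext t
    rw [act_apply, geod_apply, geod_apply, mul_smul]
    rfl
  refine ⟨fun c => blk e (cm (pj c)) 0, nrm e, 1, 1 / 2, one_pos, by norm_num, ?_, ?_, ?_, ?_, ?_,
    ?_, ?_, ?_⟩
  · exact (continuous_blk e (continuous_cm continuous_pj) 0).continuousOn
  · intro c _
    obtain ⟨h, rfl⟩ := exists_geod c
    constructor
    · change blk e (cm (pj (geod h))) 0 * blk e (cm (pj (geod h))) 0 = blk e (cm (pj (geod h))) 0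
      rw [hP0]
      set B := blk e (cm h.1) 1
      set B' := blk e (cm (h⁻¹).1) 1
      set E := blk e !![0, 0; 0, 1] 0
      calc B * E * B' * (B * E * B') = B * E * (B' * B) * E * B' := by noncomm_ring
        _ = B * (E * E) * B' := by rw [hinv, mul_one]; noncomm_ring
        _ = _ := by rw [hEE]
    · change (blk e (cm (pj (geod h))) 0).rank = j
      rw [hP0, Matrix.rank_mul_eq_left_of_isUnit_det, Matrix.rank_mul_eq_right_of_isUnit_det, rank_blk]
      · rw [det_blk e _ _ (det_cm_sl h) rfl]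
        exact isUnit_one
      · rw [det_blk e _ _ (det_cm_sl h⁻¹) rfl]
        exact isUnit_one
  · intro c _ g
    obtain ⟨h, rfl⟩ := exists_geod c
    rw [sigma_val, hact]
    change blk e (cm (pj (geod (g.1 * h)))) 0 * _ = _ * blk e (cm (pj (geod h))) 0
    rw [hP0, hP0]
    have e1 : blk e (cm (g.1 * h).1) 1 = blk e (cm g.1.1) 1 * blk e (cm h.1) 1 := by
      rw [blk_mul, cm_sl, one_mul]
    have e2 : blk e (cm ((g.1 * h)⁻¹).1) 1 * blk e (cm g.1.1) 1 = blk e (cm (h⁻¹).1) 1 := by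
      rw [blk_mul, ← cm_sl, one_mul]
      congr 2
      rw [mul_inv_rev, inv_mul_cancel_right]
    rw [e1, mul_assoc _ _ (blk e (cm g.1.1) 1), e2]
    noncomm_ring
  · intro c _ t
    obtain ⟨h, rfl⟩ := exists_geod c
    change blk e (cm (pj (flow t (geod h)))) 0 = blk e (cm (pj (geod h))) 0
    rw [hP, hP0]
  · refine Continuous.continuousOn ?_
    change Continuous fun p : UT × (Fin d → ℂ) => l2 (blk e (cm (sq (p.1.1 0))) 1 *ᵥ p.2)
    have h1 : Continuous fun p : UT × (Fin d → ℂ) => blk e (cm (sq (p.1.1 0))) 1 :=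
      continuous_blk e (continuous_cm (continuous_sq.comp ((continuous_eval 0).comp continuous_fst))) 1
    have h2 : Continuous fun p : UT × (Fin d → ℂ) => blk e (cm (sq (p.1.1 0))) 1 *ᵥ p.2 :=
      h1.matrix_mulVec continuous_snd
    exact ((PiLp.continuous_toLp 2 _).comp h2).norm
  · intro c _ v hv
    obtain ⟨h, rfl⟩ := exists_geod c
    have h1 := nrm_flow e h 0 v
    rw [flow_zero, hv] at h1
    have h2 : cm !![Real.exp (-(0 / 2)), 0; 0, Real.exp (0 / 2)] = 1 := by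
      ext i i'
      fin_cases i <;> fin_cases i' <;> simp [cm]
    rw [h2, blk_one, Matrix.one_mulVec] at h1
    have h3 : blk e (cm (h⁻¹).1) 1 *ᵥ v = 0 := by
      have h4 := norm_eq_zero.1 h1.symm
      exact congrArg WithLp.ofLp h4
    have h5 := congrArg (fun x => blk e (cm h.1) 1 *ᵥ x) h3
    simpa only [Matrix.mulVec_mulVec, hinv', Matrix.one_mulVec, Matrix.mulVec_zero] using h5
  · intro c _ g v
    obtain ⟨h, rfl⟩ := exists_geod c
    have h1 := nrm_flow e h 0 v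
    have h2 := nrm_flow e (g.1 * h) 0 (((sigma e Γ).1 g).1 *ᵥ v)
    rw [flow_zero] at h1 h2
    rw [hact, h1, h2, sigma_val, Matrix.mulVec_mulVec v]
    congr 3
    rw [blk_mul, ← cm_sl, one_mul]
    congr 2
    rw [mul_inv_rev, inv_mul_cancel_right]
  · intro c _ v w hv hw t ht
    obtain ⟨h, rfl⟩ := exists_geod c
    have hv' : blk e (cm (pj (geod h))) 0 *ᵥ v = v := hv
    have hw' : blk e (cm (pj (geod h))) 0 *ᵥ w = 0 := hw
    set u := blk e (cm (h⁻¹).1) 1 *ᵥ v with hu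
    set u' := blk e (cm (h⁻¹).1) 1 *ᵥ w with hu'
    have hEu : blk e !![0, 0; 0, 1] 0 *ᵥ u = u := by
      have h1 := congrArg (fun x => blk e (cm (h⁻¹).1) 1 *ᵥ x) hv'
      simp only [Matrix.mulVec_mulVec] at h1
      rw [hP0, ← mul_assoc, ← mul_assoc, hinv, one_mul, ← Matrix.mulVec_mulVec] at h1
      exact h1
    have hEu' : blk e !![0, 0; 0, 1] 0 *ᵥ u' = 0 := by
      have h1 := congrArg (fun x => blk e (cm (h⁻¹).1) 1 *ᵥ x) hw'
      simp only [Matrix.mulVec_mulVec, Matrix.mulVec_zero] at h1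
      rw [hP0, ← mul_assoc, ← mul_assoc, hinv, one_mul, ← Matrix.mulVec_mulVec] at h1
      exact h1
    have hsplit : ∀ s : ℝ, blk e (cm !![Real.exp (-(s / 2)), 0; 0, Real.exp (s / 2)]) 1 =
        blk e !![(Real.exp (-(s / 2)) : ℂ), 0; 0, 0] 1 +
          (Real.exp (s / 2) : ℂ) • blk e !![0, 0; 0, 1] 0 := by
      intro s
      rw [← blk_smul, ← blk_add]
      congr 1
      · ext i i'
        fin_cases i <;> fin_cases i' <;> simp [cm]
      · simp
    have hEE2 : ∀ s : ℝ, blk e !![(Real.exp (-(s / 2)) : ℂ), 0; 0, 0] 1 *ᵥ u = 0 := by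
      intro s
      rw [← hEu, Matrix.mulVec_mulVec, blk_mul]
      have e1 : (!![(Real.exp (-(s / 2)) : ℂ), 0; 0, 0] : Matrix (Fin 2) (Fin 2) ℂ) * !![0, 0; 0, 1] = 0 := by
        ext i i'
        fin_cases i <;> fin_cases i' <;> simp
      have e2 : blk e 0 0 = 0 := by
        have := blk_smul e 0 0 0
        rw [zero_smul, zero_mul, zero_smul] at this
        exact this
      rw [e1, mul_zero, e2, Matrix.zero_mulVec]
    have n1 : ∀ s : ℝ, nrm e (flow s (geod h)) v = Real.exp (s / 2) * l2 u := by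
      intro s
      rw [nrm_flow, ← hu, hsplit, Matrix.add_mulVec, hEE2, zero_add, Matrix.smul_mulVec, hEu,
        l2_smul, Complex.norm_real, Real.norm_of_nonneg (Real.exp_pos _).le]
    have n2 : ∀ s : ℝ, nrm e (flow s (geod h)) w =
        l2 (blk e !![(Real.exp (-(s / 2)) : ℂ), 0; 0, 0] 1 *ᵥ u') := by
      intro s
      rw [nrm_flow, ← hu', hsplit, Matrix.add_mulVec, Matrix.smul_mulVec, hEu', smul_zero, add_zero]
    have n3 : nrm e (geod h) w = l2 u' := by
      have h1 := nrm_flow e h 0 w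
      have h2 : cm !![Real.exp (-(0 / 2)), 0; 0, Real.exp (0 / 2)] = 1 := by
        ext i i'
        fin_cases i <;> fin_cases i' <;> simp [cm]
      rw [h2, blk_one, Matrix.one_mulVec, flow_zero] at h1
      exact h1
    have n4 : nrm e (geod h) v = l2 u := by
      have h1 := n1 0
      rw [flow_zero, zero_div, Real.exp_zero, one_mul] at h1
      exact h1
    have n5 : nrm e (flow t (geod h)) w ≤ l2 u' := by
      rw [n2, blk_diagonal]
      apply l2_diagonal_le
      intro i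
      unfold dg
      rw [Function.comp_apply]
      have h6 : ‖(Real.exp (-(t / 2)) : ℂ)‖ ≤ 1 := by
        rw [Complex.norm_real, Real.norm_of_nonneg (Real.exp_pos _).le]
        exact Real.exp_le_one_iff.2 (by linarith)
      rcases e.symm i with ⟨a, b⟩ | b
      · fin_cases a
        · exact h6
        · change ‖(0 : ℂ)‖ ≤ 1
          rw [norm_zero]
          exact zero_le_one
      · change ‖(1 : ℂ)‖ ≤ 1
        rw [norm_one]
    rw [n3, n4, n1]
    have h7 : Real.exp (-(1 / 2) * t) * Real.exp (t / 2) = 1 := by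
      have h9 : -(1 / 2) * t + t / 2 = 0 := by ring
      rw [← Real.exp_add, h9, Real.exp_zero]
    have h8 : 0 ≤ l2 u := norm_nonneg _
    calc nrm e (flow t (geod h)) w * l2 u ≤ l2 u' * l2 u := mul_le_mul_of_nonneg_right n5 h8
      _ = (Real.exp (-(1 / 2) * t) * Real.exp (t / 2)) * (l2 u' * l2 u) := by rw [h7, one_mul]
      _ = _ := by ring

end Pool.Agent.Y473.SA
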