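import Pool.Agent.Y473.SA.Block
import Pool.Agent.Y473.SA.OutFin2

/-!
# The block sum representation is completely reducible
-/

set_option autoImplicit false

open scoped MatrixGroups UpperHalfPlane Matrix
open UpperHalfPlane

namespace Pool.Agent.Y473.SA

variable {Γ : Subgroup SL(2, ℝ)} {d j m : ℕ} (e : (Fin 2 × Fin j) ⊕ Fin m ≃ Fin d)

theorem unit_two {z : ℂ} (h1 : z⁻¹ - z ≠ 0) (h2 : z⁻¹ - 1 ≠ 0) :
    ((z⁻¹ - z)⁻¹ * (z⁻¹ - 1)⁻¹) • ((!![z, 0; 0, z⁻¹] + -z • (1 : Matrix (Fin 2) (Fin 2) ℂ)) *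
      (!![z, 0; 0, z⁻¹] + (-1 : ℂ) • (1 : Matrix (Fin 2) (Fin 2) ℂ))) = !![0, 0; 0, 1] := by
  have e1 : (z⁻¹ - z)⁻¹ * (z⁻¹ - 1)⁻¹ * ((z⁻¹ - z) * (z⁻¹ - 1)) = 1 := by
    rw [mul_mul_mul_comm, inv_mul_cancel₀ h1, inv_mul_cancel₀ h2, one_mul]
  rw [sub_eq_add_neg, sub_eq_add_neg] at e1 ⊢
  ext i i'
  fin_cases i <;> fin_cases i' <;> simp [Matrix.mul_apply, Fin.sum_univ_two]
  exact e1

theorem unit_one {z : ℂ} (h1 : z - z⁻¹ ≠ 0) (h2 : z - 1 ≠ 0) :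
    ((z - z⁻¹)⁻¹ * (z - 1)⁻¹) • ((!![z, 0; 0, z⁻¹] + -z⁻¹ • (1 : Matrix (Fin 2) (Fin 2) ℂ)) *
      (!![z, 0; 0, z⁻¹] + (-1 : ℂ) • (1 : Matrix (Fin 2) (Fin 2) ℂ))) = !![1, 0; 0, 0] := by
  have e1 : (z - z⁻¹)⁻¹ * (z - 1)⁻¹ * ((z - z⁻¹) * (z - 1)) = 1 := by
    rw [mul_mul_mul_comm, inv_mul_cancel₀ h1, inv_mul_cancel₀ h2, one_mul]
  rw [sub_eq_add_neg, sub_eq_add_neg] at e1 ⊢
  ext i i'
  fin_cases i <;> fin_cases i' <;> simp [Matrix.mul_apply, Fin.sum_univ_two]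
  exact e1

theorem unit_zero : (1 : Matrix (Fin 2) (Fin 2) ℂ) + ((-1 : ℂ) • !![1, 0; 0, 0] +
    (-1 : ℂ) • !![0, 0; 0, 1]) = 0 := by
  ext i i'
  fin_cases i <;> fin_cases i' <;> simp

theorem unit_onetwo {H : Matrix (Fin 2) (Fin 2) ℂ} (h : H 0 1 ≠ 0) :
    (H 0 1)⁻¹ • (!![1, 0; 0, 0] * H * !![0, 0; 0, 1]) = !![0, 1; 0, 0] := by
  rw [Matrix.eta_fin_two H]
  ext i i'
  fin_cases i <;> fin_cases i' <;> simp
  exact inv_mul_cancel₀ h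

theorem unit_twoone {H : Matrix (Fin 2) (Fin 2) ℂ} (h : H 1 0 ≠ 0) :
    (H 1 0)⁻¹ • (!![0, 0; 0, 1] * H * !![1, 0; 0, 0]) = !![0, 0; 1, 0] := by
  rw [Matrix.eta_fin_two H]
  ext i i'
  fin_cases i <;> fin_cases i' <;> simp
  exact inv_mul_cancel₀ h

theorem unit_sum (X : Matrix (Fin 2) (Fin 2) ℂ) (δ : ℂ) :
    X 0 0 • !![1, 0; 0, 0] + X 0 1 • !![0, 1; 0, 0] + X 1 0 • !![0, 0; 1, 0] +
      X 1 1 • !![0, 0; 0, 1] + δ • (0 : Matrix (Fin 2) (Fin 2) ℂ) = X := by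
  ext i i'
  fin_cases i <;> fin_cases i' <;> simp

/-- A subspace invariant under the block sum representation is invariant under all block
matrices. -/
theorem invariant_all (hΓ : IsClosedSurface Γ) (W : Submodule ℂ (Fin d → ℂ))
    (hW : ∀ g : Γ, ∀ w ∈ W, ((sigma e Γ).1 g).1 *ᵥ w ∈ W) (A : Matrix (Fin 2) (Fin 2) ℂ) (δ : ℂ) :
    ∀ w ∈ W, blk e A δ *ᵥ w ∈ W := by
  obtain ⟨a, b, hab⟩ := hΓ.exists_not_comm
  obtain ⟨κ, ν, hκ, hν, hnf⟩ := hΓ.normal_form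
  obtain ⟨p, lam, h1, -, -, h00, h11, h01, h10, hbal, hlow⟩ := hnf a b hab
  set Q : Matrix (Fin 2) (Fin 2) ℂ → ℂ → Prop := fun X δ =>
    ∀ w ∈ W, blk e (cm p.1 * X * cm (p⁻¹).1) δ *ᵥ w ∈ W with hQ
  have Qmul : ∀ {X X' : Matrix (Fin 2) (Fin 2) ℂ} {δ δ' : ℂ}, Q X δ → Q X' δ' → Q (X * X') (δ * δ') := by
    intro X X' δ δ' h h' w hw
    have e1 : cm p.1 * (X * X') * cm (p⁻¹).1 =
        (cm p.1 * X * cm (p⁻¹).1) * (cm p.1 * X' * cm (p⁻¹).1) := by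
      calc cm p.1 * (X * X') * cm (p⁻¹).1 = cm p.1 * X * 1 * X' * cm (p⁻¹).1 := by noncomm_ring
        _ = cm p.1 * X * (cm (p⁻¹).1 * cm p.1) * X' * cm (p⁻¹).1 := by rw [cm_inv_mul]
        _ = _ := by noncomm_ring
    rw [e1, ← blk_mul, ← Matrix.mulVec_mulVec]
    exact h _ (h' _ hw)
  have Qadd : ∀ {X X' : Matrix (Fin 2) (Fin 2) ℂ} {δ δ' : ℂ}, Q X δ → Q X' δ' → Q (X + X') (δ + δ') := by
    intro X X' δ δ' h h' w hw
    have e1 : cm p.1 * (X + X') * cm (p⁻¹).1 =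
        (cm p.1 * X * cm (p⁻¹).1) + (cm p.1 * X' * cm (p⁻¹).1) := by noncomm_ring
    rw [e1, blk_add, Matrix.add_mulVec]
    exact W.add_mem (h _ hw) (h' _ hw)
  have Qsmul : ∀ (c : ℂ) {X : Matrix (Fin 2) (Fin 2) ℂ} {δ : ℂ}, Q X δ → Q (c • X) (c * δ) := by
    intro c X δ h w hw
    have e1 : cm p.1 * (c • X) * cm (p⁻¹).1 = c • (cm p.1 * X * cm (p⁻¹).1) := by
      rw [Matrix.mul_smul, Matrix.smul_mul]
    rw [e1, blk_smul, Matrix.smul_mulVec]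
    exact W.smul_mem _ (h _ hw)
  have Qg : ∀ g : Γ, Q (cm (p⁻¹ * g * p).1) 1 := by
    intro g w hw
    have e1 : cm p.1 * cm (p⁻¹ * g * p).1 * cm (p⁻¹).1 = cm g.1.1 := by
      rw [← cm_sl, ← cm_sl]
      congr 2
      group
    rw [e1]
    exact hW g w hw
  have Q1 : Q 1 1 := by
    intro w hw
    rw [mul_one, cm_mul_inv, blk_one, Matrix.one_mulVec]
    exact hw
  have hlam0 : lam ≠ 0 := by
    rintro rfl
    simp at h1
    linarith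
  have hlam1 : lam ≠ lam⁻¹ := by
    intro h
    rw [← h, sub_self, abs_zero] at h1
    linarith
  have hlam2 : lam ≠ 1 := by
    rintro rfl
    simp at hlam1
  set z : ℂ := (lam : ℂ) with hz
  have hz0 : z ≠ 0 := by rw [hz]; exact_mod_cast hlam0
  have hz1 : z - z⁻¹ ≠ 0 := by
    rw [sub_ne_zero, hz]
    exact_mod_cast hlam1
  have hz2 : z - 1 ≠ 0 := by
    rw [sub_ne_zero, hz]
    exact_mod_cast hlam2
  have hz3 : z⁻¹ - 1 ≠ 0 := by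
    rw [sub_ne_zero]
    intro h
    apply hz2
    rw [inv_eq_one] at h
    rw [h, sub_self]
  have hD : cm (p⁻¹ * a * p).1 = !![z, 0; 0, z⁻¹] := by
    ext i i'
    fin_cases i <;> fin_cases i'
    · change ((p⁻¹ * a * p) 0 0 : ℂ) = _
      rw [h00]
      rfl
    · change ((p⁻¹ * a * p) 0 1 : ℂ) = _
      rw [h01]
      simp
    · change ((p⁻¹ * a * p) 1 0 : ℂ) = _
      rw [h10]
      simp
    · change ((p⁻¹ * a * p) 1 1 : ℂ) = _
      rw [h11, Complex.ofReal_inv]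
      rfl
  have QD := Qg a
  rw [hD] at QD
  -- the matrix units
  have hz1' : z⁻¹ - z ≠ 0 := by
    rw [← neg_sub]
    exact neg_ne_zero.2 hz1
  have QE2 : Q !![0, 0; 0, 1] 0 := by
    have h5 := Qsmul ((z⁻¹ - z)⁻¹ * (z⁻¹ - 1)⁻¹) (Qmul (Qadd QD (Qsmul (-z) Q1)) (Qadd QD (Qsmul (-1) Q1)))
    rw [unit_two hz1' hz3, mul_one (-1 : ℂ), add_neg_cancel, mul_zero, mul_zero] at h5
    exact h5
  have QE1 : Q !![1, 0; 0, 0] 0 := by
    have h5 := Qsmul ((z - z⁻¹)⁻¹ * (z - 1)⁻¹) (Qmul (Qadd QD (Qsmul (-z⁻¹) Q1)) (Qadd QD (Qsmul (-1) Q1)))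
    rw [unit_one hz1 hz2, mul_one (-1 : ℂ), add_neg_cancel, mul_zero, mul_zero] at h5
    exact h5
  have Q01 : Q 0 1 := by
    have h5 := Qadd Q1 (Qadd (Qsmul (-1) QE1) (Qsmul (-1) QE2))
    rw [unit_zero, mul_zero, add_zero, add_zero] at h5
    exact h5
  have hν2 : (p⁻¹ * b * p) 0 1 ≠ 0 := by
    intro h
    rw [h] at hlow
    simp at hlow
    linarith
  have hν3 : (p⁻¹ * b * p) 1 0 ≠ 0 := by
    intro h
    rw [h, abs_zero] at hbal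
    exact hν2 (abs_eq_zero.1 hbal)
  set H := cm (p⁻¹ * b * p).1 with hH
  have hH01 : H 0 1 ≠ 0 := by
    change ((p⁻¹ * b * p) 0 1 : ℂ) ≠ 0
    exact_mod_cast hν2
  have hH10 : H 1 0 ≠ 0 := by
    change ((p⁻¹ * b * p) 1 0 : ℂ) ≠ 0
    exact_mod_cast hν3
  have QH : Q H 1 := Qg b
  have QE12 : Q !![0, 1; 0, 0] 0 := by
    have h5 := Qsmul (H 0 1)⁻¹ (Qmul (Qmul QE1 QH) QE2)
    rw [unit_onetwo hH01, mul_zero, mul_zero] at h5
    exact h5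
  have QE21 : Q !![0, 0; 1, 0] 0 := by
    have h5 := Qsmul (H 1 0)⁻¹ (Qmul (Qmul QE2 QH) QE1)
    rw [unit_twoone hH10, mul_zero, mul_zero] at h5
    exact h5
  set X := cm (p⁻¹).1 * A * cm p.1 with hX
  have QX : Q X δ := by
    have h5 := Qadd (Qadd (Qadd (Qadd (Qsmul (X 0 0) QE1) (Qsmul (X 0 1) QE12)) (Qsmul (X 1 0) QE21))
      (Qsmul (X 1 1) QE2)) (Qsmul δ Q01)
    rw [unit_sum, mul_zero, mul_zero, mul_zero, mul_zero, add_zero, add_zero, add_zero, zero_add,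
      mul_one] at h5
    exact h5
  have hXA : cm p.1 * X * cm (p⁻¹).1 = A := by
    calc cm p.1 * X * cm (p⁻¹).1 = (cm p.1 * cm (p⁻¹).1) * A * (cm p.1 * cm (p⁻¹).1) := by
          rw [hX]; noncomm_ring
      _ = A := by rw [cm_mul_inv, one_mul, mul_one]
  intro w hw
  have := QX w hw
  rwa [hXA] at this

/-- The block sum representation is completely reducible. -/
theorem sigma_cr (hΓ : IsClosedSurface Γ) : IsCompletelyReducible (sigma e Γ) := by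
  intro W hW
  have hall := invariant_all e hΓ W hW
  set L := WithLp.linearEquiv 2 ℂ (Fin d → ℂ) with hL
  set W₀ : Submodule ℂ (EuclideanSpace ℂ (Fin d)) := W.comap L.toLinearMap with hW₀
  refine ⟨W₀ᗮ.map L.toLinearMap, ?_, ?_⟩
  · rintro g _ ⟨u, hu, rfl⟩
    refine ⟨L.symm (((sigma e Γ).1 g).1 *ᵥ L u), ?_, ?_⟩
    · rw [SetLike.mem_coe, Submodule.mem_orthogonal] at hu ⊢
      intro w hw
      have h1 : L w ∈ W := hw
      have h2 : ((sigma e Γ).1 g).1ᴴ *ᵥ L w ∈ W := by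
        rw [sigma_val, blk_conjTranspose]
        exact hall _ _ _ h1
      have h3 := hu (L.symm (((sigma e Γ).1 g).1ᴴ *ᵥ L w)) (by
        change L (L.symm _) ∈ W
        rw [LinearEquiv.apply_symm_apply]
        exact h2)
      rw [EuclideanSpace.inner_eq_star_dotProduct] at h3 ⊢
      change L u ⬝ᵥ star (((sigma e Γ).1 g).1ᴴ *ᵥ L w) = 0 at h3
      change (((sigma e Γ).1 g).1 *ᵥ L u) ⬝ᵥ star (L w) = 0
      rw [Matrix.star_mulVec, Matrix.conjTranspose_conjTranspose] at h3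
      rw [dotProduct_comm, Matrix.dotProduct_mulVec, dotProduct_comm]
      exact h3
    · exact LinearEquiv.apply_symm_apply _ _
  · have h1 : IsCompl W₀ W₀ᗮ := Submodule.isCompl_orthogonal W₀
    have h2 := (Submodule.orderIsoMapComap L).isCompl h1
    have h3 : (Submodule.orderIsoMapComap L) W₀ = W :=
      Submodule.map_comap_eq_of_surjective L.surjective W
    rw [h3] at h2
    exact h2

end Pool.Agent.Y473.SA
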