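import Pool.Agent.Y473.SA.SigmaNot
import Pool.Agent.Y473.SA.SigmaAn
import Pool.Agent.Y473.SA.SigmaCR

/-!
# The simple Anosov domains are not maximal domains of discontinuity
-/

set_option autoImplicit false

open scoped MatrixGroups UpperHalfPlane Matrix
open UpperHalfPlane

namespace Pool.Agent.Y473.SA

variable {Γ : Subgroup SL(2, ℝ)} {d : ℕ}

/-- The class of the block sum representation belongs to exactly the expected simple Anosov
domains. -/
theorem exists_class (hΓ : IsClosedSurface Γ) {j k : ℕ} (hjd : 2 * j ≤ d) (hk : 1 ≤ k)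
    (hkd : k < d) (hkj : k ≠ j) (hkj' : k + j ≠ d) :
    ∃ x ∈ simpleAnosovDomain Γ d j, x ∉ simpleAnosovDomain Γ d k := by
  have hcard : Fintype.card ((Fin 2 × Fin j) ⊕ Fin (d - 2 * j)) = d := by
    rw [Fintype.card_sum, Fintype.card_prod, Fintype.card_fin, Fintype.card_fin, Fintype.card_fin]
    omega
  let e : (Fin 2 × Fin j) ⊕ Fin (d - 2 * j) ≃ Fin d := Fintype.equivFinOfCardEq hcard
  refine ⟨Quotient.mk _ ⟨sigma e Γ, sigma_cr e hΓ⟩, ⟨_, sigma_anosov e, rfl⟩, ?_⟩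
  rintro ⟨ρ, hρ, h⟩
  obtain ⟨x, hx⟩ := rel_iff.1 h
  exact not_anosov e hΓ hk hkd hkj hkj' hx.symm hρ

theorem main (hΓ : IsClosedSurface Γ) (hd : 4 ≤ d) :
    ∃ U : Set (CharVar Γ d), IsDomainOfDiscontinuity U ∧
      ∀ k, 1 ≤ k → k ≤ d - 1 → simpleAnosovDomain Γ d k ⊂ U := by
  refine ⟨bigDomain Γ d, isDomain_bigDomain hΓ, fun k hk hkd => ?_⟩
  rw [Set.ssubset_iff_subset_ne]
  refine ⟨simpleAnosovDomain_subset hΓ hk (by omega), fun heq => ?_⟩
  obtain ⟨j, hj1, hjd, hkj, hkj'⟩ : ∃ j, 1 ≤ j ∧ 2 * j ≤ d ∧ k ≠ j ∧ k + j ≠ d := by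
    by_cases h : k = 1 ∨ k = d - 1
    · exact ⟨2, by omega, by omega, by omega, by omega⟩
    · exact ⟨1, by omega, by omega, by omega, by omega⟩
  obtain ⟨x, hx, hx'⟩ := exists_class (Γ := Γ) hΓ hjd hk (by omega) hkj hkj'
  exact hx' (heq ▸ simpleAnosovDomain_subset hΓ hj1 (by omega) hx)

end Pool.Agent.Y473.SA
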