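import Pool.Agent.Y473.SA.Hyp

/-!
# The signed distance to a line
-/

set_option autoImplicit false

open scoped MatrixGroups UpperHalfPlane Matrix
open UpperHalfPlane

namespace Pool.Agent.Y473.SA

/-- The signed distance to the vertical line. -/
noncomputable def sv (z : ℍ) : ℝ := Real.arsinh (z.re / z.im)

theorem cosh_sv (z : ℍ) : Real.cosh (sv z) = Real.sqrt (z.re ^ 2 + z.im ^ 2) / z.im := by
  have := z.im_pos
  rw [sv, Real.cosh_arsinh, eq_div_iff this.ne']
  nth_rewrite 2 [← Real.sqrt_sq this.le]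
  rw [← Real.sqrt_mul (by positivity)]
  congr 1
  field_simp
  ring

theorem sinh_sv (z : ℍ) : Real.sinh (sv z) = z.re / z.im := Real.sinh_arsinh _

theorem sv_lip (z w : ℍ) : |sv z - sv w| ≤ dist z w := by
  have h : Real.cosh (sv z - sv w) ≤ Real.cosh (dist z w) := by
    rw [Real.cosh_sub, cosh_sv, cosh_sv, sinh_sv, sinh_sv, cosh_dist']
    have h1 := z.im_pos
    have h2 := w.im_pos
    set p := Real.sqrt (z.re ^ 2 + z.im ^ 2) with hp
    set q := Real.sqrt (w.re ^ 2 + w.im ^ 2) with hq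
    have hp2 : p ^ 2 = z.re ^ 2 + z.im ^ 2 := Real.sq_sqrt (by positivity)
    have hq2 : q ^ 2 = w.re ^ 2 + w.im ^ 2 := Real.sq_sqrt (by positivity)
    rw [div_mul_div_comm, div_mul_div_comm, ← sub_div, div_le_div_iff₀ (by positivity) (by positivity)]
    have h3 : p * q - z.re * w.re ≤ ((z.re - w.re) ^ 2 + z.im ^ 2 + w.im ^ 2) / 2 := by
      nlinarith [sq_nonneg (p - q)]
    have h4 : 0 < z.im * w.im := by positivity
    nlinarith
  rw [Real.cosh_le_cosh] at h
  rwa [abs_of_nonneg (dist_nonneg (x := z) (y := w))] at h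

theorem exists_vp_near (z : ℍ) : ∃ r, dist z (vp r) = |sv z| := by
  have h1 := z.im_pos
  set p := Real.sqrt (z.re ^ 2 + z.im ^ 2) with hp
  have hp2 : p ^ 2 = z.re ^ 2 + z.im ^ 2 := Real.sq_sqrt (by positivity)
  have hp0 : 0 < p := Real.sqrt_pos.2 (by positivity)
  refine ⟨Real.log p, ?_⟩
  have h : Real.cosh (dist z (vp (Real.log p))) = Real.cosh (sv z) := by
    rw [cosh_sv, cosh_dist', ← hp]
    simp only [vp_re, vp_im, sub_zero, Real.exp_log hp0]
    field_simp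
    linarith
  have h2 := Real.cosh_le_cosh.1 h.le
  have h3 := Real.cosh_le_cosh.1 h.ge
  rw [abs_of_nonneg (dist_nonneg (x := z))] at h2 h3
  exact le_antisymm h2 h3

@[simp] theorem sv_vp (t : ℝ) : sv (vp t) = 0 := by simp [sv]

/-- The signed distance to the line `geod h`. -/
noncomputable def sd (h : SL(2, ℝ)) (z : ℍ) : ℝ := sv (h⁻¹ • z)

theorem sd_lip (h : SL(2, ℝ)) (z w : ℍ) : |sd h z - sd h w| ≤ dist z w := by
  rw [← dist_smul h⁻¹ z w]
  exact sv_lip _ _

theorem sd_geod (h : SL(2, ℝ)) (t : ℝ) : sd h ((geod h).1 t) = 0 := by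
  rw [sd, geod_apply, inv_smul_smul, sv_vp]

theorem exists_near (h : SL(2, ℝ)) (z : ℍ) : ∃ r, dist z ((geod h).1 r) = |sd h z| := by
  obtain ⟨r, hr⟩ := exists_vp_near (h⁻¹ • z)
  refine ⟨r, ?_⟩
  rw [← dist_smul h⁻¹, geod_apply, inv_smul_smul, hr, sd]

theorem abs_sd_le (h : SL(2, ℝ)) (z : ℍ) (t : ℝ) : |sd h z| ≤ dist z ((geod h).1 t) := by
  have := sd_lip h z ((geod h).1 t)
  rwa [sd_geod, sub_zero] at this

theorem sv_smul_vp (g : SL(2, ℝ)) (t : ℝ) :
    Real.sinh (sv (g • vp t)) = g 0 0 * g 1 0 * Real.exp t + g 0 1 * g 1 1 * Real.exp (-t) := by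
  have hdet : g 0 0 * g 1 1 - g 0 1 * g 1 0 = 1 := by
    have := g.det_coe
    rwa [Matrix.det_fin_two] at this
  rw [sinh_sv, smul_re, smul_im]
  simp only [vp_re, vp_im]
  have h3 : 0 < (g 1 0 * 0 + g 1 1) ^ 2 + (g 1 0 * Real.exp t) ^ 2 := by
    by_cases hc : g 1 0 = 0
    · have : g 1 1 ≠ 0 := by
        intro h
        rw [hc, h] at hdet
        simp at hdet
      rw [hc, mul_zero, zero_add]
      positivity
    · positivity
  rw [div_div_div_cancel_right₀ h3.ne', Real.exp_neg]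
  have := Real.exp_pos t
  field_simp
  ring

/-- The reversed line. -/
def rev (c : UT) : UT := ⟨fun s => c.1 (-s), c.2.comp (IsometryEquiv.neg ℝ).isometry⟩

theorem rev_apply (c : UT) (t : ℝ) : (rev c).1 t = c.1 (-t) := rfl
theorem flow_apply (s : ℝ) (c : UT) (t : ℝ) : (flow s c).1 t = c.1 (t + s) := rfl
theorem act_apply {Γ : Subgroup SL(2, ℝ)} (g : Γ) (c : UT) (t : ℝ) : (act g c).1 t = g • c.1 t := rfl

/-- A line meeting another line in two points coincides with it up to the parametrization. -/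
theorem line_sub {c₁ c₂ : UT} {s t : ℝ} (hst : s ≠ t) (h1 : ∃ r, c₂.1 s = c₁.1 r)
    (h2 : ∃ r, c₂.1 t = c₁.1 r) :
    (∃ τ, c₂ = flow τ c₁) ∨ (∃ τ, c₂ = flow τ (rev c₁)) := by
  obtain ⟨r, hr⟩ := h1
  obtain ⟨r', hr'⟩ := h2
  have h : |s - t| = |r - r'| := by rw [← line_dist c₂, hr, hr', line_dist]
  rcases abs_eq_abs.1 h with h | h
  · left
    refine ⟨r - s, line_ext hst ?_ ?_⟩
    · rw [flow_apply, hr]; exact congrArg c₁.1 (by ring)
    · rw [flow_apply, hr']; exact congrArg c₁.1 (by linarith)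
  · right
    refine ⟨-r - s, line_ext hst ?_ ?_⟩
    · rw [flow_apply, rev_apply, hr]; exact congrArg c₁.1 (by ring)
    · rw [flow_apply, rev_apply, hr']; exact congrArg c₁.1 (by linarith)

/-- The position of the line `geod h₂` with respect to the line `geod h₁`. -/
theorem sinh_sd_geod (h₁ h₂ : SL(2, ℝ)) : ∃ α β : ℝ, ∀ t,
    Real.sinh (sd h₁ ((geod h₂).1 t)) = α * Real.exp t + β * Real.exp (-t) :=
  ⟨_, _, fun t => by rw [sd, geod_apply, ← mul_smul, sv_smul_vp]⟩

end Pool.Agent.Y473.SA
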