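import Pool.Agent.Y473.SA.Domain
import Pool.Agent.Y473.SA.Block

/-!
# The block sum representation with `j` blocks is not simple `k`-Anosov for other `k`
-/

set_option autoImplicit false

open scoped MatrixGroups UpperHalfPlane Matrix
open UpperHalfPlane

namespace Pool.Agent.Y473.SA

variable {Γ : Subgroup SL(2, ℝ)} {d j m : ℕ}

/-- A dominated projection commuting with a diagonalizable matrix is a sum of coordinate
projections in the eigenbasis. -/
theorem proj_diag {S P F F' : Matrix (Fin d) (Fin d) ℂ} {w : Fin d → ℂ} (hF : F * F' = 1)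
    (hS : S * F = F * Matrix.diagonal w) (hw0 : ∀ i, w i ≠ 0) (hPP : P * P = P)
    (hPS : P * S = S * P) (ν : Seminorm ℂ (Fin d → ℂ)) (hν : ∀ v, ν v = 0 → v = 0) {C a : ℝ}
    (ha : 0 < a)
    (hdom : ∀ v w', P *ᵥ v = v → P *ᵥ w' = 0 → ∀ n : ℕ,
      ν (S ^ n *ᵥ w') * ν v ≤ C * Real.exp (-(a * n)) * (ν (S ^ n *ᵥ v) * ν w')) :
    ∃ I : Finset (Fin d), P.rank = I.card ∧ ∀ i ∈ I, ∀ i' ∉ I, ‖w i'‖ < ‖w i‖ := by
  classical
  have hF' : F' * F = 1 := mul_eq_one_comm.1 hF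
  set f : Fin d → Fin d → ℂ := fun i => F *ᵥ Pi.single i 1 with hf
  have hf0 : ∀ i, f i ≠ 0 := by
    intro i h
    have h1 := congrArg (fun x => F' *ᵥ x) h
    simp only [hf, Matrix.mulVec_mulVec, hF', Matrix.one_mulVec, Matrix.mulVec_zero] at h1
    have h2 := congrFun h1 i
    simp at h2
  have hSf : ∀ i, S *ᵥ f i = w i • f i := by
    intro i
    rw [hf]
    simp only
    rw [Matrix.mulVec_mulVec, hS, ← Matrix.mulVec_mulVec, ← Matrix.mulVec_smul]
    congr 1
    ext i'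
    rw [Matrix.mulVec_diagonal, Pi.smul_apply, smul_eq_mul]
    by_cases h : i' = i
    · rw [h]
    · rw [Pi.single_eq_of_ne h, mul_zero, mul_zero]
  have hSP : ∀ i, S *ᵥ (P *ᵥ f i) = w i • (P *ᵥ f i) := by
    intro i
    rw [Matrix.mulVec_mulVec, ← hPS, ← Matrix.mulVec_mulVec, hSf, Matrix.mulVec_smul]
  have hpow : ∀ (x : Fin d → ℂ) (z : ℂ), S *ᵥ x = z • x → ∀ n : ℕ, S ^ n *ᵥ x = z ^ n • x := by
    intro x z hx n
    induction n with
    | zero => rw [pow_zero, pow_zero, Matrix.one_mulVec, one_smul]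
    | succ n ih =>
      rw [pow_succ, ← Matrix.mulVec_mulVec, hx, Matrix.mulVec_smul, ih, smul_smul, pow_succ,
        mul_comm]
  have hP2 : ∀ x, P *ᵥ (P *ᵥ x) = P *ᵥ x := fun x => by rw [Matrix.mulVec_mulVec, hPP]
  have claim : ∀ i i', P *ᵥ f i ≠ 0 → f i' - P *ᵥ f i' ≠ 0 → ‖w i'‖ < ‖w i‖ := by
    intro i i' h1 h2
    by_contra hcon
    have h3 := not_lt.1 hcon
    set v := P *ᵥ f i with hv
    set w' := f i' - P *ᵥ f i' with hw'
    have hνv : 0 < ν v := lt_of_le_of_ne (apply_nonneg _ _) fun h => h1 (hν _ h.symm)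
    have hνw : 0 < ν w' := lt_of_le_of_ne (apply_nonneg _ _) fun h => h2 (hν _ h.symm)
    have hSw : S *ᵥ w' = w i' • w' := by
      rw [hw', Matrix.mulVec_sub, hSf, hSP, smul_sub]
    have hPw : P *ᵥ w' = 0 := by rw [hw', Matrix.mulVec_sub, hP2, sub_self]
    have hwi : 0 < ‖w i‖ := norm_pos_iff.2 (hw0 i)
    have key : ∀ n : ℕ, Real.exp (a * n) ≤ C := by
      intro n
      have h4 := hdom v w' (hP2 _) hPw n
      rw [hpow v _ (hSP i), hpow w' _ hSw, map_smul_eq_mul, map_smul_eq_mul, norm_pow, norm_pow] at h4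
      have h5 : ‖w i‖ ^ n ≤ ‖w i'‖ ^ n := pow_le_pow_left₀ (norm_nonneg _) h3 n
      have h6 : ‖w i‖ ^ n * (ν w' * ν v) ≤ (C * Real.exp (-(a * n))) * (‖w i‖ ^ n * (ν w' * ν v)) := by
        calc ‖w i‖ ^ n * (ν w' * ν v) ≤ ‖w i'‖ ^ n * (ν w' * ν v) :=
              mul_le_mul_of_nonneg_right h5 (by positivity)
          _ = ‖w i'‖ ^ n * ν w' * ν v := by ring
          _ ≤ _ := h4
          _ = _ := by ring
      have h7 : 0 < ‖w i‖ ^ n * (ν w' * ν v) := by positivity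
      have h8 : 1 ≤ C * Real.exp (-(a * n)) := by
        have : 1 * (‖w i‖ ^ n * (ν w' * ν v)) ≤
            (C * Real.exp (-(a * n))) * (‖w i‖ ^ n * (ν w' * ν v)) := by rw [one_mul]; exact h6
        exact le_of_mul_le_mul_right this h7
      rwa [Real.exp_neg, ← div_eq_mul_inv, le_div_iff₀ (Real.exp_pos _), one_mul] at h8
    obtain ⟨n, hn⟩ := exists_nat_gt (C / a)
    have h9 := key n
    have h10 := Real.add_one_le_exp (a * n)
    rw [div_lt_iff₀ ha] at hn
    linarith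
  set I := Finset.univ.filter fun i => P *ᵥ f i ≠ 0 with hI
  have hin : ∀ i ∈ I, P *ᵥ f i = f i := by
    intro i hi
    have h1 : P *ᵥ f i ≠ 0 := (Finset.mem_filter.1 hi).2
    by_contra h2
    have h3 : f i - P *ᵥ f i ≠ 0 := fun h => h2 (sub_eq_zero.1 h).symm
    exact lt_irrefl _ (claim i i h1 h3)
  have hout : ∀ i ∉ I, P *ᵥ f i = 0 := by
    intro i hi
    by_contra h
    exact hi (Finset.mem_filter.2 ⟨Finset.mem_univ _, h⟩)
  refine ⟨I, ?_, ?_⟩
  · have hPF : P * F = F * Matrix.diagonal fun i => if i ∈ I then (1 : ℂ) else 0 := by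
      apply Matrix.ext_of_mulVec_single
      intro i
      rw [← Matrix.mulVec_mulVec, ← Matrix.mulVec_mulVec]
      have h1 : (Matrix.diagonal fun i => if i ∈ I then (1 : ℂ) else 0) *ᵥ Pi.single i 1 =
          (if i ∈ I then (1 : ℂ) else 0) • Pi.single i 1 := by
        ext i'
        rw [Matrix.mulVec_diagonal, Pi.smul_apply, smul_eq_mul]
        by_cases h : i' = i
        · rw [h]
        · rw [Pi.single_eq_of_ne h, mul_zero, mul_zero]
      rw [h1, Matrix.mulVec_smul]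
      by_cases hi : i ∈ I
      · rw [if_pos hi, one_smul]
        exact hin i hi
      · rw [if_neg hi, zero_smul]
        exact hout i hi
    have hdetF : IsUnit F.det := by
      have := congrArg Matrix.det hF
      rw [Matrix.det_mul, Matrix.det_one] at this
      exact IsUnit.of_mul_eq_one _ this
    rw [← Matrix.rank_mul_eq_left_of_isUnit_det F P hdetF, hPF,
      Matrix.rank_mul_eq_right_of_isUnit_det _ _ hdetF, Matrix.rank_diagonal, Fintype.card_subtype]
    congr 1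
    ext i
    simp
  · intro i hi i' hi'
    apply claim i i'
    · rw [hin i hi]
      exact hf0 i
    · rw [hout i' hi', sub_zero]
      exact hf0 i'

variable (e : (Fin 2 × Fin j) ⊕ Fin m ≃ Fin d)

theorem not_anosov (hΓ : IsClosedSurface Γ) {k : ℕ} (hk : 1 ≤ k) (hkd : k < d) (hkj : k ≠ j)
    (hkj' : k + j ≠ d) {ρ : Rep Γ d} {h : SL(d, ℂ)} (hρ : conjRep h ρ = sigma e Γ) :
    ¬ IsSimpleAnosov k ρ := by
  classical
  rintro ⟨P, N, C, a, hC, ha, hPc, hPk, hPρ, hPf, hNc, hN0, hNρ, hdom⟩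
  obtain ⟨g, c, l, hcl, hgc⟩ := hΓ.exists_simple hΓ.exists_ne_one
  have hcF : c ∈ birmanSeries Γ := subset_closure ⟨l, hcl⟩
  obtain ⟨hl, -⟩ := hcl
  obtain ⟨p, rfl⟩ := exists_geod c
  obtain ⟨lam, hlam, h00, h11, h01, h10⟩ := diag_of_axis hgc
  obtain ⟨i00, i01, i10, i11⟩ := sl_inv_apply (p⁻¹ * g * p)
  rw [h11] at i00
  rw [h01, neg_zero] at i01
  rw [h10, neg_zero] at i10
  rw [h00] at i11
  have hlam0 : lam ≠ 0 := by
    rintro rfl
    rw [zero_pow two_ne_zero] at hlam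
    exact (Real.exp_pos _).ne hlam
  set S := (ρ.1 g⁻¹).1 with hS
  -- the projection commutes with `S`
  have hcomm : P (geod p) * (ρ.1 g).1 = (ρ.1 g).1 * P (geod p) := by
    have h1 := hPρ _ hcF g
    rwa [hgc, hPf _ hcF] at h1
  have hPS : P (geod p) * S = S * P (geod p) := by
    calc P (geod p) * S = (S * (ρ.1 g).1) * P (geod p) * S := by rw [rep_inv_mul', one_mul]
      _ = S * ((ρ.1 g).1 * P (geod p)) * S := by noncomm_ring
      _ = S * (P (geod p) * (ρ.1 g).1) * S := by rw [hcomm]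
      _ = S * P (geod p) * ((ρ.1 g).1 * S) := by noncomm_ring
      _ = S * P (geod p) := by rw [rep_mul_inv', mul_one]
  -- the norms along the geodesic
  have hNS : ∀ (n : ℕ) v, N (flow (n * l) (geod p)) v = N (geod p) (S ^ n *ᵥ v) := by
    intro n v
    have h1 := hNρ _ hcF (g ^ n) (S ^ n *ᵥ v)
    have h2 := zpow_axis hgc (n : ℤ)
    rw [zpow_natCast, Int.cast_natCast] at h2
    rw [h2, Matrix.mulVec_mulVec, hS, ← rep_pow', inv_pow, rep_mul_inv', Matrix.one_mulVec,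
      ← inv_pow, rep_pow'] at h1
    exact h1
  -- the eigenbasis
  have hconj : ∀ x : Γ, blk e (cm x.1.1) 1 = h.1 * (ρ.1 x).1 * (h⁻¹).1 := by
    intro x
    rw [← sigma_val, ← hρ]
    rfl
  have hD : cm (p⁻¹ * (g⁻¹ : Γ) * p).1 = !![(lam⁻¹ : ℂ), 0; 0, (lam : ℂ)] := by
    have h1 : p⁻¹ * ((g⁻¹ : Γ) : SL(2, ℝ)) * p = (p⁻¹ * g * p)⁻¹ := by
      rw [Subgroup.coe_inv]
      group
    rw [h1]
    ext i i'
    fin_cases i <;> fin_cases i'
    · change (((p⁻¹ * (g : SL(2, ℝ)) * p)⁻¹ 0 0 : ℝ) : ℂ) = _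
      rw [i00]
      simp
    · change (((p⁻¹ * (g : SL(2, ℝ)) * p)⁻¹ 0 1 : ℝ) : ℂ) = _
      rw [i01]
      simp
    · change (((p⁻¹ * (g : SL(2, ℝ)) * p)⁻¹ 1 0 : ℝ) : ℂ) = _
      rw [i10]
      simp
    · change (((p⁻¹ * (g : SL(2, ℝ)) * p)⁻¹ 1 1 : ℝ) : ℂ) = _
      rw [i11]
      simp
  have hSF : S * ((h⁻¹).1 * blk e (cm p.1) 1) =
      ((h⁻¹).1 * blk e (cm p.1) 1) * Matrix.diagonal (dg e (lam⁻¹ : ℂ) lam 1) := by
    rw [← blk_diagonal, ← hD]
    have h1 : blk e (cm p.1) 1 * blk e (cm (p⁻¹ * (g⁻¹ : Γ) * p).1) 1 =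
        blk e (cm (g⁻¹ : Γ).1.1) 1 * blk e (cm p.1) 1 := by
      rw [blk_mul, blk_mul, ← cm_sl, ← cm_sl]
      congr 3
      group
    rw [mul_assoc _ (blk e (cm p.1) 1), h1, hconj]
    calc S * ((h⁻¹).1 * blk e (cm p.1) 1) = 1 * S * (h⁻¹).1 * blk e (cm p.1) 1 := by
          rw [one_mul, mul_assoc]
      _ = ((h⁻¹).1 * h.1) * S * (h⁻¹).1 * blk e (cm p.1) 1 := by rw [sl_inv_mul']
      _ = _ := by noncomm_ring
  have hFF : ((h⁻¹).1 * blk e (cm p.1) 1) * (blk e (cm (p⁻¹).1) 1 * h.1) = 1 := by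
    calc _ = (h⁻¹).1 * (blk e (cm p.1) 1 * blk e (cm (p⁻¹).1) 1) * h.1 := by noncomm_ring
      _ = 1 := by
        rw [blk_mul, cm_mul_inv, one_mul, blk_one, mul_one, sl_inv_mul']
  have hcl0 : (lam : ℂ) ≠ 0 := by exact_mod_cast hlam0
  have v0 : ∀ b : Fin j, dg e (lam⁻¹ : ℂ) lam 1 (e (Sum.inl (0, b))) = (lam : ℂ)⁻¹ := by
    intro b
    simp [dg]
  have v1 : ∀ b : Fin j, dg e (lam⁻¹ : ℂ) lam 1 (e (Sum.inl (1, b))) = lam := by
    intro b
    simp [dg]
  have v2 : ∀ b : Fin m, dg e (lam⁻¹ : ℂ) lam 1 (e (Sum.inr b)) = 1 := by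
    intro b
    simp [dg]
  have hcases : ∀ i : Fin d, (∃ b : Fin j, i = e (Sum.inl (0, b))) ∨
      (∃ b : Fin j, i = e (Sum.inl (1, b))) ∨ ∃ b : Fin m, i = e (Sum.inr b) := by
    intro i
    obtain ⟨x, rfl⟩ := e.surjective i
    rcases x with ⟨y, b⟩ | b
    · fin_cases y
      · exact Or.inl ⟨b, rfl⟩
      · exact Or.inr (Or.inl ⟨b, rfl⟩)
    · exact Or.inr (Or.inr ⟨b, rfl⟩)
  obtain ⟨I, hIcard, hI⟩ := proj_diag (S := S) (P := P (geod p)) (a := a * l) (C := C) hFF hSF (by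
      intro i
      rcases hcases i with ⟨b, rfl⟩ | ⟨b, rfl⟩ | ⟨b, rfl⟩
      · rw [v0]
        exact inv_ne_zero hcl0
      · rw [v1]
        exact hcl0
      · rw [v2]
        exact one_ne_zero) (hPk _ hcF).1 hPS (N (geod p)) (hN0 _ hcF) (by positivity) (by
      intro v w' hv hw' n
      have h1 := hdom _ hcF v w' hv hw' (n * l) (by positivity)
      rw [hNS, hNS] at h1
      have h2 : -a * (n * l) = -(a * l * n) := by ring
      rwa [h2] at h1)
  rw [(hPk _ hcF).2] at hIcard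
  -- sizes of the eigenvalues
  have hL : 1 < ‖(lam : ℂ)‖ := by
    rw [Complex.norm_real, Real.norm_eq_abs]
    by_contra hcon
    have h1 := not_lt.1 hcon
    have h2 : |lam| ^ 2 ≤ 1 := pow_le_one₀ (abs_nonneg _) h1
    rw [sq_abs, hlam] at h2
    have h3 := Real.one_lt_exp_iff.2 hl
    linarith
  have hL' : ‖(lam : ℂ)⁻¹‖ < 1 := by
    rw [norm_inv]
    exact inv_lt_one_of_one_lt₀ hL
  have hne : I.Nonempty := by
    rw [← Finset.card_pos]
    omega
  obtain ⟨i₀, hi₀⟩ := hne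
  obtain ⟨i₁, hi₁⟩ : ∃ i, i ∉ I := by
    by_contra hcon
    push Not at hcon
    have h1 : I = Finset.univ := Finset.eq_univ_of_forall hcon
    rw [h1, Finset.card_univ, Fintype.card_fin] at hIcard
    omega
  have hlow : ∀ b : Fin j, e (Sum.inl (0, b)) ∉ I := by
    intro b hb
    have h1 := hI _ hb _ hi₁
    rw [v0] at h1
    rcases hcases i₁ with ⟨b', rfl⟩ | ⟨b', rfl⟩ | ⟨b', rfl⟩
    · rw [v0] at h1
      exact lt_irrefl _ h1
    · rw [v1] at h1
      linarith
    · rw [v2, norm_one] at h1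
      linarith
  have hhigh : ∀ b : Fin j, e (Sum.inl (1, b)) ∈ I := by
    intro b
    by_contra hb
    have h1 := hI _ hi₀ _ hb
    rw [v1] at h1
    rcases hcases i₀ with ⟨b', rfl⟩ | ⟨b', rfl⟩ | ⟨b', rfl⟩
    · rw [v0] at h1
      linarith
    · rw [v1] at h1
      exact lt_irrefl _ h1
    · rw [v2, norm_one] at h1
      linarith
  by_cases hmid : ∃ b : Fin m, e (Sum.inr b) ∈ I
  · obtain ⟨b₀, hb₀⟩ := hmid
    have hall : ∀ b : Fin m, e (Sum.inr b) ∈ I := by
      intro b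
      by_contra hb
      have h1 := hI _ hb₀ _ hb
      rw [v2, v2] at h1
      exact lt_irrefl _ h1
    have hIc : Iᶜ = Finset.univ.image fun b : Fin j => e (Sum.inl (0, b)) := by
      ext i
      rw [Finset.mem_compl, Finset.mem_image]
      constructor
      · intro hi
        rcases hcases i with ⟨b', rfl⟩ | ⟨b', rfl⟩ | ⟨b', rfl⟩
        · exact ⟨b', Finset.mem_univ _, rfl⟩
        · exact absurd (hhigh b') hi
        · exact absurd (hall b') hi
      · rintro ⟨b, -, rfl⟩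
        exact hlow b
    have hc : Iᶜ.card = j := by
      rw [hIc, Finset.card_image_of_injective, Finset.card_univ, Fintype.card_fin]
      intro b b' hbb
      have := e.injective hbb
      simpa using this
    rw [Finset.card_compl, Fintype.card_fin] at hc
    have : I.card ≤ d := by
      have := Finset.card_le_univ I
      rwa [Fintype.card_fin] at this
    omega
  · push Not at hmid
    have hIe : I = Finset.univ.image fun b : Fin j => e (Sum.inl (1, b)) := by
      ext i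
      rw [Finset.mem_image]
      constructor
      · intro hi
        rcases hcases i with ⟨b', rfl⟩ | ⟨b', rfl⟩ | ⟨b', rfl⟩
        · exact absurd hi (hlow b')
        · exact ⟨b', Finset.mem_univ _, rfl⟩
        · exact absurd hi (hmid b')
      · rintro ⟨b, -, rfl⟩
        exact hhigh b
    have hc : I.card = j := by
      rw [hIe, Finset.card_image_of_injective, Finset.card_univ, Fintype.card_fin]
      intro b b' hbb
      have := e.injective hbb
      simpa using this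
    omega

end Pool.Agent.Y473.SA
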