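import Pool.Agent.Y473.SA.Fuchs

/-!
# Simple elements, uniqueness of axes, finite generation
-/

set_option autoImplicit false

open scoped MatrixGroups UpperHalfPlane Matrix
open UpperHalfPlane

namespace Pool.Agent.Y473.SA

variable {Γ : Subgroup SL(2, ℝ)}

/-- `g` translates a simple closed geodesic by its length. -/
def IsSimpleElt (g : Γ) : Prop := ∃ (c : UT) (l : ℝ), IsSimpleClosed Γ c l ∧ act g c = flow l c

/-- The sequence of values of the signed distance along a line. -/
theorem exp_bounded {α β M l : ℝ} (hl : 0 < l)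
    (h : ∀ n : ℕ, |α * Real.exp (n * l) + β * Real.exp (-(n * l))| ≤ M) : α = 0 := by
  by_contra hα
  have h1 : Filter.Tendsto (fun n : ℕ => Real.exp ((n : ℝ) * l)) Filter.atTop Filter.atTop :=
    Real.tendsto_exp_atTop.comp (tendsto_natCast_atTop_atTop.atTop_mul_const hl)
  have h2 : ∀ n : ℕ, |α| * Real.exp (n * l) ≤ M + |β| := by
    intro n
    have h3 : |α * Real.exp (n * l)| ≤ |α * Real.exp (n * l) + β * Real.exp (-(n * l))| +
        |β * Real.exp (-(n * l))| := by
      have := abs_sub (α * Real.exp (n * l) + β * Real.exp (-(n * l))) (β * Real.exp (-(n * l)))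
      simpa using this
    rw [abs_mul, abs_of_pos (Real.exp_pos _)] at h3
    have h4 : |β * Real.exp (-(n * l))| ≤ |β| := by
      rw [abs_mul, abs_of_pos (Real.exp_pos _)]
      have : Real.exp (-(n * l)) ≤ 1 := by
        rw [Real.exp_le_one_iff]
        have : 0 ≤ (n : ℝ) * l := by positivity
        linarith
      nlinarith [abs_nonneg β]
    linarith [h n]
  have hα' : 0 < |α| := abs_pos.2 hα
  obtain ⟨n, hn⟩ := (h1.eventually_gt_atTop ((M + |β|) / |α|)).exists
  have h3 := h2 n
  rw [div_lt_iff₀ hα'] at hn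
  linarith

/-- The axis of an element is unique. -/
theorem axis_unique {g : Γ} {c₁ c₂ : UT} {l₁ l₂ : ℝ} (hl₂ : 0 < l₂)
    (h1 : act g c₁ = flow l₁ c₁) (h2 : act g c₂ = flow l₂ c₂) :
    (∃ τ, c₂ = flow τ c₁) ∨ (∃ τ, c₂ = flow τ (rev c₁)) := by
  obtain ⟨p, rfl⟩ := exists_geod c₁
  obtain ⟨q, rfl⟩ := exists_geod c₂
  obtain ⟨α, β, hab⟩ := sinh_sd_geod p q
  have hb : ∀ n : ℤ, |α * Real.exp (n * l₂) + β * Real.exp (-(n * l₂))| ≤
      Real.sinh (dist ((geod q).1 0) ((geod p).1 0)) := by
    intro n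
    rw [← hab]
    have h3 := zpow_axis h1 n
    have h4 := zpow_axis h2 n
    have e1 : (geod q).1 (n * l₂) = g ^ n • (geod q).1 0 := by
      rw [← act_apply, h4, flow_apply, zero_add]
    have e2 : (geod p).1 (n * l₁) = g ^ n • (geod p).1 0 := by
      rw [← act_apply, h3, flow_apply, zero_add]
    have h5 := abs_sd_le p ((geod q).1 (n * l₂)) (n * l₁)
    rw [e2] at h5
    nth_rewrite 2 [e1] at h5
    rw [dist_smul] at h5
    rw [abs_le] at h5 ⊢
    constructor
    · rw [← Real.sinh_neg]; exact Real.sinh_le_sinh.2 h5.1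
    · exact Real.sinh_le_sinh.2 h5.2
  have hα : α = 0 := exp_bounded hl₂ fun n => by simpa using hb n
  have hβ : β = 0 := by
    apply exp_bounded (α := β) (β := α) hl₂ (M := Real.sinh (dist ((geod q).1 0) ((geod p).1 0)))
    intro n
    have := hb (-n)
    push_cast at this
    rw [neg_mul, neg_neg] at this
    rw [add_comm]
    exact this
  have hz : ∀ t, ∃ r, (geod q).1 t = (geod p).1 r := by
    intro t
    obtain ⟨r, hr⟩ := exists_near p ((geod q).1 t)
    refine ⟨r, ?_⟩
    have h3 := hab t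
    rw [hα, hβ, zero_mul, zero_mul, add_zero, Real.sinh_eq_zero] at h3
    rw [h3, abs_zero] at hr
    exact dist_eq_zero.1 hr
  exact line_sub (zero_ne_one) (hz 0) (hz 1)

namespace IsClosedSurface

variable (hΓ : IsClosedSurface Γ)
include hΓ

/-- The descent argument: a conjugation invariant set of nontrivial elements which is closed under
`g ↦ (b, d, b d⁻¹)` contains a simple element. -/
theorem descent (B : Set Γ) (hconj : ∀ g ∈ B, ∀ h : Γ, h * g * h⁻¹ ∈ B) (h1 : (1 : Γ) ∉ B)
    (hB : B.Nonempty) (hd : ∀ b d : Γ, b ∉ B → d ∉ B → b * d⁻¹ ∉ B → b * d ∉ B) :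
    ∃ g ∈ B, IsSimpleElt g := by
  obtain ⟨g, hg, z, hz⟩ := hΓ.exists_min B hB hconj
  refine ⟨g, hg, ?_⟩
  have hg1 : g ≠ 1 := fun h => h1 (h ▸ hg)
  have hne : g • z ≠ z := fun h => hg1 (hΓ.free _ _ h)
  obtain ⟨c, hc0, hc⟩ := axis_of_min (fun z' => hz _ hg z') hne
  set l := dist z (g • z) with hl
  have hl0 : 0 < l := dist_pos.2 hne.symm
  refine ⟨c, l, ⟨hl0, ⟨g, hc⟩, ?_⟩, hc⟩
  intro δ s t hst
  by_contra hcon
  push Not at hcon
  -- reduction to `s < t' < s + l`
  set n := ⌊(t - s) / l⌋ with hn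
  set t' := t - n * l with ht'
  have h2 : s ≤ t' := by
    have := Int.floor_le ((t - s) / l)
    rw [le_div_iff₀ hl0] at this
    rw [ht']
    linarith
  have h3 : t' < s + l := by
    have := Int.lt_floor_add_one ((t - s) / l)
    rw [div_lt_iff₀ hl0] at this
    rw [ht']
    linarith
  have h4 : s < t' := lt_of_le_of_ne h2 fun h => hcon n (by rw [ht'] at h; linarith)
  set e := g ^ (-n) * δ with he
  have h5 : e • c.1 s = c.1 t' := by
    rw [he, mul_smul, hst, ← act_apply, zpow_axis hc, flow_apply]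
    refine congrArg c.1 ?_
    push_cast
    rw [ht']
    ring
  have heB : e ∉ B := fun hmem => by
    have := hz e hmem (c.1 s)
    rw [h5, line_dist, abs_of_neg (by linarith)] at this
    linarith
  have h6 : (g * e⁻¹) • c.1 t' = c.1 (s + l) := by
    rw [mul_smul, ← h5, inv_smul_smul, ← act_apply, hc, flow_apply]
  have hbB : g * e⁻¹ ∉ B := fun hmem => by
    have := hz _ hmem (c.1 t')
    rw [h6, line_dist, abs_of_neg (by linarith)] at this
    linarith
  have hbdB : g * e⁻¹ * e⁻¹ ∉ B := fun hmem => by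
    have h7 := hz _ hmem (e • c.1 t')
    rw [mul_smul (g * e⁻¹) e⁻¹, inv_smul_smul, h6] at h7
    have h8 : dist (e • c.1 t') (c.1 (s + l)) ≤ (t' - s) + (s + l - t') := by
      refine (dist_triangle _ (e • c.1 s) _).trans ?_
      rw [dist_smul, line_dist]
      nth_rewrite 1 [h5]
      rw [line_dist, abs_of_pos (by linarith), abs_of_neg (by linarith)]
      linarith
    have h9 : flow (-s) (rev (act e c)) = flow t' c := by
      apply line_eq_of_dist (a := t' - s) (b := s + l - t') (by linarith) (by linarith)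
      · rw [flow_apply, rev_apply, act_apply, flow_apply, zero_add, zero_add, neg_neg, h5]
      · rw [flow_apply, rev_apply, act_apply, flow_apply]
        have e1 : -(-(t' - s) + -s) = t' := by ring
        have e2 : s + l - t' + t' = s + l := by ring
        rw [e1, e2]
        exact le_antisymm h8 (by linarith)
    have h10 : e • c.1 ((s + t') / 2) = c.1 ((s + t') / 2) := by
      have := congrArg (fun c : UT => c.1 ((s - t') / 2)) h9
      simp only [flow_apply, rev_apply, act_apply] at this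
      have e1 : -((s - t') / 2 + -s) = (s + t') / 2 := by ring
      have e2 : (s - t') / 2 + t' = (s + t') / 2 := by ring
      rwa [e1, e2] at this
    have h11 := hΓ.free _ _ h10
    rw [h11, one_smul] at h5
    exact h4.ne (c.2.injective h5)
  exact hd _ _ hbB heB hbdB (by rwa [inv_mul_cancel_right])

/-- There is a simple closed geodesic. -/
theorem exists_simple (hne : ∃ g : Γ, g ≠ 1) : ∃ g : Γ, IsSimpleElt g := by
  obtain ⟨g, -, hg⟩ := hΓ.descent {g | g ≠ 1} (by
      intro g hg h hh
      apply hg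
      rw [mul_inv_eq_one] at hh
      exact mul_eq_left.1 hh) (by simp) hne (by
      intro b d hb hd _
      simp only [Set.mem_ofPred_eq, not_not] at hb hd ⊢
      rw [hb, hd, one_mul])
  exact ⟨g, hg⟩

/-- No line is preserved by `Γ`. -/
theorem not_preserve (c : UT) : ∃ g : Γ, ∀ τ, act g c ≠ flow τ c ∧ act g c ≠ flow τ (rev c) := by
  by_contra hcon
  push Not at hcon
  obtain ⟨p, rfl⟩ := exists_geod c
  obtain ⟨r, hr0, hr⟩ := hΓ.exists_radius
  -- every `g` maps the line into itself
  have hmap : ∀ (g : Γ) (t : ℝ), ∃ t', g • (geod p).1 t = (geod p).1 t' := by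
    intro g t
    obtain ⟨τ, hτ⟩ := hcon g
    by_cases h : act g (geod p) = flow τ (geod p)
    · exact ⟨_, by rw [← act_apply, h, flow_apply]⟩
    · exact ⟨_, by rw [← act_apply, hτ h, flow_apply, rev_apply]⟩
  -- the distance to the line is bounded
  set K := r + |sd p I| with hK
  have hb : ∀ z, |sd p z| ≤ K := by
    intro z
    obtain ⟨g, hg⟩ := hr z
    obtain ⟨t, ht⟩ := exists_near p I
    obtain ⟨t', ht'⟩ := hmap g⁻¹ t
    have h1 := abs_sd_le p z t'
    rw [← ht'] at h1
    have h2 : dist z (g⁻¹ • (geod p).1 t) = dist (g • z) ((geod p).1 t) := by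
      rw [← dist_smul g, smul_inv_smul]
    rw [h2] at h1
    have h3 := dist_triangle (g • z) I ((geod p).1 t)
    rw [dist_comm (g • z) I] at h3
    linarith
  have h1 := hb (p • ((Real.sinh (K + 1)) +ᵥ I))
  rw [sd, inv_smul_smul, sv] at h1
  simp only [vadd_re, vadd_im] at h1
  have : (UpperHalfPlane.I).re = 0 := UpperHalfPlane.I_re
  rw [this, UpperHalfPlane.I_im, add_zero, div_one, Real.arsinh_sinh] at h1
  have h2 : 0 ≤ |sd p I| := abs_nonneg _
  rw [abs_of_pos (by linarith)] at h1
  linarith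

theorem exists_ne_one : ∃ g : Γ, g ≠ 1 := by
  obtain ⟨g, hg⟩ := hΓ.not_preserve (geod 1)
  refine ⟨g, fun h => (hg 0).1 ?_⟩
  rw [h, act_one, flow_zero]

/-- There are two elements that do not commute. -/
theorem exists_not_comm : ∃ a b : Γ, a * b * a⁻¹ * b⁻¹ ≠ 1 := by
  obtain ⟨a, ha⟩ := hΓ.exists_ne_one
  obtain ⟨c, l, hl, hc⟩ := hΓ.exists_axis ha
  obtain ⟨b, hb⟩ := hΓ.not_preserve c
  refine ⟨a, b, fun h => ?_⟩
  have hcomm : a * b = b * a := by
    rw [mul_inv_eq_one] at h
    have := congrArg (· * a) h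
    simpa using this
  have h1 : act a (act b c) = flow l (act b c) := by
    rw [act_act, hcomm, ← act_act, hc, act_flow]
  rcases axis_unique hl hc h1 with ⟨τ, h2⟩ | ⟨τ, h2⟩
  · exact (hb τ).1 h2
  · exact (hb τ).2 h2

/-- `Γ` is finitely generated. -/
theorem exists_gen : ∃ F : Set Γ, F.Finite ∧ Subgroup.closure F = ⊤ := by
  obtain ⟨r, hr0, hr⟩ := hΓ.exists_radius
  refine ⟨_, hΓ.finite_ball (r + 1), ?_⟩
  rw [eq_top_iff]
  intro g _
  set F := {g : Γ | ∃ z, dist I z ≤ r + 1 ∧ dist I (g • z) ≤ r + 1} with hF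
  -- chain along the line from `I` to `g • I`
  obtain ⟨h, h1, h2⟩ := exists_smul_pair I (g • I)
  set T := dist I (g • I) with hT
  choose f hf using fun k : ℕ => hr (h • vp (k : ℝ))
  have step : ∀ (x y : Γ) (z w : ℍ), dist I (x • z) ≤ r + 1 → dist I (y • w) ≤ r → dist z w ≤ 1 →
      x * y⁻¹ ∈ F := by
    intro x y z w hx hy hzw
    refine ⟨y • z, ?_, ?_⟩
    · have := dist_triangle I (y • w) (y • z)
      rw [dist_smul, dist_comm w z] at this
      linarith
    · rw [mul_smul, inv_smul_smul]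
      exact hx
  have hk : ∀ k : ℕ, (k : ℝ) ≤ T → f k ∈ Subgroup.closure F := by
    intro k
    induction k with
    | zero =>
      intro _
      have h3 : (1 : Γ) * (f 0)⁻¹ ∈ F := by
        apply step 1 (f 0) I (h • vp ((0 : ℕ) : ℝ))
        · rw [one_smul, dist_self]; linarith
        · exact hf 0
        · rw [Nat.cast_zero, h1, dist_self]; linarith
      have := Subgroup.inv_mem _ (Subgroup.subset_closure h3)
      simpa using this
    | succ k ih =>
      intro hk
      have h3 : f k * (f (k + 1))⁻¹ ∈ F := by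
        apply step (f k) (f (k + 1)) (h • vp (k : ℝ)) (h • vp ((k + 1 : ℕ) : ℝ))
        · have := hf k; linarith
        · exact hf (k + 1)
        · rw [dist_smul, vp_isometry.dist_eq, Real.dist_eq]
          push_cast
          rw [show (k : ℝ) - (k + 1) = -1 by ring]
          simp
      have h4 := Subgroup.inv_mem _ (Subgroup.subset_closure h3)
      have h5 := Subgroup.mul_mem _ h4 (ih (by push_cast at hk; linarith))
      simpa using h5
  have hT0 : 0 ≤ T := dist_nonneg
  have hfl := hk ⌊T⌋₊ (Nat.floor_le hT0)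
  have h3 : f ⌊T⌋₊ * (g⁻¹)⁻¹ ∈ F := by
    apply step (f ⌊T⌋₊) g⁻¹ (h • vp (⌊T⌋₊ : ℝ)) (g • I)
    · have := hf ⌊T⌋₊; linarith
    · rw [inv_smul_smul, dist_self]; exact hr0.le
    · rw [← h2, dist_smul, vp_isometry.dist_eq, Real.dist_eq]
      have h4 := Nat.floor_le hT0
      have h5 := Nat.lt_floor_add_one T
      rw [abs_le]
      constructor <;> linarith
  have h4 := Subgroup.mul_mem _ (Subgroup.inv_mem _ hfl) (Subgroup.subset_closure h3)
  simpa using h4

end IsClosedSurface

end Pool.Agent.Y473.SA
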